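import Pool.Agent.Run7.h305.CX.CP

/-!
# Piece AV: limits of averages along orbit pieces are tracial states
-/

set_option autoImplicit false
set_option linter.unusedSectionVars false

noncomputable section

namespace Run7.h305.CX

open Filter Topology Matrix Run7.h745
open scoped InnerProductSpace ENNReal

section
variable {X : Type} [TopologicalSpace X] [CompactSpace X] {T : X ≃ₜ X}
  {A : Type} [CStarAlgebra A] {ι : C(X, ℂ) →⋆ₐ[ℂ] A} {u : unitary A}
  {π : X → (A →⋆ₐ[ℂ] (HH →L[ℂ] HH))}

/-- the average -/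
def avg (π : X → (A →⋆ₐ[ℂ] (HH →L[ℂ] HH))) (N : ℕ) (x : X) (a : A) : ℂ :=
  (N : ℂ)⁻¹ * ∑ i ∈ Finset.range N, inner ℂ (dl (i : ℤ)) (π x a (dl (i : ℤ)))

lemma avg_add (N : ℕ) (x : X) (a b : A) : avg π N x (a + b) = avg π N x a + avg π N x b := by
  unfold avg
  rw [← mul_add, ← Finset.sum_add_distrib]
  congr 1
  refine Finset.sum_congr rfl fun i _ => ?_
  rw [map_add, _root_.add_apply, inner_add_right]

lemma avg_smul (N : ℕ) (x : X) (c : ℂ) (a : A) : avg π N x (c • a) = c * avg π N x a := by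
  have h : ∑ i ∈ Finset.range N, inner ℂ (dl (i : ℤ)) (π x (c • a) (dl (i : ℤ))) =
      c * ∑ i ∈ Finset.range N, inner ℂ (dl (i : ℤ)) (π x a (dl (i : ℤ))) := by
    rw [Finset.mul_sum]
    refine Finset.sum_congr rfl fun i _ => ?_
    rw [map_smul, _root_.smul_apply, inner_smul_right]
  unfold avg
  rw [h]
  ring

lemma avg_norm (N : ℕ) (x : X) (a : A) : ‖avg π N x a‖ ≤ ‖a‖ := by
  unfold avg
  rcases Nat.eq_zero_or_pos N with h | h
  · rw [h]; simp
  · rw [norm_mul, norm_inv, Complex.norm_natCast]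
    have h1 : ‖∑ i ∈ Finset.range N, inner ℂ (dl (i : ℤ)) (π x a (dl (i : ℤ)))‖ ≤ N * ‖a‖ := by
      refine (norm_sum_le _ _).trans ?_
      refine (Finset.sum_le_card_nsmul _ _ ‖a‖ fun i _ => ?_).trans ?_
      · exact (coef_le _ _ _).trans (NonUnitalStarAlgHom.norm_apply_le (π x) a)
      · rw [Finset.card_range, nsmul_eq_mul]
    have h2 : (0 : ℝ) < N := by exact_mod_cast h
    calc (N : ℝ)⁻¹ * _ ≤ (N : ℝ)⁻¹ * (N * ‖a‖) := by gcongr
      _ = ‖a‖ := by field_simp

lemma avg_one (N : ℕ) (hN : 0 < N) (x : X) : avg π N x 1 = 1 := by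
  unfold avg
  have h1 : ∀ i ∈ Finset.range N, inner ℂ (dl (i : ℤ)) (π x 1 (dl (i : ℤ))) = (1 : ℂ) := by
    intro i _
    rw [map_one]
    show inner ℂ (dl (i : ℤ)) (dl (i : ℤ)) = (1 : ℂ)
    rw [dl_dl, if_pos rfl]
  rw [Finset.sum_congr rfl h1, Finset.sum_const, Finset.card_range, nsmul_eq_mul, mul_one]
  have : (N : ℂ) ≠ 0 := by exact_mod_cast hN.ne'
  field_simp

lemma avg_pos (N : ℕ) (x : X) (a : A) : 0 ≤ (avg π N x (star a * a)).re ∧
    (avg π N x (star a * a)).im = 0 := by
  have h1 : avg π N x (star a * a) =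
      (((N : ℝ)⁻¹ * ∑ i ∈ Finset.range N, ‖π x a (dl (i : ℤ))‖ ^ 2 : ℝ) : ℂ) := by
    unfold avg
    push_cast
    congr 1
    refine Finset.sum_congr rfl fun i _ => ?_
    rw [map_mul, map_star, mul_apply_eq_comp, ContinuousLinearMap.star_eq_adjoint,
      ContinuousLinearMap.adjoint_inner_right, inner_self_eq_norm_sq_to_K]
    rfl
  rw [h1]
  constructor
  · rw [Complex.ofReal_re]; positivity
  · exact Complex.ofReal_im _

lemma avg_fn (hπ : ∀ x, IsOrbitRep T ι u x (π x)) (N : ℕ) (x : X) (f : C(X, ℂ)) (b : A) :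
    avg π N x (ι f * b) = avg π N x (b * ι f) := by
  unfold avg
  congr 1
  refine Finset.sum_congr rfl fun i _ => ?_
  rw [map_mul, map_mul, mul_apply_eq_comp, mul_apply_eq_comp, (hπ x).coef, (hπ x).fn, map_smul,
    inner_smul_right]

lemma avg_u (hπ : ∀ x, IsOrbitRep T ι u x (π x)) (N : ℕ) (hN : 0 < N) (x : X) (b : A) :
    ‖avg π N x ((u : A) * b) - avg π N x (b * (u : A))‖ ≤ 2 * ‖b‖ / N := by
  obtain ⟨c, hc⟩ : ∃ c : ℤ → ℂ, c = fun i => inner ℂ (dl i) (π x b (dl (i + 1))) := ⟨_, rfl⟩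
  have hcb : ∀ i, ‖c i‖ ≤ ‖b‖ := by
    intro i
    rw [hc]
    exact (coef_le _ _ _).trans (NonUnitalStarAlgHom.norm_apply_le (π x) b)
  have h1 : ∀ i : ℕ, inner ℂ (dl (i : ℤ)) (π x ((u : A) * b) (dl (i : ℤ))) = c ((i : ℤ) - 1) := by
    intro i
    rw [map_mul, mul_apply_eq_comp, hc]
    simp only
    rw [sub_add_cancel]
    have h2 : π x (u : A) = star (π x (star (u : A))) := by rw [← map_star, star_star]
    rw [h2, ContinuousLinearMap.star_eq_adjoint, ContinuousLinearMap.adjoint_inner_right]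
    have h3 := (hπ x).up (-1) (i : ℤ)
    rw [up_neg, up_one] at h3
    rw [h3, ← sub_eq_add_neg]
  have h2 : ∀ i : ℕ, inner ℂ (dl (i : ℤ)) (π x (b * (u : A)) (dl (i : ℤ))) = c (i : ℤ) := by
    intro i
    rw [map_mul, mul_apply_eq_comp, (hπ x).sh, hc]
  have h3 : avg π N x ((u : A) * b) - avg π N x (b * (u : A)) =
      (N : ℂ)⁻¹ * (c (-1) - c ((N : ℤ) - 1)) := by
    unfold avg
    rw [← mul_sub, ← Finset.sum_sub_distrib]
    congr 1
    rw [Finset.sum_congr rfl fun i _ => by rw [h1, h2]]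
    have : ∀ M : ℕ, ∑ i ∈ Finset.range M, (c ((i : ℤ) - 1) - c (i : ℤ)) = c (-1) - c ((M : ℤ) - 1) := by
      intro M
      induction M with
      | zero => simp
      | succ M ih =>
        rw [Finset.sum_range_succ, ih]
        push_cast
        rw [add_sub_cancel_right]
        ring
    exact this N
  rw [h3, norm_mul, norm_inv, Complex.norm_natCast]
  have h4 : ‖c (-1) - c ((N : ℤ) - 1)‖ ≤ 2 * ‖b‖ := by
    refine (norm_sub_le _ _).trans ?_
    have := hcb (-1)
    have := hcb ((N : ℤ) - 1)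
    linarith
  have h5 : (0 : ℝ) < N := by exact_mod_cast hN
  rw [inv_mul_eq_div]
  gcongr

end

theorem av : S_AV := by
  intro X _ _ _ T A _ ι u π hA hπ F N x hN
  have hrep := hπ.rep
  have hex : ∀ a : A, ∃ l : ℂ, Tendsto (fun k => avg π (N k) (x k) a) F (𝓝 l) := by
    intro a
    have hc : IsCompact (Metric.closedBall (0 : ℂ) ‖a‖) := isCompact_closedBall 0 ‖a‖
    obtain ⟨l, -, hl⟩ := hc.ultrafilter_le_nhds (F.map fun k => avg π (N k) (x k) a) (by
      rw [Filter.le_principal_iff]
      refine Filter.mem_map.mpr (Filter.univ_mem' fun k => ?_)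
      show avg π (N k) (x k) a ∈ Metric.closedBall (0 : ℂ) ‖a‖
      rw [mem_closedBall_zero_iff]
      exact avg_norm _ _ _)
    exact ⟨l, hl⟩
  choose ℓ hℓ using hex
  have hpos : ∀ᶠ k in (F : Filter ℕ), 0 < N k := hN.eventually (eventually_gt_atTop 0)
  have hadd : ∀ a b, ℓ (a + b) = ℓ a + ℓ b := by
    intro a b
    refine tendsto_nhds_unique (hℓ (a + b)) ?_
    refine ((hℓ a).add (hℓ b)).congr fun k => ?_
    rw [avg_add]
  have hsmul : ∀ (c : ℂ) a, ℓ (c • a) = c * ℓ a := by
    intro c a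
    refine tendsto_nhds_unique (hℓ (c • a)) ?_
    refine ((hℓ a).const_mul c).congr fun k => ?_
    rw [avg_smul]
  have hnorm : ∀ a, ‖ℓ a‖ ≤ ‖a‖ := by
    intro a
    exact le_of_tendsto (hℓ a).norm (Filter.Eventually.of_forall fun k => avg_norm _ _ _)
  have hsub : ∀ a b, ℓ (a - b) = ℓ a - ℓ b := by
    intro a b
    have := hadd (a - b) b
    rw [sub_add_cancel] at this
    rw [this]; ring
  -- trace property
  obtain ⟨P, hP⟩ : ∃ P : A → Prop, P = fun a => ∀ b, ℓ (a * b) = ℓ (b * a) := ⟨_, rfl⟩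
  have P_add : ∀ a a', P a → P a' → P (a + a') := by
    intro a a' h h'
    rw [hP] at h h' ⊢
    intro b
    rw [add_mul, mul_add, hadd, hadd, h, h']
  have P_mul : ∀ a a', P a → P a' → P (a * a') := by
    intro a a' h h'
    rw [hP] at h h' ⊢
    intro b
    rw [mul_assoc, h, mul_assoc, h', mul_assoc]
  have P_fn : ∀ f : C(X, ℂ), P (ι f) := by
    intro f
    rw [hP]
    intro b
    refine tendsto_nhds_unique (hℓ (ι f * b)) ?_
    refine (hℓ (b * ι f)).congr fun k => ?_
    rw [avg_fn hrep]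
  have P_u : P (u : A) := by
    rw [hP]
    intro b
    have h1 := (hℓ ((u : A) * b)).sub (hℓ (b * (u : A)))
    have h2 : Tendsto (fun k => avg π (N k) (x k) ((u : A) * b) - avg π (N k) (x k) (b * (u : A)))
        F (𝓝 0) := by
      have h3 : Tendsto (fun k => 2 * ‖b‖ / (N k : ℝ)) F (𝓝 0) :=
        (tendsto_const_div_atTop_nhds_zero_nat (2 * ‖b‖)).comp hN
      refine squeeze_zero_norm' ?_ h3
      filter_upwards [hpos] with k hk
      exact avg_u hrep _ hk _ _
    have h4 := tendsto_nhds_unique h1 h2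
    exact sub_eq_zero.mp h4
  have P_u' : P (up u (-1)) := by
    have h1 := P_u
    rw [hP] at h1 ⊢
    intro b
    have h2 := h1 (up u (-1) * b * up u (-1))
    rw [← up_one] at h2
    have e1 : up u 1 * (up u (-1) * b * up u (-1)) = b * up u (-1) := by
      rw [← mul_assoc, ← mul_assoc, up_mul_up_neg, one_mul]
    have e2 : up u (-1) * b * up u (-1) * up u 1 = up u (-1) * b := by
      rw [mul_assoc, up_neg_mul_up, mul_one]
    rw [e1, e2] at h2
    exact h2.symm
  have P_up : ∀ k : ℤ, P (up u k) := by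
    intro k
    induction k using Int.induction_on with
    | zero =>
      rw [up_zero, hP]
      intro b
      rw [one_mul, mul_one]
    | succ n ih =>
      rw [up_add]
      exact P_mul _ _ ih (by rw [up_one]; exact P_u)
    | pred n ih =>
      rw [sub_eq_add_neg, up_add]
      exact P_mul _ _ ih P_u'
  have P_all : ∀ a, P a := by
    intro a
    refine (cp3_dense hA).induction_on (p := P) a ?_ ?_
    · rw [hP]
      have hcont : Continuous ℓ := by
        refine (LipschitzWith.of_dist_le_mul (K := 1) fun a b => ?_).continuous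
        rw [dist_eq_norm, dist_eq_norm, ← hsub]
        simpa using hnorm (a - b)
      have : {a | ∀ b, ℓ (a * b) = ℓ (b * a)} = ⋂ b, {a | ℓ (a * b) = ℓ (b * a)} := by
        ext a; simp
      rw [this]
      refine isClosed_iInter fun b => isClosed_eq ?_ ?_
      · exact hcont.comp (continuous_id.mul continuous_const)
      · exact hcont.comp (continuous_const.mul continuous_id)
    · intro G
      induction G using Finsupp.induction_linear with
      | zero =>
        rw [map_zero, hP]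
        intro b
        rw [zero_mul, mul_zero]
      | add G G' hG hG' => rw [map_add]; exact P_add _ _ hG hG'
      | single k a => rw [Lam_single]; exact P_mul _ _ (P_fn a) (P_up k)
  rw [hP] at P_all
  refine ⟨{ val := { toFun := ℓ, map_add' := hadd, map_smul' := fun c a => by rw [hsmul]; rfl }
            map_one := ?_
            nonneg := ?_
            comm := fun a b => P_all a b }, hℓ⟩
  · refine tendsto_nhds_unique (hℓ 1) ?_
    refine (tendsto_const_nhds (x := (1 : ℂ))).congr' ?_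
    filter_upwards [hpos] with k hk
    rw [avg_one _ hk]
  · intro y
    constructor
    · have h1 := (Complex.continuous_re.tendsto _).comp (hℓ (star y * y))
      exact ge_of_tendsto h1 (Filter.Eventually.of_forall fun k => (avg_pos _ _ _).1)
    · have h1 := (Complex.continuous_im.tendsto _).comp (hℓ (star y * y))
      refine tendsto_nhds_unique h1 ?_
      refine (tendsto_const_nhds (x := (0 : ℝ))).congr fun k => ?_
      exact (avg_pos _ _ _).2.symm

end Run7.h305.CX
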