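import Pool.Agent.Run7.h305.CX.CP4

/-!
# Piece CP4, part 2: universality
-/

set_option autoImplicit false
set_option linter.unusedSectionVars false

noncomputable section

namespace Run7.h305.CX

open Filter Topology Matrix Run7.h745
open scoped InnerProductSpace ENNReal

section univ
variable {X : Type} [TopologicalSpace X] [CompactSpace X] {T : X ≃ₜ X} {K : ℕ}
  {A : Type} [CStarAlgebra A] {ι : C(X, ℂ) →⋆ₐ[ℂ] A} {u : unitary A}
  {T' : X × Fin (K + 1) ≃ₜ X × Fin (K + 1)}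
  {B : Type} [CStarAlgebra B] {π : C(X × Fin (K + 1), ℂ) →⋆ₐ[ℂ] B} {v : unitary B}

lemma up_conj_succ (v : unitary B) (k : ℤ) (y : B) :
    up v (k + 1) * y * up v (-(k + 1)) = (v : B) * (up v k * y * up v (-k)) * star (v : B) := by
  have e1 : up v (k + 1) = (v : B) * up v k := by rw [add_comm, up_add, up_one]
  have e2 : up v (-(k + 1)) = up v (-k) * star (v : B) := by
    rw [neg_add, up_add, up_neg v 1, up_one]
  rw [e1, e2]
  simp only [mul_assoc]

lemma v_JJ' (hT' : IsTower T K T') (hπ : Covariant T' π v) (g : C(X, ℂ)) (k : ℕ) (hk : k < K + 1) :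
    up v (k : ℤ) * π (JJ 0 g) * up v (-(k : ℤ)) = π (JJ ⟨k, hk⟩ g) := by
  induction k with
  | zero =>
    rw [Nat.cast_zero, neg_zero, up_zero, one_mul, mul_one]; rfl
  | succ k ih =>
    have hk' : k < K := by omega
    rw [Nat.cast_succ, up_conj_succ, ih (by omega), hπ, pull_JJ hT']
    have h1 : (⟨k, by omega⟩ : Fin (K + 1)) ≠ Fin.last K := by
      intro h
      have := congrArg Fin.val h
      simp at this
      omega
    have h2 : (⟨k, by omega⟩ : Fin (K + 1)) + 1 = ⟨k + 1, hk⟩ := by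
      apply Fin.ext
      rw [Fin.val_add_one_of_lt]
      exact Fin.lt_def.mpr (by simpa using hk')
    rw [dT, if_neg h1, h2]

lemma v_JJ (hT' : IsTower T K T') (hπ : Covariant T' π v) (g : C(X, ℂ)) (p : Fin (K + 1)) :
    up v ((p : ℕ) : ℤ) * π (JJ 0 g) * up v (-((p : ℕ) : ℤ)) = π (JJ p g) :=
  v_JJ' hT' hπ g p p.2

lemma v_top (hT' : IsTower T K T') (hπ : Covariant T' π v) (g : C(X, ℂ)) :
    up v ((K + 1 : ℕ) : ℤ) * π (JJ 0 g) * up v (-((K + 1 : ℕ) : ℤ)) = π (JJ 0 (pull T g)) := by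
  rw [Nat.cast_succ, up_conj_succ, v_JJ' hT' hπ g K (by omega), hπ, pull_JJ hT']
  have h1 : (⟨K, by omega⟩ : Fin (K + 1)) = Fin.last K := rfl
  rw [h1, dT, if_pos rfl, Fin.last_add_one]

/-- functions on the base -/
def prX (X : Type) [TopologicalSpace X] (K : ℕ) : C(X, ℂ) →⋆ₐ[ℂ] C(X × Fin (K + 1), ℂ) :=
  ContinuousMap.compStarAlgHom' ℂ ℂ ⟨Prod.fst, continuous_fst⟩

lemma prX_sum (g : C(X, ℂ)) : prX X K g = ∑ p, JJ p g := by
  rw [← sum_JJ (prX X K g)]; rfl

lemma JJ_prX (p : Fin (K + 1)) (g h : C(X, ℂ)) : JJ p g * prX X K h = JJ p (g * h) := by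
  ext ⟨x, r⟩
  rw [ContinuousMap.mul_apply, JJ_apply, JJ_apply]
  by_cases hr : r = p
  · rw [if_pos hr, if_pos hr]; rfl
  · rw [if_neg hr, if_neg hr, zero_mul]

/-- the power of the unitary -/
def v1 (K : ℕ) (v : unitary B) : unitary B := v ^ (((K + 1 : ℕ) : ℤ))

lemma v1_coe : (v1 K v : B) = up v ((K + 1 : ℕ) : ℤ) := rfl

lemma v1_cov (hT' : IsTower T K T') (hπ : Covariant T' π v) :
    Covariant T (π.comp (prX X K)) (v1 K v) := by
  intro g
  rw [v1_coe, star_up]
  show up v ((K + 1 : ℕ) : ℤ) * π (prX X K g) * up v (-((K + 1 : ℕ) : ℤ)) = π (prX X K (pull T g))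
  rw [prX_sum, prX_sum, map_sum, map_sum, Finset.mul_sum, Finset.sum_mul]
  refine Finset.sum_congr rfl fun p _ => ?_
  rw [← v_JJ hT' hπ g p, ← v_JJ hT' hπ (pull T g) p, ← v_top hT' hπ g]
  have e1 : up v ((K + 1 : ℕ) : ℤ) * up v ((p : ℕ) : ℤ) = up v ((p : ℕ) : ℤ) * up v ((K + 1 : ℕ) : ℤ) := by
    rw [← up_add, ← up_add, add_comm]
  have e2 : up v (-((p : ℕ) : ℤ)) * up v (-((K + 1 : ℕ) : ℤ)) =
      up v (-((K + 1 : ℕ) : ℤ)) * up v (-((p : ℕ) : ℤ)) := by
    rw [← up_add, ← up_add, add_comm]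
  calc up v ((K + 1 : ℕ) : ℤ) * (up v ((p : ℕ) : ℤ) * π (JJ 0 g) * up v (-((p : ℕ) : ℤ))) *
        up v (-((K + 1 : ℕ) : ℤ))
      = (up v ((K + 1 : ℕ) : ℤ) * up v ((p : ℕ) : ℤ)) * π (JJ 0 g) *
          (up v (-((p : ℕ) : ℤ)) * up v (-((K + 1 : ℕ) : ℤ))) := by simp only [mul_assoc]
    _ = _ := by rw [e1, e2]; simp only [mul_assoc]

/-- the corner projection commutes with the image of `A` -/
lemma e0_comm (hA : IsCrossedProduct T ι u) (hT' : IsTower T K T') (hπ : Covariant T' π v)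
    (φ₁ : A →⋆ₐ[ℂ] B) (h1 : ∀ g, φ₁ (ι g) = π (prX X K g)) (h2 : φ₁ (u : A) = v1 K v) (a : A) :
    Commute (π (JJ 0 1)) (φ₁ a) := by
  have hfn : ∀ g, Commute (π (JJ (0 : Fin (K + 1)) (1 : C(X, ℂ)))) (φ₁ (ι g)) := by
    intro g
    rw [h1, Commute, SemiconjBy, ← map_mul, ← map_mul, mul_comm]
  have hu : Commute (π (JJ (0 : Fin (K + 1)) (1 : C(X, ℂ)))) (φ₁ (u : A)) := by
    have h3 := v_top hT' hπ (1 : C(X, ℂ))
    have h4 : pull T (1 : C(X, ℂ)) = 1 := rfl
    rw [h4] at h3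
    rw [h2, v1_coe]
    show π (JJ 0 1) * up v _ = up v _ * π (JJ 0 1)
    conv_lhs => rw [← h3]
    rw [mul_assoc, up_neg_mul_up, mul_one]
  have hu' : Commute (π (JJ (0 : Fin (K + 1)) (1 : C(X, ℂ)))) (φ₁ (up u (-1))) := by
    have h3 := hu.star_star
    rw [← map_star, ← map_star, JJ_star, star_one, ← up_one, star_up] at h3
    exact h3
  have hup : ∀ k : ℤ, Commute (π (JJ (0 : Fin (K + 1)) (1 : C(X, ℂ)))) (φ₁ (up u k)) := by
    intro k
    induction k using Int.induction_on with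
    | zero => rw [up_zero, map_one]; exact Commute.one_right _
    | succ n ih => rw [up_add, map_mul, up_one]; exact ih.mul_right hu
    | pred n ih => rw [sub_eq_add_neg, up_add, map_mul]; exact ih.mul_right hu'
  refine (cp3_dense hA).induction_on (p := fun a => Commute (π (JJ (0 : Fin (K + 1)) (1 : C(X, ℂ))))
    (φ₁ a)) a ?_ ?_
  · have := hom_cont φ₁
    exact isClosed_eq (by fun_prop) (by fun_prop)
  · intro G
    induction G using Finsupp.induction_linear with
    | zero => rw [map_zero, map_zero]; exact Commute.zero_right _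
    | add G G' hG hG' => rw [map_add, map_add]; exact hG.add_right hG'
    | single k g => rw [Lam_single, map_mul]; exact (hfn g).mul_right (hup k)

/-- the matrix units -/
def WW (K : ℕ) (π : C(X × Fin (K + 1), ℂ) →⋆ₐ[ℂ] B) (v : unitary B) (φ₁ : A →⋆ₐ[ℂ] B)
    (i j : Fin (K + 1)) : A →ₗ[ℂ] B :=
  (LinearMap.mulRight ℂ (up v (-((j : ℕ) : ℤ)))).comp
    ((LinearMap.mulLeft ℂ (up v ((i : ℕ) : ℤ) * π (JJ 0 1))).comp φ₁.toAlgHom.toLinearMap)

lemma WW_apply (φ₁ : A →⋆ₐ[ℂ] B) (i j : Fin (K + 1)) (a : A) :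
    WW K π v φ₁ i j a = up v ((i : ℕ) : ℤ) * π (JJ 0 1) * φ₁ a * up v (-((j : ℕ) : ℤ)) := rfl

lemma JJ_idem (p : Fin (K + 1)) : JJ p (1 : C(X, ℂ)) * JJ p 1 = JJ p 1 := by
  rw [JJ_mul, if_pos rfl, mul_one]

theorem exists_hom (hA : IsCrossedProduct T ι u) (hT' : IsTower T K T') (hπ : Covariant T' π v) :
    ∃ φ : Mat (K + 1) A →⋆ₐ[ℂ] B, (∀ f, φ (dι K ι f) = π f) ∧ φ (du K u : Mat (K + 1) A) = v := by
  obtain ⟨φ₁, ⟨h1', h2⟩, -⟩ := hA.univ B (π.comp (prX X K)) (v1 K v) (v1_cov hT' hπ)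
  have h1 : ∀ g, φ₁ (ι g) = π (prX X K g) := h1'
  have hcm := e0_comm hA hT' hπ φ₁ h1 h2
  have k1 : ∀ (i j k l : Fin (K + 1)) (a b : A), WW K π v φ₁ i j a * WW K π v φ₁ k l b =
      if j = k then WW K π v φ₁ i l (a * b) else 0 := by
    intro i j k l a b
    rw [WW_apply, WW_apply, WW_apply]
    have e1 : up v ((i : ℕ) : ℤ) * π (JJ 0 1) * φ₁ a * up v (-((j : ℕ) : ℤ)) *
        (up v ((k : ℕ) : ℤ) * π (JJ 0 1) * φ₁ b * up v (-((l : ℕ) : ℤ))) =
        up v ((i : ℕ) : ℤ) * φ₁ a * (π (JJ 0 1) * up v (-((j : ℕ) : ℤ)) *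
          (up v ((k : ℕ) : ℤ) * π (JJ 0 1))) * φ₁ b * up v (-((l : ℕ) : ℤ)) := by
      rw [mul_assoc (up v ((i : ℕ) : ℤ)) (π (JJ 0 1)), (hcm a).eq]
      simp only [mul_assoc]
    rw [e1]
    by_cases hjk : j = k
    · rw [if_pos hjk, ← hjk]
      have e2 : π (JJ 0 1) * up v (-((j : ℕ) : ℤ)) * (up v ((j : ℕ) : ℤ) * π (JJ (0 : Fin (K + 1)) (1 : C(X, ℂ)))) =
          π (JJ 0 1) := by
        rw [mul_assoc, ← mul_assoc (up v (-((j : ℕ) : ℤ))), up_neg_mul_up, one_mul, ← map_mul, JJ_idem]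
      rw [e2, mul_assoc (up v ((i : ℕ) : ℤ)) (φ₁ a), ← (hcm a).eq, map_mul]
      simp only [mul_assoc]
    · rw [if_neg hjk]
      have e2 : π (JJ 0 1) * up v (-((j : ℕ) : ℤ)) = up v (-((j : ℕ) : ℤ)) * π (JJ j (1 : C(X, ℂ))) := by
        rw [← v_JJ hT' hπ 1 j, ← mul_assoc, ← mul_assoc, up_neg_mul_up, one_mul]
      have e3 : up v ((k : ℕ) : ℤ) * π (JJ 0 1) = π (JJ k (1 : C(X, ℂ))) * up v ((k : ℕ) : ℤ) := by
        rw [← v_JJ hT' hπ 1 k, mul_assoc, up_neg_mul_up, mul_one]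
      have e4 : π (JJ j (1 : C(X, ℂ))) * π (JJ k 1) = 0 := by
        rw [← map_mul, JJ_mul, if_neg hjk, map_zero]
      have e5 : up v (-((j : ℕ) : ℤ)) * π (JJ j (1 : C(X, ℂ))) * (π (JJ k 1) * up v ((k : ℕ) : ℤ)) = 0 := by
        rw [mul_assoc, ← mul_assoc (π (JJ j 1)), e4, zero_mul, mul_zero]
      rw [e2, e3, e5, mul_zero, zero_mul, zero_mul]
  have k2 : ∀ (i j : Fin (K + 1)) (a : A), star (WW K π v φ₁ i j a) = WW K π v φ₁ j i (star a) := by
    intro i j a
    rw [WW_apply, WW_apply, star_mul, star_mul, star_mul, star_up, star_up, neg_neg, ← map_star,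
      ← map_star, JJ_star, star_one, ← mul_assoc (φ₁ (star a)), ← (hcm (star a)).eq]
    simp only [mul_assoc]
  have k3 : ∑ i, WW K π v φ₁ i i 1 = 1 := by
    have : ∀ i, WW K π v φ₁ i i 1 = π (JJ i 1) := by
      intro i
      rw [WW_apply, map_one, mul_one, v_JJ hT' hπ]
    simp only [this]
    rw [← map_sum, ← map_one π, ← map_one (prX X K), prX_sum]
  refine ⟨matHom (WW K π v φ₁) k1 k2 k3, fun f => ?_, ?_⟩
  · rw [dι_apply, matHom_apply]
    conv_rhs => rw [← sum_JJ f, map_sum]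
    refine Finset.sum_congr rfl fun i _ => ?_
    rw [Finset.sum_eq_single i]
    · rw [Matrix.diagonal_apply_eq, WW_apply, h1, mul_assoc (up v ((i : ℕ) : ℤ)), ← map_mul, JJ_prX,
        one_mul, v_JJ hT' hπ]
    · intro j _ hj
      rw [Matrix.diagonal_apply_ne _ (Ne.symm hj), map_zero]
    · intro h; exact absurd (Finset.mem_univ i) h
  · rw [du_coe, matHom_apply, Finset.sum_comm]
    have hcol : ∀ j, ∑ i, WW K π v φ₁ i j (UU K u i j) = (v : B) * π (JJ j 1) := by
      intro j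
      rw [Finset.sum_eq_single (j + 1)]
      · rw [UU, Matrix.of_apply, if_pos rfl, WW_apply, dd]
        by_cases h : j = Fin.last K
        · rw [if_pos h, h2, h, Fin.last_add_one, v1_coe]
          have e1 : (((0 : Fin (K + 1)) : ℕ) : ℤ) = 0 := rfl
          rw [e1, up_zero, one_mul]
          have h3 := hcm (u : A)
          rw [h2, v1_coe] at h3
          rw [h3.eq]
          have e2 : up v ((K + 1 : ℕ) : ℤ) = (v : B) * up v ((K : ℕ) : ℤ) := by
            rw [Nat.cast_succ, add_comm, up_add, up_one]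
          rw [e2, mul_assoc, mul_assoc]
          congr 1
          have h4 := v_JJ' hT' hπ 1 K (by omega)
          rw [mul_assoc] at h4
          exact h4
        · rw [if_neg h, map_one, mul_one]
          have e1 : (((j + 1 : Fin (K + 1)) : ℕ) : ℤ) = ((j : ℕ) : ℤ) + 1 := by
            rw [Fin.val_add_one_of_lt, Nat.cast_succ]
            rw [Fin.lt_def]
            have h5 := j.2
            have h6 : (j : ℕ) ≠ K := fun h' => h (Fin.ext h')
            simp
            omega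
          rw [e1, add_comm, up_add, up_one, mul_assoc, mul_assoc]
          congr 1
          have h4 := v_JJ hT' hπ 1 j
          rw [mul_assoc] at h4
          exact h4
      · intro i _ hi
        rw [UU, Matrix.of_apply, if_neg hi, map_zero]
      · intro h; exact absurd (Finset.mem_univ _) h
    simp only [hcol]
    rw [← Finset.mul_sum, ← map_sum, ← prX_sum, map_one, map_one, mul_one]

/-- column units -/
def Ec (p q : Fin (K + 1)) (a : A) : Mat (K + 1) A := Mat.of (Matrix.single p q a)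

lemma du_Ec (p q : Fin (K + 1)) (a : A) :
    (du K u : Mat (K + 1) A) * Ec p q a = Ec (p + 1) q (dd K u p * a) := by
  rw [du_coe, Ec, Ec, ← map_mul]
  congr 1
  ext i j
  rw [Matrix.mul_apply, Finset.sum_eq_single p]
  · rw [UU, Matrix.of_apply, Matrix.single_apply, Matrix.single_apply]
    by_cases hi : i = p + 1
    · rw [if_pos hi]
      by_cases hj : q = j
      · rw [if_pos ⟨rfl, hj⟩, if_pos ⟨hi.symm, hj⟩]
      · rw [if_neg (fun h => hj h.2), if_neg (fun h => hj h.2), mul_zero]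
    · rw [if_neg hi, zero_mul, if_neg (fun h => hi h.1.symm)]
  · intro r _ hr
    rw [Matrix.single_apply_of_row_ne (Ne.symm hr), mul_zero]
  · intro h; exact absurd (Finset.mem_univ _) h

lemma Ec_mul (p q r : Fin (K + 1)) (a b : A) : Ec p q a * Ec q r b = Ec p r (a * b) := by
  rw [Ec, Ec, Ec, ← map_mul, Matrix.single_mul_single_same]

lemma Ec_star (p q : Fin (K + 1)) (a : A) : star (Ec p q a) = Ec q p (star a) := by
  rw [Ec, Ec, ← map_star, Matrix.star_eq_conjTranspose, Matrix.conjTranspose_single]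

theorem unique_hom (hA : IsCrossedProduct T ι u) (φ ψ : Mat (K + 1) A →⋆ₐ[ℂ] B)
    (h1 : ∀ f, φ (dι K ι f) = ψ (dι K ι f))
    (h2 : φ (du K u : Mat (K + 1) A) = ψ (du K u : Mat (K + 1) A)) : φ = ψ := by
  have hfn : ∀ g, φ (Ec 0 0 (ι g)) = ψ (Ec 0 0 (ι g)) := by
    intro g
    have := h1 (JJ 0 g)
    rw [dι_JJ] at this
    exact this
  -- raising the row index
  have hrow : ∀ (a : A) (k : ℕ) (hk : k < K + 1), φ (Ec 0 0 a) = ψ (Ec 0 0 a) →
      φ (Ec ⟨k, hk⟩ 0 a) = ψ (Ec ⟨k, hk⟩ 0 a) := by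
    intro a k
    induction k with
    | zero => exact fun _ h => h
    | succ k ih =>
      intro hk h
      have h3 := ih (by omega) h
      have h4 : (⟨k, by omega⟩ : Fin (K + 1)) ≠ Fin.last K := by
        intro h
        have := congrArg Fin.val h
        simp at this
        omega
      have h5 : (⟨k, by omega⟩ : Fin (K + 1)) + 1 = ⟨k + 1, hk⟩ := by
        apply Fin.ext
        rw [Fin.val_add_one_of_lt]
        refine Fin.lt_def.mpr ?_
        simp
        omega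
      have h6 := du_Ec (u := u) (⟨k, by omega⟩ : Fin (K + 1)) 0 a
      rw [dd, if_neg h4, one_mul, h5] at h6
      rw [← h6, map_mul, map_mul, h2, h3]
  have h00 : φ (Ec 0 0 1) = ψ (Ec 0 0 1) := by
    have := hfn 1
    rwa [map_one] at this
  have hu : φ (Ec 0 0 (u : A)) = ψ (Ec 0 0 (u : A)) := by
    have h3 := hrow 1 K (by omega) h00
    have h6 := du_Ec (u := u) (Fin.last K) 0 (1 : A)
    rw [dd, if_pos rfl, mul_one, Fin.last_add_one] at h6
    rw [← h6, map_mul, map_mul, h2]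
    congr 1
  have hu' : φ (Ec 0 0 (up u (-1))) = ψ (Ec 0 0 (up u (-1))) := by
    have e : Ec 0 0 (up u (-1)) = star (Ec (K := K) 0 0 (u : A)) := by
      rw [Ec_star, up_neg, up_one]
    rw [e, map_star, map_star, hu]
  have hmul : ∀ a b : A, φ (Ec 0 0 a) = ψ (Ec 0 0 a) → φ (Ec 0 0 b) = ψ (Ec 0 0 b) →
      φ (Ec 0 0 (a * b)) = ψ (Ec 0 0 (a * b)) := by
    intro a b ha hb
    rw [← Ec_mul 0 0 0, map_mul, map_mul, ha, hb]
  have hup : ∀ k : ℤ, φ (Ec 0 0 (up u k)) = ψ (Ec 0 0 (up u k)) := by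
    intro k
    induction k using Int.induction_on with
    | zero => rw [up_zero]; exact h00
    | succ n ih => rw [up_add, up_one]; exact hmul _ _ ih hu
    | pred n ih => rw [sub_eq_add_neg, up_add]; exact hmul _ _ ih hu'
  have hall : ∀ a : A, φ (Ec 0 0 a) = ψ (Ec 0 0 a) := by
    intro a
    have hc : Continuous fun a : A => Ec (K := K) 0 0 a := by
      refine Mat.continuous_of.comp ?_
      refine continuous_matrix fun i j => ?_
      simp only [Matrix.single_apply]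
      split_ifs
      · exact continuous_id
      · exact continuous_const
    refine (cp3_dense hA).induction_on (p := fun a => φ (Ec 0 0 a) = ψ (Ec 0 0 a)) a ?_ ?_
    · exact isClosed_eq ((hom_cont φ).comp hc) ((hom_cont ψ).comp hc)
    · intro G
      induction G using Finsupp.induction_linear with
      | zero =>
        have : Ec (K := K) 0 0 (0 : A) = 0 := by rw [Ec, Matrix.single_zero, map_zero]
        rw [map_zero, this, map_zero, map_zero]
      | add G G' hG hG' =>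
        have : ∀ a b : A, Ec (K := K) 0 0 (a + b) = Ec 0 0 a + Ec 0 0 b := by
          intro a b
          rw [Ec, Ec, Ec, Matrix.single_add, map_add]
        rw [map_add, this, map_add, map_add, hG, hG']
      | single k g => rw [Lam_single]; exact hmul _ _ (hfn g) (hup k)
  refine StarAlgHom.ext fun M => ?_
  have hM : M = ∑ i, ∑ j, Ec i j ((Mat.of.symm M) i j) := by
    have h1 : M = Mat.of (Mat.of.symm M) := rfl
    conv_lhs => rw [h1, Matrix.matrix_eq_sum_single (Mat.of.symm M)]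
    simp only [map_sum]
    rfl
  rw [hM, map_sum, map_sum]
  refine Finset.sum_congr rfl fun i _ => ?_
  rw [map_sum, map_sum]
  refine Finset.sum_congr rfl fun j _ => ?_
  have e : ∀ a : A, Ec i j a = Ec i 0 a * star (Ec j 0 (1 : A)) := by
    intro a
    rw [Ec_star, star_one, Ec_mul, mul_one]
  rw [e, map_mul, map_mul, map_star, map_star, hrow _ i i.2 (hall _), hrow 1 j j.2 h00]

end univ

theorem cp4 : S_CP4 := by
  intro X _ _ _ T A _ ι u K T' hA hT'
  refine ⟨dι K ι, du K u, ⟨d_cov hA.cov hT', fun B _ π v hπ => ?_⟩, fun f => rfl⟩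
  obtain ⟨φ, h1, h2⟩ := exists_hom hA hT' hπ
  refine ⟨φ, ⟨h1, h2⟩, fun ψ hψ => unique_hom hA ψ φ (fun f => ?_) ?_⟩
  · rw [hψ.1, h1]
  · rw [hψ.2, h2]

end Run7.h305.CX
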