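import Pool.Agent.Run7.h745.Iface

/-!
# Piece G1: general position for Lipschitz families of matrices
-/

set_option autoImplicit false
set_option linter.unusedSectionVars false

noncomputable section

namespace Run7.h305.CX

open Filter Topology Matrix Run7.h745 Module
open scoped ENNReal NNReal

section
variable {N : ℕ}

/-- the operator of a matrix -/
def TT (M : Matrix (Fin N) (Fin N) ℂ) : (Fin N → ℂ) →L[ℂ] (Fin N → ℂ) :=
  LinearMap.toContinuousLinearMap (Matrix.toLin' M)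

lemma TT_apply (M : Matrix (Fin N) (Fin N) ℂ) (v : Fin N → ℂ) : TT M v = M *ᵥ v := rfl

lemma TT_sub (M M' : Matrix (Fin N) (Fin N) ℂ) : TT M - TT M' = TT (M - M') := by
  ext v : 1
  rw [_root_.sub_apply, TT_apply, TT_apply, TT_apply, Matrix.sub_mulVec]

lemma TT_norm (M : Matrix (Fin N) (Fin N) ℂ) (D : ℝ) (hD : 0 ≤ D) (h : ∀ i j, ‖M i j‖ ≤ D) :
    ‖TT M‖ ≤ N * D := by
  refine ContinuousLinearMap.opNorm_le_bound _ (by positivity) fun v => ?_
  rw [TT_apply]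
  refine (pi_norm_le_iff_of_nonneg (by positivity)).mpr fun i => ?_
  rw [Matrix.mulVec, dotProduct]
  refine (norm_sum_le _ _).trans ?_
  calc ∑ j, ‖M i j * v j‖ ≤ ∑ _j : Fin N, D * ‖v‖ := by
        refine Finset.sum_le_sum fun j _ => ?_
        rw [norm_mul]
        exact mul_le_mul (h i j) (norm_le_pi_norm v j) (norm_nonneg _) hD
    _ = N * D * ‖v‖ := by
        rw [Finset.sum_const, Finset.card_univ, Fintype.card_fin, nsmul_eq_mul]; ring

/-- regularisation of a linear map -/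
lemma exists_reg (A₀ : (Fin N → ℂ) →L[ℂ] (Fin N → ℂ)) :
    ∃ F P : (Fin N → ℂ) →L[ℂ] (Fin N → ℂ), F * A₀ + P = 1 ∧
      ∀ v, P v ∈ LinearMap.ker (A₀ : (Fin N → ℂ) →ₗ[ℂ] (Fin N → ℂ)) := by
  obtain ⟨U, hU⟩ := Submodule.exists_isCompl (LinearMap.ker (A₀ : (Fin N → ℂ) →ₗ[ℂ] (Fin N → ℂ)))
  have hinj : LinearMap.ker ((A₀ : (Fin N → ℂ) →ₗ[ℂ] (Fin N → ℂ)).comp U.subtype) = ⊥ := by
    rw [LinearMap.ker_eq_bot']
    intro m hm
    have h1 : (m : Fin N → ℂ) ∈ LinearMap.ker (A₀ : (Fin N → ℂ) →ₗ[ℂ] (Fin N → ℂ)) ⊓ U := ⟨hm, m.2⟩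
    rw [hU.inf_eq_bot, Submodule.mem_bot] at h1
    exact Subtype.ext h1
  obtain ⟨g, hg⟩ := LinearMap.exists_leftInverse_of_injective _ hinj
  obtain ⟨Fl, hFl⟩ : ∃ Fl : (Fin N → ℂ) →ₗ[ℂ] (Fin N → ℂ), Fl = U.subtype.comp g := ⟨_, rfl⟩
  have hU1 : ∀ m : U, Fl (A₀ m) = m := by
    intro m
    have h1 := LinearMap.congr_fun hg m
    rw [hFl]
    show ((g (A₀ m) : U) : Fin N → ℂ) = m
    exact congrArg Subtype.val h1
  refine ⟨LinearMap.toContinuousLinearMap Fl, 1 - LinearMap.toContinuousLinearMap Fl * A₀, by abel,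
    fun v => ?_⟩
  have hv : v ∈ LinearMap.ker (A₀ : (Fin N → ℂ) →ₗ[ℂ] (Fin N → ℂ)) ⊔ U := by
    rw [hU.sup_eq_top]; trivial
  obtain ⟨k, hk, m, hm, rfl⟩ := Submodule.mem_sup.mp hv
  have h2 : A₀ k = 0 := hk
  have h3 : (1 - LinearMap.toContinuousLinearMap Fl * A₀) (k + m) = k := by
    show (k + m) - Fl (A₀ (k + m)) = k
    rw [map_add, h2, zero_add, hU1 ⟨m, hm⟩, add_sub_cancel_right]
  rw [h3]
  exact hk

variable {s' : ℕ}

/-- the parametrisation of the bad matrices -/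
def HH1 (k : Fin (s' + 1)) (F P : (Fin N → ℂ) →L[ℂ] (Fin N → ℂ)) (W : Submodule ℂ (Fin N → ℂ))
    (q : ((Fin N → ℂ) →L[ℂ] (Fin N → ℂ)) × ((Fin s' → ℂ) × ((Fin s' → (Fin N → ℂ)) × W))) :
    Fin (s' + 1) → (Fin N → ℂ) :=
  Fin.insertNth (α := fun _ => Fin N → ℂ) k
    (Ring.inverse (F * q.1 + P) (q.2.2.2 : Fin N → ℂ) - ∑ j, q.2.1 j • q.2.2.1 j) q.2.2.1

lemma HH1_contDiff (k : Fin (s' + 1)) (F P : (Fin N → ℂ) →L[ℂ] (Fin N → ℂ))
    (W : Submodule ℂ (Fin N → ℂ))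
    (q : ((Fin N → ℂ) →L[ℂ] (Fin N → ℂ)) × ((Fin s' → ℂ) × ((Fin s' → (Fin N → ℂ)) × W)))
    (hq : IsUnit (F * q.1 + P)) : ContDiffAt ℂ 1 (HH1 k F P W) q := by
  rw [contDiffAt_pi]
  intro i
  rcases Fin.eq_self_or_eq_succAbove k i with h | ⟨j, h⟩
  · subst h
    simp only [HH1, Fin.insertNth_apply_same]
    refine ContDiffAt.sub ?_ ?_
    · obtain ⟨x, hx⟩ := hq
      have h1 : ContDiffAt ℂ 1 (fun q : ((Fin N → ℂ) →L[ℂ] (Fin N → ℂ)) ×
          ((Fin s' → ℂ) × ((Fin s' → (Fin N → ℂ)) × W)) => F * q.1 + P) q := by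
        refine ContDiffAt.add ?_ contDiffAt_const
        exact contDiffAt_const.mul contDiffAt_fst
      have h2 : ContDiffAt ℂ 1 (Ring.inverse : ((Fin N → ℂ) →L[ℂ] (Fin N → ℂ)) → _) (F * q.1 + P) := by
        rw [← hx]
        exact contDiffAt_ringInverse ℂ x
      have h3 := ContDiffAt.comp q h2 h1
      refine ContDiffAt.clm_apply h3 ?_
      exact W.subtypeL.contDiff.contDiffAt.comp q (by fun_prop)
    · fun_prop
  · subst h
    simp only [HH1, Fin.insertNth_apply_succAbove]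
    fun_prop

variable {M : ℕ}

/-- matrices (given by their columns) which are bad for a point of `U` -/
def bad (B : (Fin M → ℝ) → Matrix (Fin N) (Fin N) ℂ) (s' : ℕ) (U : Set (Fin M → ℝ)) :
    Set (Fin (s' + 1) → (Fin N → ℂ)) :=
  {C | ∃ x ∈ U, ∃ ξ : Fin (s' + 1) → ℂ, ξ ≠ 0 ∧ TT (B x) (∑ i, ξ i • C i) = 0}

lemma bad_local (r : ℕ) (K : Set (Fin M → ℝ)) (B : (Fin M → ℝ) → Matrix (Fin N) (Fin N) ℂ)
    (L : ℝ) (hL : ∀ x ∈ K, ∀ y ∈ K, ∀ i j, ‖B x i j - B y i j‖ ≤ L * ‖x - y‖)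
    (hr : ∀ x ∈ K, s' + 1 + r ≤ (B x).rank) (hM : M ≤ 2 * r + 1) (x₀ : Fin M → ℝ) (hx₀ : x₀ ∈ K) :
    ∃ U ∈ 𝓝[K] x₀, dimH (bad B s' U) ≤ ((2 * (N * (s' + 1)) - 1 : ℕ) : ℝ≥0∞) := by
  obtain ⟨A₀, hA₀⟩ : ∃ A₀, A₀ = TT (B x₀) := ⟨_, rfl⟩
  obtain ⟨F, P, hFP, hP⟩ := exists_reg A₀
  obtain ⟨W, hW⟩ : ∃ W, W = LinearMap.ker (A₀ : (Fin N → ℂ) →ₗ[ℂ] (Fin N → ℂ)) := ⟨_, rfl⟩
  rw [← hW] at hP
  -- Lipschitz
  obtain ⟨c, hc⟩ : ∃ c : ℝ≥0, LipschitzOnWith c (fun x => TT (B x)) K := by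
    refine ⟨⟨N * |L|, by positivity⟩, LipschitzOnWith.of_dist_le_mul fun x hx y hy => ?_⟩
    rw [dist_eq_norm, TT_sub, dist_eq_norm]
    refine (TT_norm _ (|L| * ‖x - y‖) (by positivity) fun i j => ?_).trans (le_of_eq ?_)
    · rw [Matrix.sub_apply]
      exact (hL x hx y hy i j).trans (mul_le_mul_of_nonneg_right (le_abs_self L) (norm_nonneg _))
    · show _ = (N * |L|) * ‖x - y‖
      ring
  have hcont : ContinuousOn (fun x => TT (B x)) K := hc.continuousOn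
  obtain ⟨U, hU⟩ : ∃ U : Set (Fin M → ℝ), U = {x | x ∈ K ∧ IsUnit (F * TT (B x) + P)} := ⟨_, rfl⟩
  have hUK : U ∈ 𝓝[K] x₀ := by
    have h1 : ContinuousWithinAt (fun x => F * TT (B x) + P) K x₀ := by
      have := hcont x₀ hx₀
      exact (continuousWithinAt_const.mul this).add continuousWithinAt_const
    have h2 : {y : (Fin N → ℂ) →L[ℂ] (Fin N → ℂ) | IsUnit y} ∈ 𝓝 (F * TT (B x₀) + P) := by
      rw [← hA₀, hFP]
      exact Units.isOpen.mem_nhds isUnit_one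
    have h3 := h1 h2
    rw [hU]
    exact Filter.inter_mem self_mem_nhdsWithin h3
  refine ⟨U, hUK, ?_⟩
  -- the parameter space
  obtain ⟨S, hS⟩ : ∃ S : Set ((Fin M → ℝ) × ((Fin s' → ℂ) × ((Fin s' → (Fin N → ℂ)) × W))),
      S = {q | q.1 ∈ U} := ⟨_, rfl⟩
  obtain ⟨Φ, hΦ⟩ : ∃ Φ : ((Fin M → ℝ) × ((Fin s' → ℂ) × ((Fin s' → (Fin N → ℂ)) × W))) →
      (((Fin N → ℂ) →L[ℂ] (Fin N → ℂ)) × ((Fin s' → ℂ) × ((Fin s' → (Fin N → ℂ)) × W))),
      Φ = fun q => (TT (B q.1), q.2) := ⟨_, rfl⟩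
  have hUsub : U ⊆ K := by rw [hU]; exact fun x hx => hx.1
  have hΦL : LipschitzOnWith (max c 1) Φ S := by
    refine LipschitzOnWith.of_dist_le_mul fun p hp q hq => ?_
    rw [hΦ, Prod.dist_eq]
    rw [hS] at hp hq
    have h1 : dist (TT (B p.1)) (TT (B q.1)) ≤ c * dist p.1 q.1 :=
      hc.dist_le_mul _ (hUsub hp) _ (hUsub hq)
    have h2 : dist p.1 q.1 ≤ dist p q := by rw [Prod.dist_eq]; exact le_max_left _ _
    have h3 : dist p.2 q.2 ≤ dist p q := by rw [Prod.dist_eq]; exact le_max_right _ _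
    have h4 : (c : ℝ) ≤ (max c 1 : ℝ≥0) := by exact_mod_cast le_max_left c 1
    have h5 : (1 : ℝ) ≤ (max c 1 : ℝ≥0) := by exact_mod_cast le_max_right c 1
    refine max_le ?_ ?_
    · exact h1.trans (mul_le_mul h4 h2 dist_nonneg (by positivity))
    · calc dist p.2 q.2 ≤ 1 * dist p q := by rw [one_mul]; exact h3
        _ ≤ _ := mul_le_mul_of_nonneg_right h5 dist_nonneg
  have hdim : ∀ k : Fin (s' + 1), dimH ((fun q => HH1 k F P W (Φ q)) '' S) ≤
      ((2 * (N * (s' + 1)) - 1 : ℕ) : ℝ≥0∞) := by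
    intro k
    refine (dimH_image_le_of_locally_lipschitzOn fun q hq => ?_).trans ?_
    · have hun : IsUnit (F * (Φ q).1 + P) := by
        rw [hS, hU] at hq
        rw [hΦ]
        exact hq.2
      obtain ⟨c', t, ht, hc'⟩ := (HH1_contDiff k F P W (Φ q) hun).exists_lipschitzOnWith
      have ht' : S ∩ Φ ⁻¹' t ∈ 𝓝[S] q :=
        Filter.inter_mem self_mem_nhdsWithin ((hΦL.continuousOn q hq) ht)
      refine ⟨c' * max c 1, S ∩ Φ ⁻¹' t, ht', ?_⟩
      exact hc'.comp (hΦL.mono Set.inter_subset_left) (fun p hp => hp.2)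
    · refine (dimH_mono (Set.subset_univ S)).trans ?_
      rw [Real.dimH_univ_eq_finrank]
      have hWr : finrank ℂ W + (s' + 1 + r) ≤ N := by
        have h1 := LinearMap.finrank_range_add_finrank_ker (A₀ : (Fin N → ℂ) →ₗ[ℂ] (Fin N → ℂ))
        have h2 : finrank ℂ (Fin N → ℂ) = N := by
          rw [Module.finrank_pi, Fintype.card_fin]
        rw [h2, ← hW] at h1
        have h3 := hr x₀ hx₀
        have h4 : finrank ℂ (LinearMap.range (A₀ : (Fin N → ℂ) →ₗ[ℂ] (Fin N → ℂ))) = (B x₀).rank := by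
          rw [hA₀]; rfl
        rw [h4] at h1
        omega
      have hfr : finrank ℝ ((Fin M → ℝ) × ((Fin s' → ℂ) × ((Fin s' → (Fin N → ℂ)) × W))) =
          M + (2 * s' + (s' * (2 * N) + 2 * finrank ℂ W)) := by
        rw [Module.finrank_prod, Module.finrank_prod, Module.finrank_prod, Module.finrank_pi,
          finrank_real_of_complex W, Module.finrank_pi_fintype, Module.finrank_pi_fintype]
        have h1 : finrank ℝ (Fin N → ℂ) = 2 * N := by
          rw [finrank_real_of_complex, Module.finrank_pi, Fintype.card_fin]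
        simp only [h1, Complex.finrank_real_complex, Finset.sum_const, Finset.card_univ,
          Fintype.card_fin, smul_eq_mul]
        ring
      rw [hfr]
      have : M + (2 * s' + (s' * (2 * N) + 2 * finrank ℂ W)) ≤ 2 * (N * (s' + 1)) - 1 := by
        have h1 : 2 * (N * (s' + 1)) = s' * (2 * N) + 2 * N := by ring
        rw [h1]
        omega
      exact_mod_cast this
  have hsub : bad B s' U ⊆ ⋃ k : Fin (s' + 1), (fun q => HH1 k F P W (Φ q)) '' S := by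
    rintro C ⟨x, hx, ξ, hξ, h0⟩
    obtain ⟨k, hk⟩ := Function.ne_iff.mp hξ
    have hk : ξ k ≠ 0 := hk
    obtain ⟨y, hy⟩ : ∃ y, y = (ξ k)⁻¹ • ∑ i, ξ i • C i := ⟨_, rfl⟩
    have hy0 : TT (B x) y = 0 := by rw [hy, map_smul, h0, smul_zero]
    have hun : IsUnit (F * TT (B x) + P) := by rw [hU] at hx; exact hx.2
    have hEy : (F * TT (B x) + P) y = P y := by
      show F (TT (B x) y) + P y = P y
      rw [hy0, map_zero, zero_add]
    have hyi : Ring.inverse (F * TT (B x) + P) (P y) = y := by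
      rw [← hEy]
      show (Ring.inverse (F * TT (B x) + P) * (F * TT (B x) + P)) y = y
      rw [Ring.inverse_mul_cancel _ hun]; rfl
    rw [Set.mem_iUnion]
    refine ⟨k, ⟨(x, (fun j => (ξ k)⁻¹ * ξ (k.succAbove j)), (fun j => C (k.succAbove j)),
      ⟨P y, hP y⟩), ?_, ?_⟩⟩
    · rw [hS]; exact hx
    · rw [hΦ]
      simp only [HH1]
      rw [hyi]
      have hCk : y - ∑ j, ((ξ k)⁻¹ * ξ (k.succAbove j)) • C (k.succAbove j) = C k := by
        rw [hy, Fin.sum_univ_succAbove _ k, smul_add, smul_smul, inv_mul_cancel₀ hk, one_smul,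
          Finset.smul_sum]
        simp only [smul_smul]
        abel
      rw [hCk]
      exact Fin.insertNth_self_removeNth k C
  refine (dimH_mono hsub).trans ?_
  rw [dimH_iUnion]
  exact iSup_le hdim

end

theorem g1 : S_G1 := by
  intro M N s r K B L hK hL hr hM
  rcases s with _ | s'
  · refine ⟨0, fun x _ ξ hξ => absurd (Subsingleton.elim ξ 0) hξ⟩
  rcases K.eq_empty_or_nonempty with hKe | ⟨x₁, hx₁⟩
  · refine ⟨0, fun x hx => ?_⟩
    rw [hKe] at hx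
    exact absurd hx (Set.notMem_empty x)
  have hN : 0 < N := by
    have h1 := hr x₁ hx₁
    have h2 := (B x₁).rank_le_height
    omega
  have hbad : dimH (bad B s' K) ≤ ((2 * (N * (s' + 1)) - 1 : ℕ) : ℝ≥0∞) := by
    refine hK.induction_on (p := fun U => dimH (bad B s' U) ≤ ((2 * (N * (s' + 1)) - 1 : ℕ) : ℝ≥0∞))
      ?_ ?_ ?_ ?_
    · have : bad B s' ∅ = ∅ := by
        ext C
        simp [bad]
      rw [this]
      simp
    · intro U U' hUU' h
      refine (dimH_mono ?_).trans h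
      rintro C ⟨x, hx, h⟩
      exact ⟨x, hUU' hx, h⟩
    · intro U U' h h'
      have : bad B s' (U ∪ U') ⊆ bad B s' U ∪ bad B s' U' := by
        rintro C ⟨x, hx | hx, hh⟩
        · exact Or.inl ⟨x, hx, hh⟩
        · exact Or.inr ⟨x, hx, hh⟩
      refine (dimH_mono this).trans ?_
      rw [dimH_union]
      exact max_le h h'
    · intro x hx
      obtain ⟨U, hU, h⟩ := bad_local (s' := s') r K B L hL (fun x hx => by
        have := hr x hx
        omega) hM x hx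
      exact ⟨U, hU, h⟩
  have hne : bad B s' K ≠ Set.univ := by
    intro h
    rw [h, Real.dimH_univ_eq_finrank] at hbad
    have h1 : finrank ℝ (Fin (s' + 1) → (Fin N → ℂ)) = 2 * (N * (s' + 1)) := by
      rw [finrank_real_of_complex, Module.finrank_pi_fintype]
      simp only [Module.finrank_pi, Finset.sum_const, Finset.card_univ, Fintype.card_fin, smul_eq_mul]
      ring
    rw [h1] at hbad
    have h2 : 2 * (N * (s' + 1)) ≤ 2 * (N * (s' + 1)) - 1 := by exact_mod_cast hbad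
    have h3 : 0 < N * (s' + 1) := by positivity
    omega
  obtain ⟨C, hC⟩ := (Set.ne_univ_iff_exists_notMem _).mp hne
  refine ⟨Matrix.of fun i j => C j i, fun x hx ξ hξ h0 => hC ⟨x, hx, ξ, hξ, ?_⟩⟩
  rw [TT_apply]
  have h1 : (∑ i, ξ i • C i) = (Matrix.of fun i j => C j i) *ᵥ ξ := by
    funext a
    rw [Finset.sum_apply, Matrix.mulVec, dotProduct]
    refine Finset.sum_congr rfl fun i _ => ?_
    rw [Pi.smul_apply, smul_eq_mul, Matrix.of_apply, mul_comm]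
  rw [h1]
  exact h0

end Run7.h305.CX
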