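import Pool.Agent.Run7.h745.Iface

/-!
# Piece G2: cutting down a Lipschitz family of positive matrices
-/

set_option autoImplicit false
set_option linter.unusedSectionVars false

noncomputable section

namespace Run7.h305.CX

open Filter Topology Matrix Run7.h745
open scoped ComplexOrder

section
variable {N : ℕ}

open Classical in
/-- functional calculus for Hermitian matrices -/
def fH (H : Matrix (Fin N) (Fin N) ℂ) (g : ℝ → ℝ) : Matrix (Fin N) (Fin N) ℂ :=
  if h : H.IsHermitian then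
    (h.eigenvectorUnitary : Matrix (Fin N) (Fin N) ℂ) *
      diagonal (fun i => ((g (h.eigenvalues i) : ℝ) : ℂ)) *
      ((h.eigenvectorUnitary : Matrix (Fin N) (Fin N) ℂ))ᴴ
  else 0

variable {H : Matrix (Fin N) (Fin N) ℂ}

lemma fH_eq (h : H.IsHermitian) (g : ℝ → ℝ) : fH H g =
    (h.eigenvectorUnitary : Matrix (Fin N) (Fin N) ℂ) *
      diagonal (fun i => ((g (h.eigenvalues i) : ℝ) : ℂ)) *
      ((h.eigenvectorUnitary : Matrix (Fin N) (Fin N) ℂ))ᴴ := by
  rw [fH, dif_pos h]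

lemma hUU (h : H.IsHermitian) : ((h.eigenvectorUnitary : Matrix (Fin N) (Fin N) ℂ))ᴴ *
    (h.eigenvectorUnitary : Matrix (Fin N) (Fin N) ℂ) = 1 :=
  Unitary.coe_star_mul_self h.eigenvectorUnitary

lemma hUU' (h : H.IsHermitian) : (h.eigenvectorUnitary : Matrix (Fin N) (Fin N) ℂ) *
    ((h.eigenvectorUnitary : Matrix (Fin N) (Fin N) ℂ))ᴴ = 1 :=
  Unitary.coe_mul_star_self h.eigenvectorUnitary

lemma fH_id (h : H.IsHermitian) : fH H (fun t => t) = H := by
  rw [fH_eq h]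
  exact h.spectral_theorem.symm

lemma fH_const (h : H.IsHermitian) (c : ℝ) : fH H (fun _ => c) = (c : ℂ) • 1 := by
  rw [fH_eq h]
  have : (diagonal fun _ : Fin N => (c : ℂ)) = (c : ℂ) • (1 : Matrix (Fin N) (Fin N) ℂ) := by
    rw [← Matrix.diagonal_one, ← Matrix.diagonal_smul]
    congr 1
    funext i
    simp
  rw [this, Matrix.mul_smul, Matrix.mul_one, Matrix.smul_mul, hUU' h]

lemma fH_mul (h : H.IsHermitian) (g g' : ℝ → ℝ) : fH H g * fH H g' = fH H (fun t => g t * g' t) := by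
  rw [fH_eq h, fH_eq h, fH_eq h]
  set U := (h.eigenvectorUnitary : Matrix (Fin N) (Fin N) ℂ) with hU
  calc U * diagonal (fun i => ((g (h.eigenvalues i) : ℝ) : ℂ)) * Uᴴ *
      (U * diagonal (fun i => ((g' (h.eigenvalues i) : ℝ) : ℂ)) * Uᴴ)
      = U * (diagonal (fun i => ((g (h.eigenvalues i) : ℝ) : ℂ)) * ((Uᴴ * U) *
      (diagonal (fun i => ((g' (h.eigenvalues i) : ℝ) : ℂ))))) * Uᴴ := by
        simp only [Matrix.mul_assoc]
    _ = _ := by
      rw [hUU h, Matrix.one_mul, diagonal_mul_diagonal]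
      congr 3
      funext i
      push_cast
      ring

lemma fH_sub (h : H.IsHermitian) (g g' : ℝ → ℝ) : fH H g - fH H g' = fH H (fun t => g t - g' t) := by
  rw [fH_eq h, fH_eq h, fH_eq h, ← Matrix.sub_mul, ← Matrix.mul_sub, diagonal_sub]
  congr 3
  funext i
  push_cast
  ring

lemma fH_smul (h : H.IsHermitian) (c : ℝ) (g : ℝ → ℝ) :
    (c : ℂ) • fH H g = fH H (fun t => c * g t) := by
  rw [fH_eq h, fH_eq h, ← Matrix.smul_mul, ← Matrix.mul_smul, ← diagonal_smul]
  congr 3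
  funext i
  simp

lemma fH_herm (H : Matrix (Fin N) (Fin N) ℂ) (g : ℝ → ℝ) : (fH H g).IsHermitian := by
  by_cases h : H.IsHermitian
  · rw [fH_eq h]
    unfold Matrix.IsHermitian
    rw [conjTranspose_mul, conjTranspose_mul, conjTranspose_conjTranspose, diagonal_conjTranspose,
      Matrix.mul_assoc]
    congr 3
    funext i
    simp
  · rw [fH, dif_neg h]
    exact Matrix.isHermitian_zero

lemma fH_pos (h : H.IsHermitian) (g : ℝ → ℝ) (hg : ∀ i, 0 ≤ g (h.eigenvalues i)) :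
    (fH H g).PosSemidef := by
  rw [fH_eq h]
  refine Matrix.PosSemidef.mul_mul_conjTranspose_same ?_ _
  refine Matrix.PosSemidef.diagonal ?_
  intro i
  show (0 : ℂ) ≤ ((g (h.eigenvalues i) : ℝ) : ℂ)
  exact_mod_cast hg i

lemma fH_rank (h : H.IsHermitian) (g : ℝ → ℝ) :
    (fH H g).rank = Fintype.card {i // g (h.eigenvalues i) ≠ 0} := by
  rw [fH_eq h]
  have hu1 : IsUnit ((h.eigenvectorUnitary : Matrix (Fin N) (Fin N) ℂ)).det := by
    rw [← Matrix.isUnit_iff_isUnit_det]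
    exact ⟨⟨_, _, hUU' h, hUU h⟩, rfl⟩
  have hu2 : IsUnit (((h.eigenvectorUnitary : Matrix (Fin N) (Fin N) ℂ))ᴴ).det := by
    rw [← Matrix.isUnit_iff_isUnit_det]
    exact ⟨⟨_, _, hUU h, hUU' h⟩, rfl⟩
  rw [Matrix.rank_mul_eq_left_of_isUnit_det _ _ hu2, Matrix.rank_mul_eq_right_of_isUnit_det _ _ hu1,
    Matrix.rank_diagonal]
  refine Fintype.card_congr (Equiv.subtypeEquivRight fun i => ?_)
  simp

lemma fH_trace (h : H.IsHermitian) : H.trace = ∑ i, (h.eigenvalues i : ℂ) := by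
  exact h.trace_eq_sum_eigenvalues

/-- Hilbert-Schmidt norm squared -/
def hs (M : Matrix (Fin N) (Fin N) ℂ) : ℝ := ∑ i, ∑ j, ‖M i j‖ ^ 2

lemma hs_eq (M : Matrix (Fin N) (Fin N) ℂ) : hs M = (Mᴴ * M).trace.re := by
  unfold hs
  rw [Matrix.trace, Finset.sum_comm]
  simp only [diag_apply, Matrix.mul_apply, conjTranspose_apply]
  rw [Complex.re_sum]
  refine Finset.sum_congr rfl fun i _ => ?_
  rw [Complex.re_sum]
  refine Finset.sum_congr rfl fun j _ => ?_
  have : star (M j i) * M j i = ((‖M j i‖ ^ 2 : ℝ) : ℂ) := by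
    rw [← Complex.normSq_eq_norm_sq, Complex.normSq_eq_conj_mul_self]; rfl
  rw [this, Complex.ofReal_re]

lemma trace_mul_nonneg {P Q : Matrix (Fin N) (Fin N) ℂ} (hP : P.PosSemidef) (hQ : Q.PosSemidef) :
    0 ≤ (P * Q).trace.re := by
  obtain ⟨X, rfl⟩ : ∃ X : Matrix (Fin N) (Fin N) ℂ, P = Xᴴ * X := by
    have h := fH_mul hP.1 (fun t => Real.sqrt t) (fun t => Real.sqrt t)
    refine ⟨fH P (fun t => Real.sqrt t), ?_⟩
    rw [(fH_herm P _).eq, h, fH_eq hP.1]
    conv_lhs => rw [← fH_id hP.1, fH_eq hP.1]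
    congr 3
    funext i
    rw [Real.mul_self_sqrt (hP.eigenvalues_nonneg i)]
  rw [Matrix.mul_assoc, Matrix.trace_mul_comm]
  have h1 := (hQ.mul_mul_conjTranspose_same X).trace_nonneg
  have h2 := (Complex.le_def.mp h1).1
  simpa using h2

lemma hs_le {P M Q K : Matrix (Fin N) (Fin N) ℂ} (hP : P.PosSemidef) (hM : M.PosSemidef)
    (hQ : Q.PosSemidef) (hK : K.PosSemidef) (hPM : P * M = 0) (hQK : Q * K = 0) :
    hs (P - Q) ≤ hs ((P - M) - (Q - K)) := by
  have e1 : hs ((P - M) - (Q - K)) = hs (P - Q) + hs (M - K) + 2 * (P * K).trace.re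
      + 2 * (Q * M).trace.re := by
    rw [hs_eq, hs_eq, hs_eq]
    have hMP : M * P = 0 := by
      have := congrArg conjTranspose hPM
      rwa [conjTranspose_mul, hP.1.eq, hM.1.eq, conjTranspose_zero] at this
    have hKQ : K * Q = 0 := by
      have := congrArg conjTranspose hQK
      rwa [conjTranspose_mul, hQ.1.eq, hK.1.eq, conjTranspose_zero] at this
    have e2 : ((P - M) - (Q - K))ᴴ * ((P - M) - (Q - K)) = (P - Q)ᴴ * (P - Q) + (M - K)ᴴ * (M - K)
        + (P * K + K * P) + (Q * M + M * Q) := by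
      simp only [conjTranspose_sub, hP.1.eq, hM.1.eq, hQ.1.eq, hK.1.eq]
      have : (P - M - (Q - K)) * (P - M - (Q - K)) - ((P - Q) * (P - Q) + (M - K) * (M - K)
        + (P * K + K * P) + (Q * M + M * Q)) = - (P * M) - M * P - Q * K - K * Q := by
        noncomm_ring
      rw [hPM, hMP, hQK, hKQ] at this
      have h0 : (- (0 : Matrix (Fin N) (Fin N) ℂ) - 0 - 0 - 0) = 0 := by simp
      rw [h0] at this
      exact sub_eq_zero.mp this
    rw [e2]
    simp only [Matrix.trace_add, Complex.add_re]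
    rw [Matrix.trace_mul_comm K P, Matrix.trace_mul_comm M Q]
    ring
  have h3 : 0 ≤ hs (M - K) := Finset.sum_nonneg fun i _ => Finset.sum_nonneg fun j _ => by positivity
  have h4 := trace_mul_nonneg hP hK
  have h5 := trace_mul_nonneg hQ hM
  rw [e1]; linarith

/-- the positive part of `H - 2θ` -/
def pp (θ : ℝ) (H : Matrix (Fin N) (Fin N) ℂ) : Matrix (Fin N) (Fin N) ℂ :=
  fH H (fun t => max (t - 2 * θ) 0)

lemma pp_hs (θ : ℝ) {A B : Matrix (Fin N) (Fin N) ℂ} (hA : A.IsHermitian) (hB : B.IsHermitian) :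
    hs (pp θ A - pp θ B) ≤ hs (A - B) := by
  have key : ∀ {H : Matrix (Fin N) (Fin N) ℂ} (h : H.IsHermitian),
      pp θ H - fH H (fun t => max (2 * θ - t) 0) = H - ((2 * θ : ℝ) : ℂ) • 1 := by
    intro H h
    rw [pp, fH_sub h, ← fH_const h (2 * θ)]
    conv_rhs => rw [← fH_id h]
    rw [fH_id h, ← fH_id h]
    rw [fH_id h]
    conv_rhs => lhs; rw [← fH_id h]
    rw [fH_sub h]
    congr 1
    funext t
    rcases le_total t (2 * θ) with h1 | h1
    · rw [max_eq_right (by linarith), max_eq_left (by linarith)]; ring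
    · rw [max_eq_left (by linarith), max_eq_right (by linarith)]; ring
  have key2 : ∀ {H : Matrix (Fin N) (Fin N) ℂ} (h : H.IsHermitian),
      pp θ H * fH H (fun t => max (2 * θ - t) 0) = 0 := by
    intro H h
    rw [pp, fH_mul h]
    have : (fun t : ℝ => max (t - 2 * θ) 0 * max (2 * θ - t) 0) = fun _ => 0 := by
      funext t
      rcases le_total t (2 * θ) with h1 | h1
      · rw [max_eq_right (by linarith : t - 2 * θ ≤ 0)]; ring
      · rw [max_eq_right (by linarith : 2 * θ - t ≤ 0)]; ring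
    rw [this, fH_const h]; simp
  have h1 := hs_le (P := pp θ A) (M := fH A (fun t => max (2 * θ - t) 0)) (Q := pp θ B)
    (K := fH B (fun t => max (2 * θ - t) 0))
    (fH_pos hA _ fun i => le_max_right _ _) (fH_pos hA _ fun i => le_max_right _ _)
    (fH_pos hB _ fun i => le_max_right _ _) (fH_pos hB _ fun i => le_max_right _ _)
    (key2 hA) (key2 hB)
  rw [key hA, key hB, sub_sub_sub_cancel_right] at h1
  exact h1

lemma entry_le_hs (M : Matrix (Fin N) (Fin N) ℂ) (i j : Fin N) : ‖M i j‖ ^ 2 ≤ hs M := by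
  unfold hs
  refine le_trans ?_ (Finset.single_le_sum (f := fun i => ∑ j, ‖M i j‖ ^ 2)
    (fun i _ => Finset.sum_nonneg fun j _ => by positivity) (Finset.mem_univ i))
  exact Finset.single_le_sum (f := fun j => ‖M i j‖ ^ 2) (fun j _ => by positivity)
    (Finset.mem_univ j)

lemma hs_le_entry (M : Matrix (Fin N) (Fin N) ℂ) (D : ℝ) (h : ∀ i j, ‖M i j‖ ≤ D) :
    hs M ≤ (N * D) ^ 2 := by
  unfold hs
  calc ∑ i, ∑ j, ‖M i j‖ ^ 2 ≤ ∑ _i : Fin N, ∑ _j : Fin N, D ^ 2 := by
        refine Finset.sum_le_sum fun i _ => Finset.sum_le_sum fun j _ => ?_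
        exact pow_le_pow_left₀ (norm_nonneg _) (h i j) 2
    _ = _ := by
      simp only [Finset.sum_const, Finset.card_univ, Fintype.card_fin, nsmul_eq_mul]
      ring

lemma pp_lip (θ : ℝ) {A B : Matrix (Fin N) (Fin N) ℂ} (hA : A.IsHermitian) (hB : B.IsHermitian)
    (D : ℝ) (h : ∀ i j, ‖A i j - B i j‖ ≤ D) (i j : Fin N) :
    ‖pp θ A i j - pp θ B i j‖ ≤ N * D := by
  have hD : 0 ≤ D := (norm_nonneg _).trans (h i j)
  have h1 := entry_le_hs (pp θ A - pp θ B) i j
  have h2 := (h1.trans (pp_hs θ hA hB)).trans (hs_le_entry (A - B) D h)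
  exact abs_le_of_sq_le_sq' h2 (by positivity) |>.2

lemma pp_cont (θ : ℝ) :
    ContinuousOn (pp θ : Matrix (Fin N) (Fin N) ℂ → Matrix (Fin N) (Fin N) ℂ)
      {H | H.IsHermitian} := by
  intro A hA
  refine tendsto_pi_nhds.mpr fun i => tendsto_pi_nhds.mpr fun j => ?_
  rw [Metric.tendsto_nhds]
  intro ε hε
  have h1 : ∀ᶠ B : Matrix (Fin N) (Fin N) ℂ in 𝓝[{H | H.IsHermitian}] A,
      ∀ i j, ‖B i j - A i j‖ < ε / (N + 1) := by
    rw [eventually_all]; intro i
    rw [eventually_all]; intro j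
    have hc : Continuous fun B : Matrix (Fin N) (Fin N) ℂ => ‖B i j - A i j‖ := by fun_prop
    have := (hc.tendsto A).mono_left (nhdsWithin_le_nhds (s := {H | H.IsHermitian}))
    simp only [sub_self, norm_zero] at this
    exact this.eventually (gt_mem_nhds (by positivity))
  filter_upwards [h1, self_mem_nhdsWithin] with B hB hBH
  rw [dist_eq_norm]
  refine (pp_lip θ hBH hA (ε / (N + 1)) (fun i j => (hB i j).le) i j).trans_lt ?_
  rw [mul_div_assoc', div_lt_iff₀ (by positivity)]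
  nlinarith

lemma pp_rank (θ : ℝ) (hθ : 0 < θ) {H : Matrix (Fin N) (Fin N) ℂ} (s r : ℕ)
    (h0 : H.PosSemidef) (h1 : (((1 + θ : ℝ) : ℂ) • (1 : Matrix (Fin N) (Fin N) ℂ) - H).PosSemidef)
    (h2 : (1 + θ) * (s + r) + 2 * θ * N ≤ H.trace.re) : s + r ≤ (pp θ H).rank := by
  classical
  have hH := h0.1
  have hle : ∀ i, hH.eigenvalues i ≤ 1 + θ := by
    intro i
    set U := (hH.eigenvectorUnitary : Matrix (Fin N) (Fin N) ℂ) with hU
    have e1 : ((1 + θ : ℝ) : ℂ) • (1 : Matrix (Fin N) (Fin N) ℂ) - H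
        = fH H (fun t => (1 + θ) - t) := by
      conv_lhs => rhs; rw [← fH_id hH]
      rw [← fH_const hH, fH_sub hH]
    rw [e1] at h1
    have h3 := h1.conjTranspose_mul_mul_same U
    have h4 : Uᴴ * fH H (fun t => (1 + θ) - t) * U
        = diagonal (fun i => (((1 + θ) - hH.eigenvalues i : ℝ) : ℂ)) := by
      rw [fH_eq hH]
      calc _ = (Uᴴ * U) * (diagonal (fun i => (((1 + θ) - hH.eigenvalues i : ℝ) : ℂ))) *
            (Uᴴ * U) := by simp only [Matrix.mul_assoc, hU]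
        _ = _ := by rw [hUU hH, Matrix.one_mul, Matrix.mul_one]
    rw [h4] at h3
    have h5 := h3.diag_nonneg (i := i)
    rw [diagonal_apply_eq] at h5
    have h6 : (0 : ℝ) ≤ (1 + θ) - hH.eigenvalues i := by exact_mod_cast h5
    linarith
  rw [pp, fH_rank hH]
  have hcard : Fintype.card {i // max (hH.eigenvalues i - 2 * θ) 0 ≠ 0}
      = (Finset.univ.filter fun i => 2 * θ < hH.eigenvalues i).card := by
    rw [Fintype.card_subtype]
    congr 1
    ext i
    simp only [Finset.mem_filter, Finset.mem_univ, true_and]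
    constructor
    · intro h
      by_contra h'
      exact h (max_eq_right (by linarith))
    · intro h
      rw [max_eq_left (by linarith)]
      exact ne_of_gt (by linarith)
  rw [hcard]
  have htr : H.trace.re = ∑ i, hH.eigenvalues i := by
    rw [fH_trace hH, Complex.re_sum]
    simp
  rw [htr] at h2
  have h3 : ∑ i, hH.eigenvalues i ≤ (Finset.univ.filter fun i => 2 * θ < hH.eigenvalues i).card
      * (1 + θ) + N * (2 * θ) := by
    calc ∑ i, hH.eigenvalues i ≤ ∑ i, ((if 2 * θ < hH.eigenvalues i then (1 + θ) else 0) + 2 * θ) := by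
          refine Finset.sum_le_sum fun i _ => ?_
          split_ifs with h
          · have := hle i; linarith
          · linarith
      _ = _ := by
        rw [Finset.sum_add_distrib, ← Finset.sum_filter, Finset.sum_const, Finset.sum_const,
          Finset.card_univ, Fintype.card_fin, nsmul_eq_mul, nsmul_eq_mul]
  have h4 : (1 + θ) * ((s + r : ℕ) : ℝ) ≤ (1 + θ) *
      ((Finset.univ.filter fun i => 2 * θ < hH.eigenvalues i).card : ℝ) := by
    push_cast
    linarith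
  have h5 := le_of_mul_le_mul_left h4 (by linarith)
  exact_mod_cast h5

end

lemma star_dot {n : ℕ} (y : Fin n → ℂ) : star y ⬝ᵥ y = ((∑ i, ‖y i‖ ^ 2 : ℝ) : ℂ) := by
  rw [dotProduct, Complex.ofReal_sum]
  refine Finset.sum_congr rfl fun i _ => ?_
  rw [← Complex.normSq_eq_norm_sq, Complex.normSq_eq_conj_mul_self]; rfl

/-- G2 -/
theorem g2 : S_G1 → S_G2 := by
  intro hG1 M N s r θ K C L hθ hK hLip hC htr hM
  have hLip' : ∀ x ∈ K, ∀ y ∈ K, ∀ i j, ‖pp θ (C x) i j - pp θ (C y) i j‖ ≤ (N * L) * ‖x - y‖ := by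
    intro x hx y hy i j
    have := pp_lip θ (hC x hx).1.1 (hC y hy).1.1 (L * ‖x - y‖) (hLip x hx y hy) i j
    rwa [← mul_assoc] at this
  obtain ⟨V, hV⟩ := hG1 M N s r K (fun x => pp θ (C x)) (N * L) hK hLip'
    (fun x hx => pp_rank θ hθ s r (hC x hx).1 (hC x hx).2 (htr x hx)) hM
  have hcontB : ∀ i j, ContinuousOn (fun x => pp θ (C x) i j) K := by
    intro i j x hx
    rw [ContinuousWithinAt, tendsto_iff_norm_sub_tendsto_zero]
    have h1 : Tendsto (fun y => (N * L) * ‖y - x‖) (𝓝[K] x) (𝓝 0) := by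
      have hc : Continuous fun y : Fin M → ℝ => (N * L) * ‖y - x‖ := by fun_prop
      have := (hc.tendsto x).mono_left (nhdsWithin_le_nhds (s := K))
      simpa using this
    refine squeeze_zero' (Eventually.of_forall fun y => norm_nonneg _) ?_ h1
    filter_upwards [self_mem_nhdsWithin] with y hy
    exact hLip' y hy x hx i j
  -- the quadratic form
  obtain ⟨q, hq⟩ : ∃ q : (Fin M → ℝ) × (Fin s → ℂ) → ℝ,
      q = fun p => ∑ i, ‖(pp θ (C p.1) *ᵥ (V *ᵥ p.2)) i‖ ^ 2 := ⟨_, rfl⟩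
  have hqc : ContinuousOn q (K ×ˢ Set.univ) := by
    rw [hq]
    refine continuousOn_finsetSum _ fun i _ => ?_
    refine ContinuousOn.pow (ContinuousOn.norm ?_) 2
    show ContinuousOn (fun p : (Fin M → ℝ) × (Fin s → ℂ) =>
      ∑ j, pp θ (C p.1) i j * (V *ᵥ p.2) j) (K ×ˢ Set.univ)
    refine continuousOn_finsetSum _ fun j _ => ?_
    refine ContinuousOn.mul ?_ ?_
    · exact (hcontB i j).comp continuousOn_fst fun p hp => hp.1
    · have h3 : Continuous fun p : (Fin M → ℝ) × (Fin s → ℂ) => (V *ᵥ p.2) j := by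
        show Continuous fun p : (Fin M → ℝ) × (Fin s → ℂ) => ∑ l, V j l * p.2 l
        fun_prop
      exact h3.continuousOn
  have hSph : IsCompact {ξ : Fin s → ℂ | ∑ i, ‖ξ i‖ ^ 2 = 1} := by
    refine Metric.isCompact_of_isClosed_isBounded ?_ ?_
    · have hc : Continuous fun ξ : Fin s → ℂ => ∑ i, ‖ξ i‖ ^ 2 := by fun_prop
      exact isClosed_singleton.preimage hc
    · refine (Metric.isBounded_closedBall (x := (0 : Fin s → ℂ)) (r := 1)).subset ?_
      intro ξ hξ
      rw [mem_closedBall_zero_iff, pi_norm_le_iff_of_nonneg zero_le_one]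
      intro i
      have h1 : ‖ξ i‖ ^ 2 ≤ 1 := by
        rw [← (hξ : ∑ i, ‖ξ i‖ ^ 2 = 1)]
        exact Finset.single_le_sum (f := fun i => ‖ξ i‖ ^ 2) (fun j _ => by positivity)
          (Finset.mem_univ i)
      nlinarith [norm_nonneg (ξ i)]
  have hlow : ∃ c : ℝ, 0 < c ∧ ∀ x ∈ K, ∀ ξ : Fin s → ℂ, c * ∑ i, ‖ξ i‖ ^ 2 ≤ q (x, ξ) := by
    have hq0 : ∀ x, ∀ ξ, 0 ≤ q (x, ξ) := fun x ξ => by
      rw [hq]; exact Finset.sum_nonneg fun i _ => by positivity
    have hc1 : ∃ c : ℝ, 0 < c ∧ ∀ x ∈ K, ∀ ξ : Fin s → ℂ, ∑ i, ‖ξ i‖ ^ 2 = 1 → c ≤ q (x, ξ) := by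
      by_cases hne : (K ×ˢ {ξ : Fin s → ℂ | ∑ i, ‖ξ i‖ ^ 2 = 1}).Nonempty
      · obtain ⟨p, hp, hmin⟩ := (hK.prod hSph).exists_isMinOn hne
          (hqc.mono (Set.prod_mono le_rfl (Set.subset_univ _)))
        refine ⟨q p, ?_, fun x hx ξ hξ => hmin (Set.mk_mem_prod hx hξ)⟩
        have hξ : p.2 ≠ 0 := by
          intro h0
          have h1 : ∑ i, ‖p.2 i‖ ^ 2 = 1 := hp.2
          rw [h0] at h1
          simp at h1
        have h2 := hV p.1 hp.1 p.2 hξ
        have h3 : ∃ i, (pp θ (C p.1) *ᵥ (V *ᵥ p.2)) i ≠ 0 := by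
          by_contra h4
          push Not at h4
          exact h2 (funext h4)
        obtain ⟨i, hi⟩ := h3
        rw [hq]
        refine Finset.sum_pos' (fun i _ => by positivity) ⟨i, Finset.mem_univ _, ?_⟩
        positivity
      · refine ⟨1, one_pos, fun x hx ξ hξ => ?_⟩
        exact absurd ⟨(x, ξ), Set.mk_mem_prod hx hξ⟩ hne
    obtain ⟨c, hc, h⟩ := hc1
    refine ⟨c, hc, fun x hx ξ => ?_⟩
    by_cases hξ : ∑ i, ‖ξ i‖ ^ 2 = 0
    · rw [hξ, mul_zero]; exact hq0 x ξ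
    · have hpos : 0 < ∑ i, ‖ξ i‖ ^ 2 :=
        lt_of_le_of_ne (Finset.sum_nonneg fun i _ => by positivity) (Ne.symm hξ)
      obtain ⟨t, ht⟩ : ∃ t : ℝ, t = Real.sqrt (∑ i, ‖ξ i‖ ^ 2) := ⟨_, rfl⟩
      have ht0 : 0 < t := by rw [ht]; exact Real.sqrt_pos.mpr hpos
      have ht2 : t ^ 2 = ∑ i, ‖ξ i‖ ^ 2 := by rw [ht]; exact Real.sq_sqrt hpos.le
      have h1 := h x hx ((((t⁻¹ : ℝ) : ℂ)) • ξ) (by
        simp only [Pi.smul_apply, smul_eq_mul, norm_mul, mul_pow, Complex.norm_real,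
          Real.norm_eq_abs, sq_abs]
        rw [← Finset.mul_sum, ← ht2, inv_pow, inv_mul_cancel₀ (by positivity)])
      have h2 : q (x, (((t⁻¹ : ℝ) : ℂ)) • ξ) = (t⁻¹) ^ 2 * q (x, ξ) := by
        rw [hq]
        simp only [Matrix.mulVec_smul, Pi.smul_apply, smul_eq_mul, norm_mul, mul_pow,
          Complex.norm_real, Real.norm_eq_abs, sq_abs]
        rw [← Finset.mul_sum]
      rw [h2] at h1
      rw [← ht2]
      have h3 : t ^ 2 * c ≤ t ^ 2 * ((t⁻¹) ^ 2 * q (x, ξ)) :=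
        mul_le_mul_of_nonneg_left h1 (by positivity)
      have h4 : t ^ 2 * ((t⁻¹) ^ 2 * q (x, ξ)) = q (x, ξ) := by
        field_simp
      linarith
  obtain ⟨c, hc, hlow⟩ := hlow
  refine ⟨fun H => pp θ H * V, θ * c, by positivity, ?_, ?_⟩
  · have hcm : Continuous fun Z : Matrix (Fin N) (Fin N) ℂ => Z * V := by fun_prop
    exact hcm.comp_continuousOn (pp_cont θ)
  · intro x hx
    have hH := (hC x hx).1.1
    have e1 : (pp θ (C x) * V)ᴴ * (C x - (θ : ℂ) • (1 : Matrix (Fin N) (Fin N) ℂ)) *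
        (pp θ (C x) * V) - ((θ * c : ℝ) : ℂ) • (1 : Matrix (Fin s) (Fin s) ℂ)
        = Vᴴ * (pp θ (C x) * (C x - (θ : ℂ) • 1) * pp θ (C x) - (θ : ℂ) • (pp θ (C x) * pp θ (C x)))
            * V + (θ : ℂ) • ((pp θ (C x) * V)ᴴ * (pp θ (C x) * V) - (c : ℂ) • 1) := by
      have hpe : (pp θ (C x))ᴴ = pp θ (C x) := fH_herm (C x) _
      rw [conjTranspose_mul, hpe]
      simp only [Matrix.mul_sub, Matrix.sub_mul, smul_sub, Matrix.mul_smul, Matrix.smul_mul,
        Matrix.mul_assoc, Matrix.mul_one, Matrix.one_mul, smul_smul, Complex.ofReal_mul]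
      abel
    rw [e1]
    refine Matrix.PosSemidef.add ?_ ?_
    · refine Matrix.PosSemidef.conjTranspose_mul_mul_same ?_ V
      have e2 : pp θ (C x) * (C x - (θ : ℂ) • 1) * pp θ (C x) - (θ : ℂ) • (pp θ (C x) * pp θ (C x))
          = fH (C x) (fun t => max (t - 2 * θ) 0 * (t - θ) * max (t - 2 * θ) 0
            - θ * (max (t - 2 * θ) 0 * max (t - 2 * θ) 0)) := by
        have e3 : C x - (θ : ℂ) • (1 : Matrix (Fin N) (Fin N) ℂ) = fH (C x) (fun t => t - θ) := by
          conv_lhs => lhs; rw [← fH_id hH]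
          rw [← fH_const hH, fH_sub hH]
        rw [e3, pp, fH_mul hH, fH_mul hH, fH_mul hH, fH_smul hH, fH_sub hH]
      rw [e2]
      refine fH_pos hH _ fun i => ?_
      rcases le_total (hH.eigenvalues i) (2 * θ) with h1 | h1
      · rw [max_eq_right (by linarith)]; simp
      · rw [max_eq_left (by linarith)]
        have h2 : 0 ≤ hH.eigenvalues i - 2 * θ := by linarith
        have : (hH.eigenvalues i - 2 * θ) * (hH.eigenvalues i - θ) * (hH.eigenvalues i - 2 * θ)
          - θ * ((hH.eigenvalues i - 2 * θ) * (hH.eigenvalues i - 2 * θ))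
          = (hH.eigenvalues i - 2 * θ) ^ 3 := by ring
        rw [this]; positivity
    · have hps : ((pp θ (C x) * V)ᴴ * (pp θ (C x) * V) - (c : ℂ) • (1 : Matrix (Fin s) (Fin s) ℂ)).PosSemidef := by
        refine Matrix.PosSemidef.of_dotProduct_mulVec_nonneg ?_ fun ξ => ?_
        · refine Matrix.IsHermitian.sub (Matrix.isHermitian_conjTranspose_mul_self _) ?_
          unfold Matrix.IsHermitian
          rw [conjTranspose_smul, conjTranspose_one]
          simp
        · have h1 := hlow x hx ξ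
          have e4 : star ξ ⬝ᵥ (((pp θ (C x) * V)ᴴ * (pp θ (C x) * V) -
              (c : ℂ) • (1 : Matrix (Fin s) (Fin s) ℂ)) *ᵥ ξ)
              = ((q (x, ξ) - c * ∑ i, ‖ξ i‖ ^ 2 : ℝ) : ℂ) := by
            rw [Matrix.sub_mulVec, dotProduct_sub, Matrix.smul_mulVec, Matrix.one_mulVec,
              dotProduct_smul, ← Matrix.mulVec_mulVec, Matrix.dotProduct_mulVec,
              ← Matrix.star_mulVec, star_dot, star_dot, ← Matrix.mulVec_mulVec, hq]
            push_cast
            rw [smul_eq_mul]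
          rw [e4]
          exact_mod_cast sub_nonneg.mpr h1
      have h2 : (0 : ℂ) ≤ (θ : ℂ) := by exact_mod_cast hθ.le
      exact hps.smul h2

end Run7.h305.CX
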