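import Pool.Agent.Run7.h745.Basic3

/-!
# Piece QTR, part 2: the square root of `bF`
-/

set_option autoImplicit false
set_option linter.unusedSectionVars false

noncomputable section

namespace Run7.h305.CX

open Filter Topology Matrix Run7.h745
open scoped ENNReal NNReal ComplexOrder

section
variable {X : Type} [TopologicalSpace X] {T : X ≃ₜ X} (D : TowerData X T) (m n₀ : ℕ)

/-- the trace of the letter -/
def trz (x : X) : ℝ := ∑ a, (D.z x m).1 a a

lemma trz_cont : Continuous (trz D m) := by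
  have h1 : Continuous fun x => (D.z x m).1 :=
    continuous_subtype_val.comp ((continuous_apply m).comp D.continuous_z)
  refine continuous_finsetSum _ fun a _ => ?_
  exact (continuous_apply a).comp ((continuous_apply a).comp h1)

lemma exists_zeta (x : X) : ∃ ζ : Fin (2 * (m + 1) + 1) → ℝ, ∑ i, ζ i ^ 2 ≤ 1 ∧
    ∀ i j, (D.z x m).1 i j = ζ i * ζ j := (D.z x m).2

lemma trz_mem (x : X) : 0 ≤ trz D m x ∧ trz D m x ≤ 1 := by
  obtain ⟨ζ, h1, h2⟩ := exists_zeta D m x
  have h3 : trz D m x = ∑ i, ζ i ^ 2 := by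
    unfold trz
    exact Finset.sum_congr rfl fun i _ => by rw [h2]; ring
  rw [h3]
  exact ⟨Finset.sum_nonneg fun i _ => by positivity, h1⟩

/-- `√(1 - (tr z)²)` -/
def sq : C(X, ℂ) := ⟨fun x => ((Real.sqrt (1 - trz D m x ^ 2) : ℝ) : ℂ),
  Complex.continuous_ofReal.comp ((continuous_const.sub ((trz_cont D m).pow 2)).sqrt)⟩

lemma zM_trace (x : X) : (D.zM m).trace x = ((trz D m x : ℝ) : ℂ) := by
  rw [Matrix.trace, ContinuousMap.sum_apply]
  simp only [diag_apply]
  unfold trz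
  push_cast
  rfl

lemma sq_mul : sq D m * sq D m = 1 - (D.zM m).trace ^ 2 := by
  ext x
  have h := trz_mem D m x
  have h1 : ((1 - (D.zM m).trace ^ 2 : C(X, ℂ))) x = 1 - ((trz D m x : ℝ) : ℂ) ^ 2 := by
    show 1 - ((D.zM m).trace x) ^ 2 = _
    rw [zM_trace]
  rw [h1]
  show ((Real.sqrt (1 - trz D m x ^ 2) : ℝ) : ℂ) * ((Real.sqrt (1 - trz D m x ^ 2) : ℝ) : ℂ) = _
  rw [← Complex.ofReal_mul, Real.mul_self_sqrt (by nlinarith)]
  push_cast
  ring

lemma star_sq : star (sq D m) = sq D m := by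
  ext x
  show (starRingEnd ℂ) ((Real.sqrt (1 - trz D m x ^ 2) : ℝ) : ℂ) = _
  rw [Complex.conj_ofReal]; rfl

lemma zM_herm : (D.zM m)ᴴ = D.zM m := by
  ext a b x
  rw [conjTranspose_apply]
  obtain ⟨ζ, h1, h2⟩ := exists_zeta D m x
  show (starRingEnd ℂ) (((D.z x m).1 b a : ℝ) : ℂ) = (((D.z x m).1 a b : ℝ) : ℂ)
  rw [Complex.conj_ofReal, h2, h2, mul_comm]

/-- the square root of `bF` without the indicator function -/
def sF0 : Matrix (Nb m) (Nb m) C(X, ℂ) :=
  Matrix.fromBlocks (Matrix.blockDiagonal fun _ => D.zM m) 0 0 (Matrix.diagonal fun _ => sq D m)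

/-- the square root of `bF` -/
def sF : Matrix (Nb m) (Nb m) C(X, ℂ) := Matrix.of fun a b => ind (D.FS n₀) * sF0 D m a b

lemma sF_herm : (sF D m n₀)ᴴ = sF D m n₀ := by
  have h : (sF0 D m)ᴴ = sF0 D m := by
    unfold sF0
    rw [fromBlocks_conjTranspose, blockDiagonal_conjTranspose,
      diagonal_conjTranspose, conjTranspose_zero, conjTranspose_zero]
    simp only [zM_herm]
    congr 2
    funext i
    rw [Pi.star_apply, star_sq]
  ext a b : 1
  have h' := congrFun (congrFun h a) b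
  rw [conjTranspose_apply] at h'
  rw [conjTranspose_apply, sF, Matrix.of_apply, Matrix.of_apply, star_mul', star_ind, h']

lemma sF_mul : sF D m n₀ * sF D m n₀ = D.bF n₀ m := by
  have h : sF0 D m * sF0 D m = Matrix.fromBlocks (Matrix.blockDiagonal fun _ => D.zM m * D.zM m)
      0 0 (Matrix.diagonal fun _ => 1 - (D.zM m).trace ^ 2) := by
    unfold sF0
    rw [fromBlocks_multiply, diagonal_mul_diagonal, ← blockDiagonal_mul]
    simp only [sq_mul, Matrix.zero_mul, Matrix.mul_zero, add_zero, zero_add]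
  have h1 : ∀ a b, (D.bF n₀ m) a b = ind (D.FS n₀) * (sF0 D m * sF0 D m) a b := by
    intro a b
    rw [h]; rfl
  ext a b : 1
  rw [h1, Matrix.mul_apply, Matrix.mul_apply, Finset.mul_sum]
  refine Finset.sum_congr rfl fun r _ => ?_
  rw [show sF D m n₀ a r * sF D m n₀ r b
    = ind (D.FS n₀) * sF0 D m a r * (ind (D.FS n₀) * sF0 D m r b) from rfl]
  rw [mul_mul_mul_comm, ind_mul_self (D.isClopen_FS n₀)]

/-- the block of an index -/
def blk : Nb m → Fin (m + 1) ⊕ Fin (m + 1)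
  | Sum.inl p => Sum.inl p.2
  | Sum.inr q => Sum.inr q

lemma sF_entry (x : X) : ∃ (η : Nb m → ℂ) (c : Fin (m + 1) ⊕ Fin (m + 1) → ℂ), ∀ a p,
    (sF D m n₀ a p) x = if blk m a = blk m p then c (blk m p) * η a * η p else 0 := by
  obtain ⟨ζ, h1, h2⟩ := exists_zeta D m x
  refine ⟨Sum.elim (fun p => ((ζ p.1 : ℝ) : ℂ)) (fun _ => 1),
    Sum.elim (fun _ => ind (D.FS n₀) x) (fun _ => ind (D.FS n₀) x * sq D m x), ?_⟩
  rintro (⟨a, q⟩ | q) (⟨b, q'⟩ | q')
  · have : (sF D m n₀ (Sum.inl (a, q)) (Sum.inl (b, q'))) x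
      = ind (D.FS n₀) x * (blockDiagonal (fun _ : Fin (m + 1) => D.zM m) (a, q) (b, q')) x := rfl
    rw [this, blockDiagonal_apply]
    by_cases h : q = q'
    · subst h
      simp only [blk, if_true, Sum.elim_inl]
      rw [show (D.zM m a b) x = (((D.z x m).1 a b : ℝ) : ℂ) from rfl, h2]
      push_cast
      ring
    · rw [if_neg h, if_neg (by simpa [blk] using h)]
      simp
  · have : (sF D m n₀ (Sum.inl (a, q)) (Sum.inr q')) x = ind (D.FS n₀) x * 0 := rfl
    rw [this, if_neg (by simp [blk]), mul_zero]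
  · have : (sF D m n₀ (Sum.inr q) (Sum.inl (b, q'))) x = ind (D.FS n₀) x * 0 := rfl
    rw [this, if_neg (by simp [blk]), mul_zero]
  · have : (sF D m n₀ (Sum.inr q) (Sum.inr q')) x
      = ind (D.FS n₀) x * (diagonal (fun _ : Fin (m + 1) => sq D m) q q') x := rfl
    rw [this]
    by_cases h : q = q'
    · subst h
      rw [diagonal_apply_eq]
      simp [blk]
    · rw [diagonal_apply_ne _ h, if_neg (by simpa [blk] using h)]
      simp

lemma key_comm (p p' a b : Nb m) :
    sF D m n₀ a p * (D.bF n₀ m p p') * sF D m n₀ p' b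
      = sF D m n₀ a p' * (D.bF n₀ m p' p) * sF D m n₀ p b := by
  rw [← sF_mul]
  ext x
  obtain ⟨η, c, h⟩ := sF_entry D m n₀ x
  have hb : ∀ p p', ((sF D m n₀ * sF D m n₀) p p') x
      = ∑ r, (sF D m n₀ p r) x * (sF D m n₀ r p') x := by
    intro p p'
    rw [Matrix.mul_apply, ContinuousMap.sum_apply]; rfl
  show (sF D m n₀ a p) x * ((sF D m n₀ * sF D m n₀) p p') x * (sF D m n₀ p' b) x
    = (sF D m n₀ a p') x * ((sF D m n₀ * sF D m n₀) p' p) x * (sF D m n₀ p b) x
  rw [hb, hb]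
  by_cases hp : blk m p = blk m p'
  · have h1 : ∑ r, (sF D m n₀ p r) x * (sF D m n₀ r p') x
        = ∑ r, (sF D m n₀ p' r) x * (sF D m n₀ r p) x := by
      refine Finset.sum_congr rfl fun r _ => ?_
      rw [h, h, h, h, hp]
      by_cases hr : blk m r = blk m p'
      · rw [hr]; simp only [if_true]; ring
      · rw [if_neg (fun h => hr h.symm), if_neg hr, if_neg hr, if_neg (fun h => hr h.symm)]
    rw [h1, h, h, h, h, hp]
    by_cases ha : blk m a = blk m p'
    · rw [if_pos ha, if_pos ha]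
      by_cases hb' : blk m p' = blk m b
      · rw [if_pos hb', if_pos hb']; ring
      · rw [if_neg hb', if_neg hb']; ring
    · rw [if_neg ha, if_neg ha]; ring
  · have h1 : ∀ p p', blk m p ≠ blk m p' → ∑ r, (sF D m n₀ p r) x * (sF D m n₀ r p') x = 0 := by
      intro p p' hp
      refine Finset.sum_eq_zero fun r _ => ?_
      rw [h, h]
      by_cases hr : blk m p = blk m r
      · rw [if_neg (fun h => hp (hr.trans h)), mul_zero]
      · rw [if_neg hr, zero_mul]
    rw [h1 p p' hp, h1 p' p (fun h => hp h.symm)]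
    ring

/-- the commuting parts of `bF` -/
def yF (p : Nb m) : Matrix (Nb m) (Nb m) C(X, ℂ) :=
  sF D m n₀ * Matrix.single p p 1 * sF D m n₀

lemma yF_sum : ∑ p, yF D m n₀ p = D.bF n₀ m := by
  unfold yF
  have : ∑ p : Nb m, Matrix.single p p (1 : C(X, ℂ)) = (1 : Matrix (Nb m) (Nb m) C(X, ℂ)) := by
    ext a b : 1
    rw [Matrix.sum_apply, Matrix.one_apply]
    by_cases h : a = b
    · subst h
      rw [if_pos rfl, Finset.sum_eq_single a]
      · rw [Matrix.single_apply_same]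
      · intro c _ hc
        rw [Matrix.single_apply_of_ne]
        tauto
      · simp
    · rw [if_neg h]
      refine Finset.sum_eq_zero fun c _ => ?_
      rw [Matrix.single_apply_of_ne]
      rintro ⟨h1, h2⟩
      exact h (h1.symm.trans h2)
  rw [← Matrix.sum_mul, ← Matrix.mul_sum, this, Matrix.mul_one, sF_mul]

lemma yF_herm (p : Nb m) : (yF D m n₀ p)ᴴ = yF D m n₀ p := by
  unfold yF
  rw [conjTranspose_mul, conjTranspose_mul, sF_herm, conjTranspose_single, star_one,
    Matrix.mul_assoc]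

lemma yF_comm (p p' : Nb m) : Commute (yF D m n₀ p) (yF D m n₀ p') := by
  have h : ∀ p p' : Nb m, ∀ a b, (yF D m n₀ p * yF D m n₀ p') a b
      = sF D m n₀ a p * (D.bF n₀ m p p') * sF D m n₀ p' b := by
    intro p p' a b
    have e1 : yF D m n₀ p * yF D m n₀ p' = sF D m n₀ * (Matrix.single p p 1 *
        (D.bF n₀ m) * Matrix.single p' p' 1) * sF D m n₀ := by
      unfold yF
      rw [← sF_mul]
      simp only [Matrix.mul_assoc]
    rw [e1]
    have e2 : Matrix.single p p (1 : C(X, ℂ)) * (D.bF n₀ m) * Matrix.single p' p' 1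
        = Matrix.single p p' (D.bF n₀ m p p') := by
      rw [Matrix.single_mul_mul_single]; simp
    rw [e2, Matrix.mul_apply, Finset.sum_eq_single p']
    · rw [Matrix.mul_single_apply_same]
    · intro c _ hc
      rw [Matrix.mul_single_apply_of_ne _ _ _ _ _ hc, zero_mul]
    · simp
  show yF D m n₀ p * yF D m n₀ p' = yF D m n₀ p' * yF D m n₀ p
  ext a b : 1
  rw [h, h, key_comm]

lemma bF_trace : (D.bF n₀ m).trace = ((m + 1 : ℕ) : ℂ) • ind (D.FS n₀) := by
  have h0 : (D.bF n₀ m).trace = ind (D.FS n₀) * (Matrix.fromBlocks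
      (Matrix.blockDiagonal fun _ : Fin (m + 1) => D.zM m * D.zM m)
      0 0 (Matrix.diagonal fun _ : Fin (m + 1) => 1 - (D.zM m).trace ^ 2)).trace := by
    rw [Matrix.trace, Matrix.trace, Finset.mul_sum]
    rfl
  have h00 : (Matrix.fromBlocks
      (Matrix.blockDiagonal fun _ : Fin (m + 1) => D.zM m * D.zM m)
      0 0 (Matrix.diagonal fun _ : Fin (m + 1) => 1 - (D.zM m).trace ^ 2)).trace
      = (Matrix.blockDiagonal fun _ : Fin (m + 1) => D.zM m * D.zM m).trace
        + (Matrix.diagonal fun _ : Fin (m + 1) => 1 - (D.zM m).trace ^ 2).trace := by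
    rw [Matrix.trace, Fintype.sum_sum_type]; rfl
  rw [h0, h00, Matrix.trace_blockDiagonal]
  have h3 : (D.zM m * D.zM m).trace = (D.zM m).trace ^ 2 := by
    ext x
    obtain ⟨ζ, h1, h2⟩ := exists_zeta D m x
    have h4 : ((D.zM m).trace ^ 2) x = (trz D m x : ℂ) ^ 2 := by
      show ((D.zM m).trace x) ^ 2 = _
      rw [zM_trace]
    rw [h4, Matrix.trace, ContinuousMap.sum_apply]
    simp only [diag_apply, Matrix.mul_apply]
    have h5 : ∀ a, (∑ j, D.zM m a j * D.zM m j a) x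
        = ((∑ j, (ζ a * ζ j) * (ζ j * ζ a) : ℝ) : ℂ) := by
      intro a
      rw [ContinuousMap.sum_apply]
      push_cast
      refine Finset.sum_congr rfl fun j _ => ?_
      show (((D.z x m).1 a j : ℝ) : ℂ) * (((D.z x m).1 j a : ℝ) : ℂ) = _
      rw [h2, h2]; push_cast; ring
    simp only [h5]
    rw [← Complex.ofReal_sum, ← Complex.ofReal_pow]
    congr 1
    have h6 : trz D m x = ∑ i, ζ i * ζ i := by
      unfold trz
      exact Finset.sum_congr rfl fun i _ => by rw [h2]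
    rw [h6, pow_two, Finset.sum_mul_sum]
    refine Finset.sum_congr rfl fun i _ => Finset.sum_congr rfl fun j _ => by ring
  rw [h3]
  simp only [Matrix.trace_diagonal, Finset.sum_const, Finset.card_univ, Fintype.card_fin]
  rw [← nsmul_add]
  have : (D.zM m).trace ^ 2 + (1 - (D.zM m).trace ^ 2) = 1 := by ring
  rw [this]
  ext x
  show (ind (D.FS n₀)) x * ((m + 1) • (1 : C(X, ℂ))) x = ((m + 1 : ℕ) : ℂ) * (ind (D.FS n₀)) x
  rw [mul_comm]
  congr 1
  simp

/-- `tr z / (1 + √(1 - (tr z)²))` -/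
def g0 : C(X, ℂ) := ⟨fun x => ((trz D m x / (1 + Real.sqrt (1 - trz D m x ^ 2)) : ℝ) : ℂ),
  Complex.continuous_ofReal.comp ((trz_cont D m).div
    (continuous_const.add ((continuous_const.sub ((trz_cont D m).pow 2)).sqrt))
    (fun x => by positivity))⟩

lemma g0_eq : 2 * g0 D m - g0 D m * g0 D m * (D.zM m).trace = (D.zM m).trace := by
  ext x
  show 2 * ((trz D m x / (1 + Real.sqrt (1 - trz D m x ^ 2)) : ℝ) : ℂ) -
    ((trz D m x / (1 + Real.sqrt (1 - trz D m x ^ 2)) : ℝ) : ℂ) *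
    ((trz D m x / (1 + Real.sqrt (1 - trz D m x ^ 2)) : ℝ) : ℂ) * (D.zM m).trace x
    = (D.zM m).trace x
  rw [zM_trace]
  have h := trz_mem D m x
  have h1 : Real.sqrt (1 - trz D m x ^ 2) * Real.sqrt (1 - trz D m x ^ 2) = 1 - trz D m x ^ 2 :=
    Real.mul_self_sqrt (by nlinarith)
  have h2 : 0 ≤ Real.sqrt (1 - trz D m x ^ 2) := Real.sqrt_nonneg _
  set s := Real.sqrt (1 - trz D m x ^ 2) with hs
  have h3 : 2 * (trz D m x / (1 + s)) - (trz D m x / (1 + s)) * (trz D m x / (1 + s)) * trz D m x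
      = trz D m x := by
    have h4 : (1 + s) ≠ 0 := by positivity
    field_simp
    have h5 : trz D m x ^ 2 = 1 - s * s := by linarith
    have : 2 * (1 + s) - trz D m x ^ 2 = (1 + s) ^ 2 := by rw [h5]; ring
    linear_combination (trz D m x) * this
  exact_mod_cast h3

lemma star_g0 : star (g0 D m) = g0 D m := by
  ext x
  show (starRingEnd ℂ) ((trz D m x / (1 + Real.sqrt (1 - trz D m x ^ 2)) : ℝ) : ℂ) = _
  rw [Complex.conj_ofReal]; rfl

lemma star_tr : star (D.zM m).trace = (D.zM m).trace := by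
  rw [← Matrix.trace_conjTranspose, zM_herm]

lemma zM_sq (a b : Fin (2 * (m + 1) + 1)) :
    (D.zM m * D.zM m) a b = (D.zM m).trace * D.zM m a b := by
  ext x
  obtain ⟨ζ, h1, h2⟩ := exists_zeta D m x
  have e1 : ((D.zM m).trace * D.zM m a b) x = (trz D m x : ℂ) * (((D.z x m).1 a b : ℝ) : ℂ) := by
    show (D.zM m).trace x * _ = _
    rw [zM_trace]; rfl
  rw [e1, Matrix.mul_apply, ContinuousMap.sum_apply]
  have h6 : trz D m x = ∑ i, ζ i * ζ i := by
    unfold trz
    exact Finset.sum_congr rfl fun i _ => by rw [h2]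
  rw [h6, h2, Complex.ofReal_sum, Finset.sum_mul]
  refine Finset.sum_congr rfl fun j _ => ?_
  show (((D.z x m).1 a j : ℝ) : ℂ) * (((D.z x m).1 j b : ℝ) : ℂ) = _
  rw [h2, h2]; push_cast; ring

lemma one_sub_bF : ∃ Z : Matrix (Nb m) (Nb m) C(X, ℂ), 1 - D.bF n₀ m = Zᴴ * Z := by
  obtain ⟨Y, hY⟩ : ∃ Y : Matrix (Fin (2 * (m + 1) + 1)) (Fin (2 * (m + 1) + 1)) C(X, ℂ),
    ∀ a b, Y a b = ind (D.FS n₀) * g0 D m * D.zM m a b :=
    ⟨Matrix.of fun a b => ind (D.FS n₀) * g0 D m * D.zM m a b, fun a b => rfl⟩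
  have hYs : Yᴴ = Y := by
    ext a b : 1
    have h := congrFun (congrFun (zM_herm D m) a) b
    rw [conjTranspose_apply] at h
    rw [conjTranspose_apply, hY, hY, star_mul', star_mul', star_ind, star_g0, h]
  have hχ := ind_mul_self (D.isClopen_FS n₀)
  have hYY : ∀ a b, ((1 - Y) * (1 - Y)) a b = (1 : Matrix _ _ C(X, ℂ)) a b -
      ind (D.FS n₀) * (D.zM m * D.zM m) a b := by
    intro a b
    have e1 : (1 - Y) * (1 - Y) = 1 - Y - Y + Y * Y := by
      rw [Matrix.sub_mul, Matrix.mul_sub, Matrix.mul_sub, Matrix.one_mul, Matrix.mul_one,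
        Matrix.one_mul]
      abel
    have e2 : (Y * Y) a b = ind (D.FS n₀) * (g0 D m * g0 D m) * (D.zM m * D.zM m) a b := by
      rw [Matrix.mul_apply, Matrix.mul_apply, Finset.mul_sum]
      refine Finset.sum_congr rfl fun r _ => ?_
      rw [hY, hY]
      calc _ = (ind (D.FS n₀) * ind (D.FS n₀)) * (g0 D m * g0 D m) *
            (D.zM m a r * D.zM m r b) := by ring
        _ = _ := by rw [hχ]
    rw [e1]
    show (1 : Matrix _ _ C(X, ℂ)) a b - Y a b - Y a b + (Y * Y) a b = _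
    rw [e2, hY, zM_sq]
    linear_combination (-(ind (D.FS n₀)) * (D.zM m a b)) * (g0_eq D m)
  obtain ⟨r, hr⟩ : ∃ r : C(X, ℂ), r = 1 - ind (D.FS n₀) + ind (D.FS n₀) * (D.zM m).trace :=
    ⟨_, rfl⟩
  have hrs : star r = r := by
    rw [hr, star_add, star_sub, star_one, star_ind, star_mul', star_ind, star_tr]
  have hrr : r * r = 1 - ind (D.FS n₀) * (1 - (D.zM m).trace ^ 2) := by
    rw [hr]
    linear_combination (1 - 2 * (D.zM m).trace + (D.zM m).trace ^ 2) * hχ
  refine ⟨Matrix.fromBlocks (Matrix.blockDiagonal fun _ => 1 - Y) 0 0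
    (Matrix.diagonal fun _ => r), ?_⟩
  rw [fromBlocks_conjTranspose, blockDiagonal_conjTranspose, diagonal_conjTranspose,
    conjTranspose_zero, conjTranspose_zero, fromBlocks_multiply]
  simp only [conjTranspose_sub, conjTranspose_one, hYs]
  have hd : (star fun _ : Fin (m + 1) => r) = fun _ => r := by
    funext i
    rw [Pi.star_apply, hrs]
  rw [hd, diagonal_mul_diagonal, ← blockDiagonal_mul, hrr]
  simp only [Matrix.zero_mul, Matrix.mul_zero, add_zero, zero_add]
  ext a b : 1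
  rcases a with ⟨a, q⟩ | q <;> rcases b with ⟨b, q'⟩ | q'
  · have e1 : (1 - D.bF n₀ m) (Sum.inl (a, q)) (Sum.inl (b, q'))
        = (1 : Matrix (Nb m) (Nb m) C(X, ℂ)) (Sum.inl (a, q)) (Sum.inl (b, q')) -
          ind (D.FS n₀) * (blockDiagonal fun _ => D.zM m * D.zM m) (a, q) (b, q') := rfl
    rw [e1, fromBlocks_apply₁₁, blockDiagonal_apply, blockDiagonal_apply]
    by_cases h : q = q'
    · subst h
      rw [if_pos rfl, if_pos rfl, hYY]
      congr 1
      rw [Matrix.one_apply, Matrix.one_apply]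
      simp
    · rw [if_neg h, if_neg h, Matrix.one_apply_ne (by simp [h])]
      simp
  · have e1 : (1 - D.bF n₀ m) (Sum.inl (a, q)) (Sum.inr q')
        = (1 : Matrix (Nb m) (Nb m) C(X, ℂ)) (Sum.inl (a, q)) (Sum.inr q') -
          ind (D.FS n₀) * 0 := rfl
    rw [e1, fromBlocks_apply₁₂, Matrix.one_apply_ne (by simp)]
    simp
  · have e1 : (1 - D.bF n₀ m) (Sum.inr q) (Sum.inl (b, q'))
        = (1 : Matrix (Nb m) (Nb m) C(X, ℂ)) (Sum.inr q) (Sum.inl (b, q')) -
          ind (D.FS n₀) * 0 := rfl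
    rw [e1, fromBlocks_apply₂₁, Matrix.one_apply_ne (by simp)]
    simp
  · have e1 : (1 - D.bF n₀ m) (Sum.inr q) (Sum.inr q')
        = (1 : Matrix (Nb m) (Nb m) C(X, ℂ)) (Sum.inr q) (Sum.inr q') -
          ind (D.FS n₀) * (diagonal fun _ => 1 - (D.zM m).trace ^ 2) q q' := rfl
    rw [e1, fromBlocks_apply₂₂]
    by_cases h : q = q'
    · subst h
      rw [diagonal_apply_eq, diagonal_apply_eq, Matrix.one_apply_eq]
    · rw [diagonal_apply_ne _ h, diagonal_apply_ne _ h, Matrix.one_apply_ne (by simp [h])]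
      simp

end

end Run7.h305.CX
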