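import Pool.Agent.Run7.h305.CX.Qa
import Pool.Agent.Run7.h305.CX.Qb

/-!
# Piece QTR: the value of quasitraces on `bF`
-/

set_option autoImplicit false
set_option linter.unusedSectionVars false

noncomputable section

namespace Run7.h305.CX

open Filter Topology Matrix Run7.h745
open scoped ENNReal NNReal ComplexOrder

section
variable {X : Type} [TopologicalSpace X] {A : Type} [CStarAlgebra A] (ι : C(X, ℂ) →⋆ₐ[ℂ] A)

/-- from matrices over `C(X)` to matrices over `A` -/
def PP {I : Type} [Fintype I] [DecidableEq I] {N : ℕ} (e : Fin N ≃ I) :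
    Matrix I I C(X, ℂ) →⋆ₐ[ℂ] Matrix (Fin N) (Fin N) A where
  toFun M := (M.map ι).submatrix e e
  map_one' := by
    rw [Matrix.map_one _ (map_zero ι) (map_one ι), Matrix.submatrix_one_equiv]
  map_mul' M M' := by
    rw [Matrix.map_mul, Matrix.submatrix_mul_equiv]
  map_zero' := by
    rw [Matrix.map_zero _ (map_zero ι)]; rfl
  map_add' M M' := by
    rw [Matrix.map_add _ (map_add ι)]; rfl
  commutes' c := by
    ext i j
    rw [submatrix_apply, map_apply, Matrix.algebraMap_matrix_apply, Matrix.algebraMap_matrix_apply]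
    by_cases h : i = j
    · subst h
      rw [if_pos rfl, if_pos rfl]
      exact ι.commutes' c
    · rw [if_neg h, if_neg (fun h' => h (e.injective h')), map_zero]
  map_star' M := by
    ext i j
    show ι (star (M (e j) (e i))) = star (ι (M (e j) (e i)))
    rw [map_star]

lemma PP_single {I : Type} [Fintype I] [DecidableEq I] {N : ℕ} (e : Fin N ≃ I) (p q : I)
    (f : C(X, ℂ)) : PP ι e (Matrix.single p q f) = Matrix.single (e.symm p) (e.symm q) (ι f) := by
  ext i j
  show ι (Matrix.single p q f (e i) (e j)) = _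
  rw [Matrix.single_apply, Matrix.single_apply]
  by_cases h : p = e i ∧ q = e j
  · rw [if_pos h, if_pos]
    exact ⟨by rw [h.1, e.symm_apply_apply], by rw [h.2, e.symm_apply_apply]⟩
  · rw [if_neg h, if_neg, map_zero]
    rintro ⟨h1, h2⟩
    exact h ⟨by rw [← h1, e.apply_symm_apply], by rw [← h2, e.apply_symm_apply]⟩

variable {N : ℕ} {τ : Matrix (Fin N) (Fin N) A → ℂ}

/-- the linear functional of a corner -/
def mu (τ : Matrix (Fin N) (Fin N) A → ℂ) (p : Fin N) (f : C(X, ℂ)) : ℂ :=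
  τ (Matrix.single p p (ι f))

lemma mu_lin (h : IsQuasitrace τ) (p : Fin N) (c : ℂ) (f g : C(X, ℂ)) :
    mu ι τ p (c • f + g) = c * mu ι τ p f + mu ι τ p g := by
  have hst : ∀ f : C(X, ℂ), star (Matrix.single p p (ι f)) = Matrix.single p p (ι (star f)) := by
    intro f
    rw [Matrix.star_eq_conjTranspose, Matrix.conjTranspose_single, map_star]
  have hm : ∀ f g : C(X, ℂ), Matrix.single p p (ι f) * Matrix.single p p (ι g)
      = Matrix.single p p (ι (f * g)) := by
    intro f g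
    rw [Matrix.single_mul_single_same, map_mul]
  have hc : ∀ f g : C(X, ℂ), Commute (Matrix.single p p (ι f)) (Matrix.single p p (ι g)) := by
    intro f g
    show _ * _ = _ * _
    rw [hm, hm, mul_comm]
  have h1 := h.linear c (Matrix.single p p (ι f)) (Matrix.single p p (ι g))
    ⟨by rw [hst]; exact hc _ _⟩ ⟨by rw [hst]; exact hc _ _⟩ (hc f g) (by rw [hst]; exact hc _ _)
  unfold mu
  rw [← h1, map_add, map_smul, Matrix.single_add, Matrix.smul_single]

lemma mu_add (h : IsQuasitrace τ) (p : Fin N) (f g : C(X, ℂ)) :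
    mu ι τ p (f + g) = mu ι τ p f + mu ι τ p g := by
  have := mu_lin ι h p 1 f g
  rwa [one_smul, one_mul] at this

lemma mu_zero (h : IsQuasitrace τ) (p : Fin N) : mu ι τ p (0 : C(X, ℂ)) = 0 := by
  unfold mu
  rw [map_zero, Matrix.single_zero, qt_zero h]

lemma mu_smul (h : IsQuasitrace τ) (p : Fin N) (c : ℂ) (f : C(X, ℂ)) :
    mu ι τ p (c • f) = c * mu ι τ p f := by
  have := mu_lin ι h p c f 0
  rwa [add_zero, mu_zero ι h, add_zero] at this

lemma mu_sum (h : IsQuasitrace τ) (p : Fin N) {J : Type} (s : Finset J) (f : J → C(X, ℂ)) :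
    mu ι τ p (∑ i ∈ s, f i) = ∑ i ∈ s, mu ι τ p (f i) := by
  classical
  induction s using Finset.induction_on with
  | empty => rw [Finset.sum_empty, Finset.sum_empty, mu_zero ι h]
  | insert i s hi ih => rw [Finset.sum_insert hi, Finset.sum_insert hi, mu_add ι h, ih]

lemma mu_move (h : IsQuasitrace τ) (p p' : Fin N) (g : C(X, ℂ)) :
    mu ι τ p (star g * g) = mu ι τ p' (star g * g) := by
  unfold mu
  have h1 := h.comm (Matrix.single p' p (ι g))
  rw [Matrix.star_eq_conjTranspose, Matrix.conjTranspose_single, Matrix.single_mul_single_same,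
    Matrix.single_mul_single_same, ← map_star, ← map_mul, ← map_mul] at h1
  rw [h1, mul_comm]

lemma mu_pull [CompactSpace X] {T : X ≃ₜ X} {u : unitary A} (hc : Covariant T ι u)
    (h : IsQuasitrace τ) (p : Fin N) (g : C(X, ℂ)) :
    mu ι τ p (pull T (star g * g)) = mu ι τ p (star g * g) := by
  unfold mu
  have h1 := h.comm (Matrix.single p p ((u : A) * ι g))
  rw [Matrix.star_eq_conjTranspose, Matrix.conjTranspose_single, Matrix.single_mul_single_same,
    Matrix.single_mul_single_same] at h1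
  have h2 : star ((u : A) * ι g) * ((u : A) * ι g) = ι (star g * g) := by
    rw [star_mul, map_mul, map_star, mul_assoc, ← mul_assoc (star (u : A)),
      Unitary.coe_star_mul_self, one_mul]
  have h3 : ((u : A) * ι g) * star ((u : A) * ι g) = ι (pull T (star g * g)) := by
    rw [← hc, star_mul, map_mul, map_star]
    have hcg : star (ι g) * ι g = ι g * star (ι g) := by
      rw [← map_star, ← map_mul, ← map_mul, mul_comm]
    rw [hcg]
    noncomm_ring
  rw [h2, h3] at h1
  exact h1.symm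

/-- nonnegative functions are squares -/
lemma exists_sq (f : C(X, ℂ)) (hf : ∀ x, ∃ r : ℝ, 0 ≤ r ∧ f x = r) :
    ∃ g : C(X, ℂ), f = star g * g := by
  refine ⟨⟨fun x => ((Real.sqrt (f x).re : ℝ) : ℂ),
    Complex.continuous_ofReal.comp (Complex.continuous_re.comp f.continuous).sqrt⟩, ?_⟩
  ext x
  obtain ⟨r, hr, hx⟩ := hf x
  show f x = (starRingEnd ℂ) ((Real.sqrt (f x).re : ℝ) : ℂ) * ((Real.sqrt (f x).re : ℝ) : ℂ)
  rw [Complex.conj_ofReal, ← Complex.ofReal_mul, hx, Complex.ofReal_re, Real.mul_self_sqrt hr]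

end

section
variable {X : Type} [TopologicalSpace X] [CompactSpace X] {T : X ≃ₜ X} (D : TowerData X T)
  {A : Type} [CStarAlgebra A] {ι : C(X, ℂ) →⋆ₐ[ℂ] A} {u : unitary A} {N : ℕ}
  {τ : Matrix (Fin N) (Fin N) A → ℂ}

/-- the level `T^i V_n` -/
def lev (n : ℕ) (i : ℕ) : Set X := (T ^ (-(i : ℤ)) : X ≃ₜ X) ⁻¹' D.V n

lemma lev_clopen (n i : ℕ) : IsClopen (lev D n i) := isClopen_pre T _ (D.isClopen_V n)

lemma ind_sq (S : Set X) (hS : IsClopen S) : ind S = star (ind S) * ind S := by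
  rw [star_ind, ind_mul_self hS]

lemma pull_lev (n i : ℕ) : pull T (ind (lev D n i)) = ind (lev D n (i + 1)) := by
  rw [pull_eq]
  ext x
  rw [cT_apply, ind_apply (lev_clopen D n i), ind_apply (lev_clopen D n (i + 1))]
  have : (T ^ (-1 : ℤ) : X ≃ₜ X) x ∈ lev D n i ↔ x ∈ lev D n (i + 1) := by
    show (T ^ (-(i : ℤ)) : X ≃ₜ X) ((T ^ (-1 : ℤ) : X ≃ₜ X) x) ∈ D.V n ↔
      (T ^ (-((i + 1 : ℕ) : ℤ)) : X ≃ₜ X) x ∈ D.V n
    rw [← zp_add]
    have e : -(i : ℤ) + -1 = -((i + 1 : ℕ) : ℤ) := by push_cast; ring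
    rw [e]
  by_cases hx : x ∈ lev D n (i + 1)
  · rw [if_pos (this.mpr hx), if_pos hx]
  · rw [if_neg (fun h => hx (this.mp h)), if_neg hx]

lemma mu_lev (hc : Covariant T ι u) (h : IsQuasitrace τ) (p : Fin N) (n i : ℕ) :
    mu ι τ p (ind (lev D n i)) = mu ι τ p (ind (lev D n 0)) := by
  induction i with
  | zero => rfl
  | succ i ih =>
    rw [← pull_lev, ← ih, ind_sq _ (lev_clopen D n i)]
    exact mu_pull ι hc h p _

open Classical in
lemma sum_lev (n : ℕ) (s : Finset ℕ) (hs : ∀ i ∈ s, i < D.h n) (x : X) :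
    (∑ i ∈ s, ind (lev D n i)) x = if ∃ i ∈ s, x ∈ lev D n i then 1 else 0 := by
  rw [ContinuousMap.sum_apply]
  simp only [ind_apply (lev_clopen D n _)]
  obtain ⟨j, ⟨hj1, hj2⟩, hj3⟩ := D.part n x
  have h1 : ∀ i ∈ s, x ∈ lev D n i ↔ i = j := by
    intro i hi
    constructor
    · intro h; exact hj3 i ⟨hs i hi, h⟩
    · rintro rfl; exact hj2
  by_cases hjs : j ∈ s
  · rw [if_pos ⟨j, hjs, hj2⟩, Finset.sum_eq_single j]
    · exact if_pos hj2
    · intro i hi hij
      rw [if_neg (fun h => hij ((h1 i hi).mp h))]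
    · intro h; exact absurd hjs h
  · rw [if_neg]
    · refine Finset.sum_eq_zero fun i hi => ?_
      rw [if_neg]
      intro h
      rw [(h1 i hi).mp h] at hi
      exact hjs hi
    · rintro ⟨i, hi, h⟩
      rw [(h1 i hi).mp h] at hi
      exact hjs hi

lemma mu_FS (hc : Covariant T ι u) (h : IsQuasitrace τ) (p : Fin N)
    (h1 : mu ι τ p (1 : C(X, ℂ)) = 1) (n : ℕ) :
    mu ι τ p (ind (D.FS n)) = ((D.free n).card : ℂ) / D.h n := by
  classical
  have e1 : ∑ i ∈ Finset.range (D.h n), ind (lev D n i) = 1 := by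
    ext x
    rw [sum_lev D n _ (fun i hi => Finset.mem_range.mp hi)]
    obtain ⟨j, ⟨hj1, hj2⟩, hj3⟩ := D.part n x
    have hex : ∃ i ∈ Finset.range (D.h n), x ∈ lev D n i := ⟨j, Finset.mem_range.mpr hj1, hj2⟩
    rw [if_pos hex]; rfl
  have e2 : ∑ i ∈ D.free n, ind (lev D n i) = ind (D.FS n) := by
    ext x
    rw [sum_lev D n _ (D.free_lt n), ind_apply (D.isClopen_FS n)]
    have hiff : (∃ i ∈ D.free n, x ∈ lev D n i) ↔ x ∈ D.FS n := Iff.rfl
    by_cases hx : x ∈ D.FS n
    · rw [if_pos hx, if_pos (hiff.mpr hx)]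
    · rw [if_neg hx, if_neg (fun h => hx (hiff.mp h))]
  have hh : (D.h n : ℂ) ≠ 0 := by exact_mod_cast (D.h_pos n).ne'
  rw [← e1, mu_sum ι h] at h1
  simp only [mu_lev D hc h] at h1
  rw [← e2, mu_sum ι h]
  simp only [mu_lev D hc h]
  rw [Finset.sum_const, nsmul_eq_mul]
  rw [Finset.sum_const, nsmul_eq_mul, Finset.card_range] at h1
  rw [eq_div_iff hh, mul_assoc, mul_comm _ (D.h n : ℂ), h1, mul_one]

lemma tau_bF (hc : Covariant T ι u) (h : IsQuasitrace τ) (p : Fin N)
    (h1 : mu ι τ p (1 : C(X, ℂ)) = 1) (n₀ m : ℕ) (e : Fin N ≃ Nb m) :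
    τ (PP ι e (D.bF n₀ m)) = (m + 1) * ((D.free n₀).card : ℂ) / D.h n₀ := by
  have e0 : PP ι e (D.bF n₀ m) = ∑ q : Nb m, PP ι e (yF D m n₀ q) := by
    rw [← yF_sum D m n₀, map_sum]
  rw [e0, qt_sum h Finset.univ (fun q => PP ι e (yF D m n₀ q)) ?_ ?_]
  · have h2 : ∀ q : Nb m, τ (PP ι e (yF D m n₀ q)) = mu ι τ p (D.bF n₀ m q q) := by
      intro q
      have e1 : yF D m n₀ q = (sF D m n₀ * Matrix.single q q 1) *
          star (sF D m n₀ * Matrix.single q q 1) := by
        rw [Matrix.star_eq_conjTranspose, conjTranspose_mul, conjTranspose_single, star_one,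
          sF_herm]
        unfold yF
        have e5 : (Matrix.single q q (1 : C(X, ℂ)) : Matrix (Nb m) (Nb m) C(X, ℂ)) *
            Matrix.single q q 1 = Matrix.single q q 1 := by
          rw [Matrix.single_mul_single_same, one_mul]
        calc sF D m n₀ * Matrix.single q q (1 : C(X, ℂ)) * sF D m n₀
            = sF D m n₀ * (Matrix.single q q (1 : C(X, ℂ)) * Matrix.single q q 1) *
              sF D m n₀ := by rw [e5]
          _ = _ := by simp only [Matrix.mul_assoc]
      have e2 : star (sF D m n₀ * Matrix.single q q 1) * (sF D m n₀ * Matrix.single q q 1)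
          = Matrix.single q q (D.bF n₀ m q q) := by
        rw [Matrix.star_eq_conjTranspose, conjTranspose_mul, conjTranspose_single, star_one,
          sF_herm]
        calc Matrix.single q q (1 : C(X, ℂ)) * sF D m n₀ * (sF D m n₀ * Matrix.single q q 1)
            = Matrix.single q q 1 * (sF D m n₀ * sF D m n₀) * Matrix.single q q 1 := by
              simp only [Matrix.mul_assoc]
          _ = _ := by rw [sF_mul, Matrix.single_mul_mul_single]; simp
      have e3 := h.comm (PP ι e (sF D m n₀ * Matrix.single q q 1))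
      rw [← map_star, ← map_mul, ← map_mul, ← e1, e2, PP_single] at e3
      rw [← e3]
      obtain ⟨g, hg⟩ := exists_sq (D.bF n₀ m q q) (by
        intro x
        rw [← sF_mul]
        refine ⟨∑ r, ‖(sF D m n₀ r q) x‖ ^ 2, Finset.sum_nonneg fun r _ => by positivity, ?_⟩
        rw [Matrix.mul_apply, ContinuousMap.sum_apply, Complex.ofReal_sum]
        refine Finset.sum_congr rfl fun r _ => ?_
        have h3 : sF D m n₀ q r = star (sF D m n₀ r q) := by
          have := congrFun (congrFun (sF_herm D m n₀) q) r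
          rw [← this, conjTranspose_apply]
        rw [h3]
        show (starRingEnd ℂ) ((sF D m n₀ r q) x) * (sF D m n₀ r q) x = _
        rw [← Complex.normSq_eq_conj_mul_self, Complex.normSq_eq_norm_sq])
      rw [hg]
      exact mu_move ι h _ p g
    simp only [h2]
    rw [← mu_sum ι h p Finset.univ (fun q => D.bF n₀ m q q)]
    have h3 : ∑ q, D.bF n₀ m q q = ((m + 1 : ℕ) : ℂ) • ind (D.FS n₀) := bF_trace D m n₀
    rw [h3, mu_smul ι h, mu_FS D hc h p h1]
    push_cast
    ring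
  · intro q
    show star _ = _
    rw [← map_star, Matrix.star_eq_conjTranspose, yF_herm]
  · intro q q'
    exact (yF_comm D m n₀ q q').map (PP ι e)

end

/-- QTR -/
theorem qtr : S_QTR := by
  intro X _ _ _ T D A _ ι u hcp n₀ m
  obtain ⟨k, hk⟩ : ∃ k, Fintype.card (Nb m) = k + 1 :=
    ⟨Fintype.card (Nb m) - 1, by
      have : 0 < Fintype.card (Nb m) := Fintype.card_pos_iff.mpr ⟨Sum.inr 0⟩
      omega⟩
  obtain ⟨e⟩ : Nonempty (Fin (k + 1) ≃ Nb m) := ⟨(Fintype.equivFinOfCardEq hk).symm⟩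
  have hb : ((D.bF n₀ m).map ι).submatrix e e = PP ι e (D.bF n₀ m) := rfl
  have hpos : PP ι e (D.bF n₀ m) = (PP ι e (sF D m n₀))ᴴ * PP ι e (sF D m n₀) := by
    rw [← Matrix.star_eq_conjTranspose, ← map_star, Matrix.star_eq_conjTranspose, sF_herm,
      ← map_mul, sF_mul]
  obtain ⟨Z, hZ⟩ := one_sub_bF D m n₀
  have hpos' : 1 - PP ι e (D.bF n₀ m) = (PP ι e Z)ᴴ * PP ι e Z := by
    rw [← Matrix.star_eq_conjTranspose, ← map_star, Matrix.star_eq_conjTranspose, ← map_mul, ← hZ,
      map_sub, map_one]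
  refine ⟨k, PP ι e (D.bF n₀ m), _, e, rfl, ⟨_, hpos⟩, rfl, ⟨_, diag_proj k⟩, fun τ =>
    ⟨qt_rank_one τ k, qt_rank_ge τ _ _ _ hpos hpos' _ ?_⟩⟩
  have h1 : mu ι (τ.val (k + 1)) 0 (1 : C(X, ℂ)) = 1 := by
    rw [← qt_corner_one τ k]
    unfold mu
    congr 1
    rw [map_one]
    ext i j
    rw [Matrix.single_apply, Matrix.diagonal_apply]
    by_cases hij : i = j
    · subst hij
      rw [if_pos rfl]
      by_cases hi : i = 0
      · subst hi; simp
      · rw [if_neg hi, if_neg (fun h => hi h.1.symm)]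
    · rw [if_neg hij, if_neg (fun h => hij (h.1.symm.trans h.2))]
  rw [tau_bF D hcp.cov (τ.isQuasitrace (k + 1)) 0 h1 n₀ m e]
  have : ((m : ℂ) + 1) * ((D.free n₀).card : ℂ) / D.h n₀
      = (((m + 1) * ((D.free n₀).card : ℝ) / D.h n₀ : ℝ) : ℂ) := by push_cast; ring
  rw [this, Complex.ofReal_re]

end Run7.h305.CX
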