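import Pool.Agent.Run7.h745.Basic3

/-!
# Piece RC: the radius of comparison is infinite
-/

set_option autoImplicit false
set_option linter.unusedSectionVars false

noncomputable section

namespace Run7.h305.CX

open Filter Topology Matrix Run7.h745
open scoped ENNReal NNReal ComplexOrder

section late
variable {X : Type} [TopologicalSpace X] {T : X ≃ₜ X} (D : TowerData X T)

/-- density of the free positions -/
def den (n : ℕ) : ℝ := ((D.free n).card : ℝ) / D.h n

lemma hR_pos (n : ℕ) : (0 : ℝ) < D.h n := by exact_mod_cast D.h_pos n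

lemma den_ge (n : ℕ) : D.δ ≤ den D n := by
  rw [den, le_div_iff₀ (hR_pos D n)]
  exact D.density n

open Classical in
/-- the late frozen positions -/
lemma late_card {n₀ n : ℕ} (hn : n₀ ≤ n) :
    (((Finset.range (D.h n)).filter fun i : ℕ =>
      i % D.h n₀ ∈ D.free n₀ ∧ i ∉ D.free n).card : ℝ) = (den D n₀ - den D n) * D.h n := by
  obtain ⟨q, hq⟩ := D.h_dvd hn
  -- positions with residue in `free n₀`
  have h1 : ((Finset.range (D.h n)).filter fun i : ℕ => i % D.h n₀ ∈ D.free n₀).card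
      = q * (D.free n₀).card := by
    rw [hq]
    have : (Finset.range (D.h n₀ * q)).filter (fun i : ℕ => i % D.h n₀ ∈ D.free n₀)
        = ((Finset.range q) ×ˢ (D.free n₀)).image (fun p : ℕ × ℕ => p.1 * D.h n₀ + p.2) := by
      ext i
      simp only [Finset.mem_filter, Finset.mem_range, Finset.mem_image, Finset.mem_product,
        Prod.exists]
      constructor
      · rintro ⟨hi, hf⟩
        refine ⟨i / D.h n₀, i % D.h n₀, ⟨Nat.div_lt_of_lt_mul hi, hf⟩, ?_⟩
        rw [mul_comm]; exact Nat.div_add_mod i (D.h n₀)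
      · rintro ⟨a, b, ⟨ha, hb⟩, rfl⟩
        have hb' := D.free_lt n₀ b hb
        constructor
        · calc a * D.h n₀ + b < a * D.h n₀ + D.h n₀ := by omega
            _ = (a + 1) * D.h n₀ := by ring
            _ ≤ q * D.h n₀ := Nat.mul_le_mul_right _ (by omega)
            _ = D.h n₀ * q := mul_comm _ _
        · rw [mul_comm, Nat.mul_add_mod, Nat.mod_eq_of_lt hb']; exact hb
    rw [this, Finset.card_image_of_injOn, Finset.card_product, Finset.card_range]
    rintro ⟨a, b⟩ hab ⟨a', b'⟩ hab' h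
    simp only [Finset.coe_product, Set.mem_prod, Finset.mem_coe] at hab hab'
    have hb := D.free_lt n₀ b hab.2
    have hb' := D.free_lt n₀ b' hab'.2
    simp only at h
    have e1 : (a * D.h n₀ + b) % D.h n₀ = (a' * D.h n₀ + b') % D.h n₀ := by rw [h]
    rw [mul_comm a, mul_comm a', Nat.mul_add_mod, Nat.mul_add_mod, Nat.mod_eq_of_lt hb,
      Nat.mod_eq_of_lt hb'] at e1
    subst e1
    have e2 : a * D.h n₀ = a' * D.h n₀ := by omega
    have e3 := Nat.eq_of_mul_eq_mul_right (D.h_pos n₀) e2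
    rw [e3]
  have h2 : ((Finset.range (D.h n)).filter fun i : ℕ => i % D.h n₀ ∈ D.free n₀).card
      = ((Finset.range (D.h n)).filter fun i : ℕ =>
      i % D.h n₀ ∈ D.free n₀ ∧ i ∉ D.free n).card + (D.free n).card := by
    rw [← Finset.card_filter_add_card_filter_not (fun i => i ∉ D.free n)
      (s := (Finset.range (D.h n)).filter fun i : ℕ => i % D.h n₀ ∈ D.free n₀),
      Finset.filter_filter]
    congr 2
    rw [Finset.filter_filter]
    ext i
    simp only [Finset.mem_filter, Finset.mem_range, not_not]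
    constructor
    · rintro ⟨_, _, h⟩; exact h
    · intro h
      exact ⟨D.free_lt n i h, D.free_mod hn i h, h⟩
  have h3 : (((Finset.range (D.h n)).filter fun i : ℕ =>
      i % D.h n₀ ∈ D.free n₀ ∧ i ∉ D.free n).card : ℝ) = q * (D.free n₀).card
        - (D.free n).card := by
    rw [eq_sub_iff_add_eq]
    exact_mod_cast (h2.symm.trans h1)
  rw [h3]
  unfold den
  have h4 : (D.h n : ℝ) = D.h n₀ * q := by exact_mod_cast hq
  have h5 := (hR_pos D n).ne'
  have h6 := (hR_pos D n₀).ne'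
  rw [sub_mul, div_mul_cancel₀ _ h5, h4]
  field_simp

lemma den_anti {n₀ n : ℕ} (hn : n₀ ≤ n) : den D n ≤ den D n₀ := by
  classical
  have h := late_card D hn
  have h1 : (0 : ℝ) ≤ (den D n₀ - den D n) * D.h n := by rw [← h]; positivity
  have h2 := nonneg_of_mul_nonneg_left h1 (hR_pos D n)
  linarith

lemma exists_late (ε : ℝ) (hε : 0 < ε) : ∃ n₀, ∀ n, n₀ ≤ n → den D n₀ - den D n < ε := by
  have hbdd : BddBelow (Set.range (den D)) := ⟨D.δ, by rintro _ ⟨n, rfl⟩; exact den_ge D n⟩
  obtain ⟨_, ⟨n₀, rfl⟩, h⟩ := exists_lt_of_csInf_lt (Set.range_nonempty (den D))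
    (lt_add_of_pos_right (sInf (Set.range (den D))) hε)
  refine ⟨n₀, fun n _ => ?_⟩
  have := csInf_le hbdd ⟨n, rfl⟩
  linarith

end late

section inv
variable {A : Type} [CStarAlgebra A]

/-- a positive element close to one can be normalised -/
lemma exists_norm (y x : A) (hy : y = star x * x) (h : ‖1 - y‖ < 1) :
    ∃ s : A, star s * y * s = 1 := by
  let _ : PartialOrder A := CStarAlgebra.spectralOrder A
  have _ : StarOrderedRing A := CStarAlgebra.spectralOrderedRing A
  have hy0 : 0 ≤ y := by rw [hy]; exact star_mul_self_nonneg x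
  have hu : IsUnit y := by
    have : y = 1 - (1 - y) := by abel
    rw [this]
    exact isUnit_one_sub_of_norm_lt_one h
  have hpos : IsStrictlyPositive y := ⟨hy0, hu⟩
  set s : A := y ^ (-(1/2 : ℝ)) with hs
  have hs0 : 0 ≤ s := CFC.rpow_nonneg
  have hsa : star s = s := (IsSelfAdjoint.of_nonneg hs0).star_eq
  have hsy : Commute s y := by
    rw [hs, CFC.rpow_def]
    exact Commute.cfc_nnreal (by exact Commute.refl y) _
  have hss : s * s = y ^ (-1 : ℝ) := by
    rw [hs, ← CFC.rpow_add hu]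
    norm_num
  refine ⟨s, ?_⟩
  rw [hsa]
  calc s * y * s = s * (y * s) := by rw [mul_assoc]
    _ = s * (s * y) := by rw [hsy.eq]
    _ = (s * s) * y := by rw [mul_assoc]
    _ = 1 := by
      rw [hss]
      have := CFC.rpow_neg_mul_rpow (a := y) 1 hpos
      rwa [CFC.rpow_one y hy0] at this

/-- from Cuntz comparison with `1` to an exact equation -/
lemma exists_col {I : Type} [Fintype I] [DecidableEq I] {k : ℕ} (e : Fin (k + 1) ≃ I)
    (B : Matrix I I A) (hB : IsPos (B.submatrix e e))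
    (hab : CuntzBelow (Matrix.diagonal (fun i : Fin (k + 1) => if i = 0 then (1 : A) else 0))
      (B.submatrix e e)) :
    ∃ w : Matrix I (Fin 1) A, wᴴ * B * w = 1 := by
  obtain ⟨v, hv⟩ := hab
  have h1 : Tendsto (fun j => (v j * B.submatrix e e * (v j)ᴴ) 0 0) atTop (𝓝 1) := by
    have h2 := ((continuous_apply_apply (0 : Fin (k + 1)) (0 : Fin (k + 1))).tendsto _).comp hv
    rw [diagonal_apply_eq, if_pos rfl] at h2
    exact h2
  have h3 : ∀ᶠ j in atTop, ‖1 - (v j * B.submatrix e e * (v j)ᴴ) 0 0‖ < 1 := by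
    have h4 : Tendsto (fun j => ‖1 - (v j * B.submatrix e e * (v j)ᴴ) 0 0‖) atTop (𝓝 0) := by
      have := (tendsto_const_nhds (x := (1 : A))).sub h1
      rw [sub_self] at this
      simpa using this.norm
    exact h4.eventually (gt_mem_nhds one_pos)
  obtain ⟨j, hj⟩ := h3.exists
  obtain ⟨Z, hZ⟩ := hB
  -- the column
  obtain ⟨c, hc⟩ : ∃ c : Matrix (Fin (k + 1)) (Fin 1) A, ∀ i l, c i l = star (v j 0 i) :=
    ⟨Matrix.of fun i _ => star (v j 0 i), fun _ _ => rfl⟩
  have h5 : (cᴴ * B.submatrix e e * c) 0 0 = (v j * B.submatrix e e * (v j)ᴴ) 0 0 := by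
    rw [Matrix.mul_apply, Matrix.mul_apply]
    refine Finset.sum_congr rfl fun i _ => ?_
    rw [Matrix.mul_apply, Matrix.mul_apply, hc, conjTranspose_apply]
    congr 1
    refine Finset.sum_congr rfl fun i' _ => ?_
    rw [conjTranspose_apply, hc, star_star]
  have h6 : ∃ x : A, (cᴴ * B.submatrix e e * c) 0 0 = star x * x := by
    let _ : PartialOrder A := CStarAlgebra.spectralOrder A
    have _ : StarOrderedRing A := CStarAlgebra.spectralOrderedRing A
    have h7 : (cᴴ * B.submatrix e e * c) 0 0 = ∑ i, star ((Z * c) i 0) * (Z * c) i 0 := by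
      rw [hZ]
      have : cᴴ * (Zᴴ * Z) * c = (Z * c)ᴴ * (Z * c) := by
        rw [conjTranspose_mul]; simp only [Matrix.mul_assoc]
      rw [this, Matrix.mul_apply]
      simp only [conjTranspose_apply]
    have h8 : 0 ≤ (cᴴ * B.submatrix e e * c) 0 0 := by
      rw [h7]
      exact Finset.sum_nonneg fun i _ => star_mul_self_nonneg _
    obtain ⟨x, hx⟩ := CStarAlgebra.nonneg_iff_eq_star_mul_self.mp h8
    exact ⟨x, hx⟩
  obtain ⟨x, hx⟩ := h6
  rw [← h5] at hj
  obtain ⟨s, hs⟩ := exists_norm _ x hx hj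
  obtain ⟨dS, hdS⟩ : ∃ dS : Matrix (Fin 1) (Fin 1) A, dS = Matrix.diagonal fun _ => s := ⟨_, rfl⟩
  obtain ⟨c', hc'⟩ : ∃ c' : Matrix (Fin (k + 1)) (Fin 1) A, c' = c * dS := ⟨_, rfl⟩
  have h9 : c'ᴴ * B.submatrix e e * c' = 1 := by
    have : c'ᴴ * B.submatrix e e * c' = dSᴴ * (cᴴ * B.submatrix e e * c) * dS := by
      rw [hc', conjTranspose_mul]; simp only [Matrix.mul_assoc]
    rw [this, hdS]
    ext a b
    have ha : a = 0 := Subsingleton.elim _ _
    have hb : b = 0 := Subsingleton.elim _ _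
    subst ha; subst hb
    rw [Matrix.mul_diagonal, diagonal_conjTranspose, Matrix.diagonal_mul, Pi.star_apply, hs,
      Matrix.one_apply_eq]
  refine ⟨c'.submatrix e.symm id, ?_⟩
  have h10 : (c'.submatrix e.symm id)ᴴ * B * (c'.submatrix e.symm id)
      = (c'ᴴ * B.submatrix e e * c') := by
    have e1 : B = (B.submatrix e e).submatrix e.symm e.symm := by
      ext i i'; simp
    conv_lhs => rw [e1]
    rw [conjTranspose_submatrix, Matrix.submatrix_mul_equiv, Matrix.submatrix_mul_equiv]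
    ext; rfl
  rw [h10, h9]

end inv

/-- RC -/
theorem rc_top : S_RC := by
  classical
  intro X _ _ _ T D A _ ι u π hcp hor hS1 hS2 hC hOB hQTR
  unfold rc
  simp only [iInf_eq_top]
  intro r hr
  exfalso
  -- the size
  obtain ⟨m, hm⟩ : ∃ m : ℕ, 1 + (r : ℝ) < (m + 1) * D.δ := by
    obtain ⟨m, hm⟩ := exists_nat_gt ((1 + (r : ℝ)) / D.δ)
    refine ⟨m, ?_⟩
    rw [div_lt_iff₀ D.δ_pos] at hm
    have := D.δ_pos
    nlinarith
  have hK : (0 : ℝ) < Fintype.card (Nb m) := by
    have : 0 < Fintype.card (Nb m) := Fintype.card_pos_iff.mpr ⟨Sum.inr 0⟩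
    exact_mod_cast this
  obtain ⟨n₀, hn₀⟩ := exists_late D (1 / (2 * Fintype.card (Nb m))) (by positivity)
  obtain ⟨k, b, a, e, hb, hbp, ha, hap, hτ⟩ := hQTR X T D A ι u hcp n₀ m
  have hlt : ∀ τ : QT A, τ.rank a + r < τ.rank b := by
    intro τ
    obtain ⟨h1, h2⟩ := hτ τ
    refine lt_of_lt_of_le ?_ h2
    calc τ.rank a + (r : ℝ≥0∞) ≤ 1 + (r : ℝ≥0∞) := by gcongr
      _ = ENNReal.ofReal (1 + (r : ℝ)) := by
        rw [ENNReal.ofReal_add zero_le_one (NNReal.coe_nonneg r), ENNReal.ofReal_one, ENNReal.ofReal_coe_nnreal]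
      _ < _ := by
        rw [ENNReal.ofReal_lt_ofReal_iff']
        have h3 : 1 + (r : ℝ) < (m + 1) * ((D.free n₀).card : ℝ) / D.h n₀ := by
          refine hm.trans_le ?_
          rw [mul_div_assoc]
          exact mul_le_mul_of_nonneg_left (den_ge D n₀) (by positivity)
        refine ⟨h3, lt_of_le_of_lt ?_ h3⟩
        have := r.2
        positivity
  have hcb := hr (k + 1) a b hap hbp hlt
  rw [ha, hb] at hcb
  rw [hb] at hbp
  obtain ⟨w, hw⟩ := exists_col e ((D.bF n₀ m).map ι) hbp hcb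
  -- the obstruction
  obtain ⟨C, n₁, hC'⟩ := hOB X T D A ι u π hcp hor hS1 hS2 hC n₀ m 1 0 0 true (fun j => j.elim0)
    (Matrix.of (Sum.elim (fun i j => w i j) (fun j => j.elim0))) (Or.inl rfl) (by
      rw [← hw]
      ext i j
      rw [Matrix.mul_apply, Matrix.mul_apply, Fintype.sum_sum_type]
      simp only [Finset.univ_eq_empty, Finset.sum_empty, add_zero]
      refine Finset.sum_congr rfl fun p _ => ?_
      rw [Matrix.mul_apply, Matrix.mul_apply, Fintype.sum_sum_type]
      simp only [Finset.univ_eq_empty, Finset.sum_empty, add_zero]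
      rfl)
  -- large heights
  have hbig : ∀ᶠ n in atTop, 2 * C < D.h n := D.h_tendsto.eventually_gt_atTop _
  obtain ⟨n, hn1, hn2, hn3⟩ := (hbig.and ((eventually_ge_atTop n₁).and
    (eventually_ge_atTop n₀))).exists
  obtain ⟨x, hx⟩ := D.VT_nonempty n true
  have h1 := hC' n hn2 x hx
  simp only [Finset.univ_eq_empty, Finset.sum_empty, add_zero, one_mul] at h1
  have h2 : (D.h n : ℝ) ≤ C + Fintype.card (Nb m) *
      (((Finset.range (D.h n)).filter fun i : ℕ =>
      i % D.h n₀ ∈ D.free n₀ ∧ i ∉ D.free n).card : ℝ) := by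
    exact_mod_cast h1
  rw [late_card D hn3] at h2
  have h3 := hn₀ n hn3
  have h4 : (Fintype.card (Nb m) : ℝ) * ((den D n₀ - den D n) * D.h n) ≤ (D.h n : ℝ) / 2 := by
    have h5 := hR_pos D n
    calc (Fintype.card (Nb m) : ℝ) * ((den D n₀ - den D n) * D.h n)
        ≤ (Fintype.card (Nb m) : ℝ) * ((1 / (2 * Fintype.card (Nb m))) * D.h n) := by
          gcongr
      _ = _ := by field_simp
  have h6 : (2 * (C : ℝ)) < D.h n := by exact_mod_cast hn1
  linarith

end Run7.h305.CX
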