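import Pool.Agent.Run7.h305.CX.La
import Pool.Agent.Run7.h305.CX.RC
import Pool.Agent.Run7.h305.CX.QTR

/-!
# Piece L: the lower bound
-/

set_option autoImplicit false
set_option linter.unusedSectionVars false

noncomputable section

namespace Run7.h305.CX

open Filter Topology Matrix Run7.h745 Pool.Agent.TH249
open scoped ENNReal NNReal ComplexOrder

section
variable {X : Type} [TopologicalSpace X] [CompactSpace X] {T : X ≃ₜ X} (D : TowerData X T)
  {A : Type} [CStarAlgebra A] {ι : C(X, ℂ) →⋆ₐ[ℂ] A} {u : unitary A}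

/-- the invariant functional of a tracial state -/
def fn (ι : C(X, ℂ) →⋆ₐ[ℂ] A) (τ : TracialState A) : C(X, ℂ) →ₗ[ℂ] ℂ :=
  τ.val ∘ₗ (ι : C(X, ℂ) →ₐ[ℂ] A).toLinearMap

lemma fn_apply (τ : TracialState A) (f : C(X, ℂ)) : fn ι τ f = τ.val (ι f) := rfl

lemma fn_one (τ : TracialState A) : fn ι τ 1 = 1 := by
  rw [fn_apply, map_one, τ.map_one]

lemma fn_pull (hc : Covariant T ι u) (τ : TracialState A) (f : C(X, ℂ)) :
    fn ι τ (pull T f) = fn ι τ f := by
  rw [fn_apply, fn_apply, ← hc, τ.comm, ← mul_assoc, Unitary.coe_star_mul_self, one_mul]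

lemma fn_nonneg (τ : TracialState A) (f : C(X, ℂ)) (hf : ∀ x, ∃ r : ℝ, 0 ≤ r ∧ f x = r) :
    0 ≤ (fn ι τ f).re := by
  obtain ⟨g, rfl⟩ := exists_sq f hf
  rw [fn_apply, map_mul, map_star]
  exact (τ.nonneg (ι g)).1

lemma fn_cT (hc : Covariant T ι u) (τ : TracialState A) (i : ℕ) (f : C(X, ℂ)) :
    fn ι τ (cT T (i : ℤ) f) = fn ι τ f := by
  induction i with
  | zero => rw [Nat.cast_zero, cT_zero]
  | succ i ih =>
    rw [← ih, ← fn_pull hc τ (cT T ((i + 1 : ℕ) : ℤ) f), pull_eq, cT_cT]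
    congr 3
    push_cast; ring

lemma fn_lev (hc : Covariant T ι u) (τ : TracialState A) (n i : ℕ) :
    fn ι τ (ind (lev D n i)) = fn ι τ (ind (lev D n 0)) := by
  induction i with
  | zero => rfl
  | succ i ih => rw [← pull_lev, ← ih, fn_pull hc]

lemma fn_V (hc : Covariant T ι u) (τ : TracialState A) (n : ℕ) :
    (D.h n : ℂ) * fn ι τ (ind (lev D n 0)) = 1 := by
  classical
  have e1 : ∑ i ∈ Finset.range (D.h n), ind (lev D n i) = 1 := by
    ext x
    rw [sum_lev D n _ (fun i hi => Finset.mem_range.mp hi)]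
    obtain ⟨j, ⟨hj1, hj2⟩, hj3⟩ := D.part n x
    have hex : ∃ i ∈ Finset.range (D.h n), x ∈ lev D n i := ⟨j, Finset.mem_range.mpr hj1, hj2⟩
    rw [if_pos hex]; rfl
  have h1 := fn_one (ι := ι) τ
  rw [← e1, map_sum] at h1
  simp only [fn_lev D hc] at h1
  rwa [Finset.sum_const, nsmul_eq_mul, Finset.card_range] at h1

lemma fn_FS (hc : Covariant T ι u) (τ : TracialState A) (n : ℕ) :
    fn ι τ (ind (D.FS n)) = ((D.free n).card : ℂ) / D.h n := by
  classical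
  have e2 : ∑ i ∈ D.free n, ind (lev D n i) = ind (D.FS n) := by
    ext x
    rw [sum_lev D n _ (D.free_lt n), ind_apply (D.isClopen_FS n)]
    have hiff : (∃ i ∈ D.free n, x ∈ lev D n i) ↔ x ∈ D.FS n := Iff.rfl
    by_cases hx : x ∈ D.FS n
    · rw [if_pos hx, if_pos (hiff.mpr hx)]
    · rw [if_neg hx, if_neg (fun h => hx (hiff.mp h))]
  have hh : (D.h n : ℂ) ≠ 0 := by exact_mod_cast (D.h_pos n).ne'
  have h1 := fn_V D hc τ n
  rw [← e2, map_sum]
  simp only [fn_lev D hc]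
  rw [Finset.sum_const, nsmul_eq_mul, eq_div_iff hh, mul_assoc, mul_comm _ (D.h n : ℂ), h1,
    mul_one]

/-- lower bound of an invariant functional by the sums over the levels -/
lemma fn_ge (hc : Covariant T ι u) (τ : TracialState A) (n : ℕ) (f : C(X, ℂ)) (fR : X → ℝ)
    (hf : ∀ x, f x = fR x) (c : ℝ)
    (hF : ∀ x ∈ D.V n, c ≤ ∑ i ∈ Finset.range (D.h n), fR ((T ^ (i : ℤ) : X ≃ₜ X) x)) :
    c / D.h n ≤ (fn ι τ f).re := by
  classical
  have hh : (D.h n : ℂ) ≠ 0 := by exact_mod_cast (D.h_pos n).ne'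
  -- decomposition
  have e1 : fn ι τ f = ∑ i ∈ Finset.range (D.h n), fn ι τ (ind (lev D n 0) * cT T (i : ℤ) f) := by
    have e2 : ∀ i : ℕ, fn ι τ (ind (lev D n 0) * cT T (i : ℤ) f) = fn ι τ (ind (lev D n i) * f) := by
      intro i
      have : ind (lev D n 0) * cT T (i : ℤ) f = cT T (i : ℤ) (ind (lev D n i) * f) := by
        rw [cT_mul, cT_ind T _ (lev_clopen D n i)]
        congr 2
        ext x
        show (T ^ (-((0 : ℕ) : ℤ)) : X ≃ₜ X) x ∈ D.V n ↔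
          (T ^ (-(i : ℤ)) : X ≃ₜ X) ((T ^ (i : ℤ) : X ≃ₜ X) x) ∈ D.V n
        rw [zp_neg_cancel, Nat.cast_zero, neg_zero, zp_zero]
      rw [this, fn_cT hc]
    simp only [e2]
    rw [← map_sum, ← Finset.sum_mul]
    have e3 : ∑ i ∈ Finset.range (D.h n), ind (lev D n i) = 1 := by
      ext x
      rw [sum_lev D n _ (fun i hi => Finset.mem_range.mp hi)]
      obtain ⟨j, ⟨hj1, hj2⟩, hj3⟩ := D.part n x
      have hex : ∃ i ∈ Finset.range (D.h n), x ∈ lev D n i :=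
        ⟨j, Finset.mem_range.mpr hj1, hj2⟩
      rw [if_pos hex]; rfl
    rw [e3, one_mul]
  have e4 : fn ι τ f - ((c / D.h n : ℝ) : ℂ) = fn ι τ (ind (lev D n 0) *
      (∑ i ∈ Finset.range (D.h n), cT T (i : ℤ) f) - (c : ℂ) • ind (lev D n 0)) := by
    rw [e1, ← map_sum, ← Finset.mul_sum, map_sub, map_smul]
    congr 1
    have h1 := fn_V D hc τ n
    push_cast
    rw [smul_eq_mul, div_eq_iff hh, mul_assoc, mul_comm _ (D.h n : ℂ), h1, mul_one]
  have h5 : 0 ≤ (fn ι τ (ind (lev D n 0) *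
      (∑ i ∈ Finset.range (D.h n), cT T (i : ℤ) f) - (c : ℂ) • ind (lev D n 0))).re := by
    refine fn_nonneg τ _ fun x => ?_
    have h6 : (ind (lev D n 0) * (∑ i ∈ Finset.range (D.h n), cT T (i : ℤ) f)
        - (c : ℂ) • ind (lev D n 0)) x = ind (lev D n 0) x *
        ((∑ i ∈ Finset.range (D.h n), fR ((T ^ (i : ℤ) : X ≃ₜ X) x) - c : ℝ) : ℂ) := by
      show ind (lev D n 0) x * (∑ i ∈ Finset.range (D.h n), cT T (i : ℤ) f) x -
        (c : ℂ) * ind (lev D n 0) x = _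
      rw [ContinuousMap.sum_apply]
      simp only [cT_apply, hf]
      push_cast
      ring
    by_cases hx : x ∈ lev D n 0
    · refine ⟨_, sub_nonneg.mpr (hF x ?_), by rw [h6, ind_mem (lev_clopen D n 0) hx, one_mul]⟩
      have : (T ^ (-((0 : ℕ) : ℤ)) : X ≃ₜ X) x ∈ D.V n := hx
      rwa [Nat.cast_zero, neg_zero, zp_zero] at this
    · exact ⟨0, le_rfl, by rw [h6, ind_notMem (lev_clopen D n 0) hx, zero_mul]; simp⟩
  rw [← e4, Complex.sub_re, Complex.ofReal_re] at h5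
  linarith

end

/-- columns -/
lemma fromRows_calc {A : Type} [CStarAlgebra A] {I J K : Type} [Fintype I] [Fintype J]
    (t : Matrix I K A) (b : Matrix J K A) (B : Matrix I I A) (G : Matrix J J A) :
    (Matrix.fromRows t b)ᴴ * Matrix.fromBlocks B 0 0 G * Matrix.fromRows t b
      = tᴴ * B * t + bᴴ * G * b := by
  rw [Matrix.conjTranspose_fromRows_eq_fromCols_conjTranspose, Matrix.mul_assoc,
    Matrix.fromBlocks_mul_fromRows, Matrix.fromCols_mul_fromRows, Matrix.zero_mul,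
    Matrix.zero_mul, add_zero, zero_add, Matrix.mul_assoc, Matrix.mul_assoc]

/-- L -/
theorem l_lower : S_L := by
  classical
  intro X _ _ _ T D A _ ι u π hcp hor hS1 hS2 hC hOB hGen hδ hPr
  have hc := hcp.cov
  obtain ⟨τ₀, hτ₀⟩ := hPr
  have hK : (0 : ℝ) < Fintype.card (Nb 1) := by
    have : 0 < Fintype.card (Nb 1) := Fintype.card_pos_iff.mpr ⟨Sum.inr 0⟩
    exact_mod_cast this
  obtain ⟨n₀, hn₀⟩ := exists_late D (1 / (4 * Fintype.card (Nb 1))) (by positivity)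
  obtain ⟨k, hk⟩ : ∃ k, Fintype.card (Nb 1) = k := ⟨_, rfl⟩
  obtain ⟨e⟩ : Nonempty (Fin k ≃ Nb 1) := ⟨(Fintype.equivFinOfCardEq hk).symm⟩
  have hpos : PP ι e (D.bF n₀ 1) = (PP ι e (sF D 1 n₀))ᴴ * PP ι e (sF D 1 n₀) := by
    rw [← Matrix.star_eq_conjTranspose, ← map_star, Matrix.star_eq_conjTranspose, sF_herm,
      ← map_mul, sF_mul]
  obtain ⟨Z, hZ⟩ := one_sub_bF D 1 n₀
  have hpos' : 1 - PP ι e (D.bF n₀ 1) = (PP ι e Z)ᴴ * PP ι e Z := by
    rw [← Matrix.star_eq_conjTranspose, ← map_star, Matrix.star_eq_conjTranspose, ← map_mul, ← hZ,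
      map_sub, map_one]
  have htr : ∀ τ : TracialState A, ((1 : ℕ) : ℝ) + 1 / 4 ≤ (τ.mat (PP ι e (D.bF n₀ 1))).re := by
    intro τ
    have h1 : τ.mat (PP ι e (D.bF n₀ 1)) = fn ι τ (D.bF n₀ 1).trace := by
      unfold TracialState.mat
      rw [Matrix.trace, map_sum, ← Equiv.sum_comp e]
      rfl
    rw [h1, bF_trace, map_smul, fn_FS D hc]
    have h2 : ((1 + 1 : ℕ) : ℂ) • (((D.free n₀).card : ℂ) / D.h n₀)
        = ((2 * den D n₀ : ℝ) : ℂ) := by
      unfold den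
      push_cast
      rw [smul_eq_mul]
    rw [h2, Complex.ofReal_re]
    have h3 := den_ge D n₀
    rw [hδ] at h3
    push_cast
    linarith
  obtain ⟨l, ee, v, hee, hτe, hv⟩ := hτ₀ 1 k (PP ι e (D.bF n₀ 1)) ⟨_, hpos⟩ ⟨_, hpos'⟩ htr (1 / 4)
    (by norm_num)
  obtain ⟨n₂, r, g, hg, hcls⟩ := hGen ⟨l, ee, hee⟩
  obtain ⟨Q, l', σ, w, hw1, hw2⟩ := exists_eqv D hc n₂ ee hee r g hg hcls
  -- the trace of the diagonal projection
  obtain ⟨f, hf⟩ : ∃ f : C(X, ℂ), f = ∑ j, ind (D.VT n₂ (σ j)) := ⟨_, rfl⟩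
  have hτf : (fn ι τ₀ f).re < Q + 1 / 4 := by
    have h1 := τ₀.mat_mul_comm wᴴ w
    rw [hw1, hw2] at h1
    have h2 : τ₀.mat (Matrix.fromBlocks ee 0 0 (1 : Matrix (Fin Q) (Fin Q) A)) = τ₀.mat ee + Q := by
      unfold TracialState.mat
      rw [Fintype.sum_sum_type]
      simp [τ₀.map_one]
    have h3 : τ₀.mat (Matrix.diagonal fun j => ι (ind (D.VT n₂ (σ j)))) = fn ι τ₀ f := by
      unfold TracialState.mat
      rw [hf, map_sum]
      refine Finset.sum_congr rfl fun j _ => ?_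
      rw [Matrix.diagonal_apply_eq]; rfl
    rw [← h3, ← h1, h2, Complex.add_re, Complex.natCast_re]
    linarith
  -- the new column
  obtain ⟨B, hB⟩ : ∃ B : Matrix (Nb 1) (Nb 1) A, B = (D.bF n₀ 1).map ι := ⟨_, rfl⟩
  obtain ⟨G, hG⟩ : ∃ G : Matrix (Fin l') (Fin l') A,
    G = Matrix.diagonal fun j => ι (ind (D.VT n₂ (σ j))) := ⟨_, rfl⟩
  obtain ⟨E, hE⟩ : ∃ E : Matrix (Fin l ⊕ Fin Q) (Fin l ⊕ Fin Q) A,
    E = Matrix.fromBlocks ee 0 0 1 := ⟨_, rfl⟩
  have hPB : PP ι e (D.bF n₀ 1) = B.submatrix e e := by rw [hB]; rfl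
  rw [hPB] at hv
  rw [← hE] at hw1
  rw [← hG] at hw2
  have hEE : E * E = E := by
    rw [hE, Matrix.fromBlocks_multiply]
    simp only [Matrix.zero_mul, Matrix.mul_zero, add_zero, zero_add, Matrix.mul_one]
    rw [hee.2]
  have hwGw : wᴴ * G * w = E := by
    rw [← hw2]
    calc wᴴ * (w * wᴴ) * w = (wᴴ * w) * (wᴴ * w) := by simp only [Matrix.mul_assoc]
      _ = E := by rw [hw1, hEE]
  obtain ⟨v₁, v₂, hv12⟩ : ∃ (v₁ : Matrix (Fin k) (Fin 1) A) (v₂ : Matrix (Fin l) (Fin 1) A),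
      v = Matrix.fromRows v₁ v₂ := ⟨v.toRows₁, v.toRows₂, (Matrix.fromRows_toRows v).symm⟩
  rw [hv12, fromRows_calc] at hv
  obtain ⟨t, ht⟩ : ∃ t : Matrix (Nb 1) (Fin 1 ⊕ Fin Q) A,
    t = Matrix.fromCols (v₁.submatrix e.symm id) 0 := ⟨_, rfl⟩
  obtain ⟨M, hM⟩ : ∃ M : Matrix (Fin l ⊕ Fin Q) (Fin 1 ⊕ Fin Q) A,
    M = Matrix.fromBlocks v₂ 0 0 1 := ⟨_, rfl⟩
  obtain ⟨b, hb⟩ : ∃ b : Matrix (Fin l') (Fin 1 ⊕ Fin Q) A, b = w * M := ⟨_, rfl⟩
  have htt : tᴴ * B * t = Matrix.fromBlocks (v₁ᴴ * B.submatrix e e * v₁) 0 0 0 := by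
    rw [ht, Matrix.conjTranspose_fromCols_eq_fromRows_conjTranspose, Matrix.fromRows_mul,
      Matrix.fromRows_mul_fromCols]
    simp only [conjTranspose_zero, Matrix.zero_mul, Matrix.mul_zero]
    congr 1
    have e1 : B = (B.submatrix e e).submatrix e.symm e.symm := by
      ext i i'; simp
    conv_lhs => rw [e1]
    rw [conjTranspose_submatrix, Matrix.submatrix_mul_equiv, Matrix.submatrix_mul_equiv]
    rfl
  have hbb : bᴴ * G * b = Matrix.fromBlocks (v₂ᴴ * ee * v₂) 0 0 1 := by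
    have e1 : bᴴ * G * b = Mᴴ * (wᴴ * G * w) * M := by
      rw [hb, conjTranspose_mul]; simp only [Matrix.mul_assoc]
    rw [e1, hwGw, hM, hE, Matrix.fromBlocks_conjTranspose, Matrix.fromBlocks_multiply,
      Matrix.fromBlocks_multiply]
    simp only [conjTranspose_zero, conjTranspose_one, Matrix.zero_mul, Matrix.mul_zero, add_zero,
      zero_add, Matrix.mul_one]
  have hone : (Matrix.fromRows t b)ᴴ * Matrix.fromBlocks B 0 0 G * Matrix.fromRows t b = 1 := by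
    rw [fromRows_calc, htt, hbb, Matrix.fromBlocks_add, hv]
    simp only [add_zero, zero_add]
    exact Matrix.fromBlocks_one
  obtain ⟨V, hV⟩ : ∃ V : Matrix (Nb 1 ⊕ Fin l') (Fin (1 + Q)) A,
    V = (Matrix.fromRows t b).submatrix id finSumFinEquiv.symm := ⟨_, rfl⟩
  have hVV : Vᴴ * Matrix.fromBlocks ((D.bF n₀ 1).map ι) 0 0
      (Matrix.diagonal fun j => ι (ind (D.VT n₂ (σ j)))) * V = 1 := by
    rw [← hB, ← hG, hV]
    have e1 : ((Matrix.fromRows t b).submatrix id finSumFinEquiv.symm)ᴴ *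
        Matrix.fromBlocks B 0 0 G * (Matrix.fromRows t b).submatrix id finSumFinEquiv.symm
        = ((Matrix.fromRows t b)ᴴ * Matrix.fromBlocks B 0 0 G *
          Matrix.fromRows t b).submatrix finSumFinEquiv.symm finSumFinEquiv.symm := by
      ext i j; rfl
    rw [e1, hone, Matrix.submatrix_one_equiv]
  -- the obstruction for both types
  have hob := fun s : Bool => hOB X T D A ι u π hcp hor hS1 hS2 hC n₀ 1 (1 + Q) l' n₂ s σ V
    (Or.inr rfl) hVV
  obtain ⟨C0, m0, h0⟩ := hob false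
  obtain ⟨C1, m1, h1⟩ := hob true
  have hbig : ∀ᶠ n in atTop, 2 * (C0 + C1) < D.h n := D.h_tendsto.eventually_gt_atTop _
  obtain ⟨n, hn1, hn2, hn3, hn4⟩ := (hbig.and ((eventually_ge_atTop m0).and
    ((eventually_ge_atTop m1).and (eventually_ge_atTop n₀)))).exists
  obtain ⟨late, hlate⟩ : ∃ late : ℕ, late = ((Finset.range (D.h n)).filter fun i : ℕ =>
      i % D.h n₀ ∈ D.free n₀ ∧ i ∉ D.free n).card := ⟨_, rfl⟩
  have hall : ∀ x ∈ D.V n, (1 + Q) * D.h n ≤ (C0 + C1) + ∑ j, ((Finset.range (D.h n)).filter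
      fun i : ℕ => (T ^ (i : ℤ) : X ≃ₜ X) x ∈ D.VT n₂ (σ j)).card +
        Fintype.card (Nb 1) * late := by
    intro x hx
    rw [hlate]
    rcases D.mem_VT_or n x hx with h | h
    · have := h0 n hn2 x h
      omega
    · have := h1 n hn3 x h
      omega
  have hfR : ∀ x, f x = ((∑ j, if x ∈ D.VT n₂ (σ j) then (1 : ℝ) else 0 : ℝ) : ℂ) := by
    intro x
    rw [hf, ContinuousMap.sum_apply]
    push_cast
    refine Finset.sum_congr rfl fun j _ => ?_
    by_cases hx : x ∈ D.VT n₂ (σ j)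
    · rw [ind_mem (D.isClopen_VT n₂ (σ j)) hx, if_pos hx, Complex.ofReal_one]
    · rw [ind_notMem (D.isClopen_VT n₂ (σ j)) hx, if_neg hx, Complex.ofReal_zero]
  have hge := fn_ge D hc τ₀ n f (fun x => ∑ j, if x ∈ D.VT n₂ (σ j) then (1 : ℝ) else 0) hfR
    ((1 + Q) * D.h n - (C0 + C1) - Fintype.card (Nb 1) * late) (by
      intro x hx
      have h2 := hall x hx
      have h3 : ∑ i ∈ Finset.range (D.h n), ∑ j,
          (if (T ^ (i : ℤ) : X ≃ₜ X) x ∈ D.VT n₂ (σ j) then (1 : ℝ) else 0)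
          = ((∑ j, ((Finset.range (D.h n)).filter
            fun i : ℕ => (T ^ (i : ℤ) : X ≃ₜ X) x ∈ D.VT n₂ (σ j)).card : ℕ) : ℝ) := by
        rw [Finset.sum_comm]
        push_cast
        refine Finset.sum_congr rfl fun j _ => ?_
        rw [Finset.sum_ite, Finset.sum_const, Finset.sum_const_zero, add_zero, nsmul_eq_mul,
          mul_one]
      rw [h3]
      have h4 : ((1 + Q : ℕ) : ℝ) * D.h n ≤ ((C0 + C1 : ℕ) : ℝ) +
          ((∑ j, ((Finset.range (D.h n)).filter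
            fun i : ℕ => (T ^ (i : ℤ) : X ≃ₜ X) x ∈ D.VT n₂ (σ j)).card : ℕ) : ℝ)
          + Fintype.card (Nb 1) * late := by exact_mod_cast h2
      push_cast at h4 ⊢
      linarith)
  have hh := hR_pos D n
  have hl : (Fintype.card (Nb 1) : ℝ) * late ≤ (D.h n : ℝ) / 4 := by
    have h3 := hn₀ n hn4
    have h4 : (late : ℝ) = (den D n₀ - den D n) * D.h n := by rw [hlate]; exact late_card D hn4
    rw [h4]
    calc (Fintype.card (Nb 1) : ℝ) * ((den D n₀ - den D n) * D.h n)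
        ≤ (Fintype.card (Nb 1) : ℝ) * ((1 / (4 * Fintype.card (Nb 1))) * D.h n) := by
          gcongr
      _ = _ := by field_simp
  have h6 : (2 * ((C0 : ℝ) + C1)) < D.h n := by exact_mod_cast hn1
  have h7 : ((1 + Q) * (D.h n : ℝ) - (C0 + C1) - Fintype.card (Nb 1) * late) / D.h n < Q + 1 / 4 :=
    lt_of_le_of_lt hge hτf
  rw [div_lt_iff₀ hh] at h7
  nlinarith

end Run7.h305.CX
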