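import Pool.Agent.Run7.h745.KTa

/-!
# Crossed products, part 1: diagonal operators and the shift on `ℓ²(ℤ)`
-/

set_option autoImplicit false

noncomputable section

namespace Run7.h305.CX

open Filter Topology Matrix Run7.h745
open scoped InnerProductSpace ENNReal

lemma two_pos' : 0 < (2 : ℝ≥0∞).toReal := by norm_num

/-- a bounded linear map on `ℓ²(ℤ)` given by coordinates -/
def mkOp (F : (ℤ → ℂ) →ₗ[ℂ] (ℤ → ℂ)) (C : ℝ) (hC : 0 ≤ C)
    (h : ∀ (f : HH) (s : Finset ℤ), ∑ i ∈ s, ‖F f i‖ ^ (2 : ℝ≥0∞).toReal ≤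
      (C * ‖f‖) ^ (2 : ℝ≥0∞).toReal) : HH →L[ℂ] HH :=
  LinearMap.mkContinuous
    { toFun := fun f => ⟨F f, by
        apply memℓp_gen' (C := (C * ‖f‖) ^ (2 : ℝ≥0∞).toReal)
        exact h f⟩
      map_add' := fun f g => by
        apply Subtype.ext
        show F ((f + g : HH) : ℤ → ℂ) = _
        rw [lp.coeFn_add, map_add]; rfl
      map_smul' := fun c f => by
        apply Subtype.ext
        show F ((c • f : HH) : ℤ → ℂ) = _
        rw [lp.coeFn_smul, map_smul]; rfl } C (fun f => by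
      apply lp.norm_le_of_forall_sum_le two_pos' (by positivity)
      exact h f)

lemma mkOp_apply (F : (ℤ → ℂ) →ₗ[ℂ] (ℤ → ℂ)) (C : ℝ) (hC : 0 ≤ C)
    (h : ∀ (f : HH) (s : Finset ℤ), ∑ i ∈ s, ‖F f i‖ ^ (2 : ℝ≥0∞).toReal ≤
      (C * ‖f‖) ^ (2 : ℝ≥0∞).toReal) (f : HH) (i : ℤ) : mkOp F C hC h f i = F f i := rfl

lemma mkOp_norm (F : (ℤ → ℂ) →ₗ[ℂ] (ℤ → ℂ)) (C : ℝ) (hC : 0 ≤ C)
    (h : ∀ (f : HH) (s : Finset ℤ), ∑ i ∈ s, ‖F f i‖ ^ (2 : ℝ≥0∞).toReal ≤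
      (C * ‖f‖) ^ (2 : ℝ≥0∞).toReal) : ‖mkOp F C hC h‖ ≤ C :=
  LinearMap.mkContinuous_norm_le _ hC _

/-- multiplication by a sequence -/
def mulF (g : ℤ → ℂ) : (ℤ → ℂ) →ₗ[ℂ] (ℤ → ℂ) where
  toFun f := fun i => g i * f i
  map_add' f f' := by funext i; simp [mul_add]
  map_smul' c f := by funext i; simp; ring

lemma mulF_bound (g : ℤ → ℂ) (C : ℝ) (hC : ∀ i, ‖g i‖ ≤ C) (f : HH) (s : Finset ℤ) :
    ∑ i ∈ s, ‖mulF g f i‖ ^ (2 : ℝ≥0∞).toReal ≤ (C * ‖f‖) ^ (2 : ℝ≥0∞).toReal := by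
  have hC0 : 0 ≤ C := (norm_nonneg _).trans (hC 0)
  rw [Real.mul_rpow hC0 (norm_nonneg _)]
  refine le_trans ?_ (mul_le_mul_of_nonneg_left (lp.sum_rpow_le_norm_rpow two_pos' f s)
    (Real.rpow_nonneg hC0 _))
  rw [Finset.mul_sum]
  refine Finset.sum_le_sum fun i _ => ?_
  show ‖g i * f i‖ ^ (2 : ℝ≥0∞).toReal ≤ _
  rw [norm_mul, Real.mul_rpow (norm_nonneg _) (norm_nonneg _)]
  exact mul_le_mul_of_nonneg_right (Real.rpow_le_rpow (norm_nonneg _) (hC i) two_pos'.le)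
    (Real.rpow_nonneg (norm_nonneg _) _)

/-- shift of a sequence -/
def shF (k : ℤ) : (ℤ → ℂ) →ₗ[ℂ] (ℤ → ℂ) where
  toFun f := fun i => f (i - k)
  map_add' f f' := rfl
  map_smul' c f := rfl

lemma shF_bound (k : ℤ) (f : HH) (s : Finset ℤ) :
    ∑ i ∈ s, ‖shF k f i‖ ^ (2 : ℝ≥0∞).toReal ≤ (1 * ‖f‖) ^ (2 : ℝ≥0∞).toReal := by
  rw [one_mul]
  refine le_trans (le_of_eq ?_) (lp.sum_rpow_le_norm_rpow two_pos' f
    (s.map ⟨fun i => i - k, sub_left_injective⟩))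
  rw [Finset.sum_map]
  rfl

/-- the shift -/
def shOp (k : ℤ) : HH →L[ℂ] HH := mkOp (shF k) 1 zero_le_one (shF_bound k)

lemma shOp_dl (k i : ℤ) : shOp k (dl i) = dl (i + k) := by
  ext j
  rw [shOp, mkOp_apply]
  show (dl i : HH) (j - k) = _
  rw [dl_apply, dl_apply]
  by_cases h : j = i + k
  · rw [if_pos (by omega), if_pos h]
  · rw [if_neg (by omega), if_neg h]

lemma shOp_star (k : ℤ) : star (shOp k) = shOp (-k) := by
  refine HH_ext' fun i j => ?_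
  rw [star_coef, shOp_dl, shOp_dl, dl_dl, dl_dl]
  by_cases h : i = j + -k
  · rw [if_pos h, if_pos (by omega)]; simp
  · rw [if_neg h, if_neg (by omega)]; simp

lemma shOp_mul (k l : ℤ) : shOp k * shOp l = shOp (k + l) := by
  refine HH_ext fun j => ?_
  rw [mul_apply_eq_comp, shOp_dl, shOp_dl, shOp_dl]
  congr 1; ring

lemma shOp_zero : shOp 0 = 1 := by
  refine HH_ext fun j => ?_
  rw [shOp_dl, add_zero]; rfl

/-- the shift as a unitary -/
def shU : unitary (HH →L[ℂ] HH) := ⟨shOp 1, by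
  rw [Unitary.mem_iff, shOp_star, shOp_mul, shOp_mul]
  norm_num
  exact shOp_zero⟩

lemma shU_coe : (shU : HH →L[ℂ] HH) = shOp 1 := rfl

section
variable {X : Type} [TopologicalSpace X] [CompactSpace X] (T : X ≃ₜ X) (x : X)

/-- multiplication by the values of a function along the orbit -/
def dgOp (f : C(X, ℂ)) : HH →L[ℂ] HH :=
  mkOp (mulF fun i => f ((T ^ i : X ≃ₜ X) x)) ‖f‖ (norm_nonneg _)
    (mulF_bound _ _ fun i => f.norm_coe_le_norm _)

lemma dgOp_apply (f : C(X, ℂ)) (g : HH) (i : ℤ) :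
    dgOp T x f g i = f ((T ^ i : X ≃ₜ X) x) * g i := rfl

lemma dgOp_dl (f : C(X, ℂ)) (i : ℤ) : dgOp T x f (dl i) = f ((T ^ i : X ≃ₜ X) x) • dl i := by
  ext j
  rw [dgOp_apply, lp.coeFn_smul, Pi.smul_apply, dl_apply, smul_eq_mul]
  by_cases h : j = i
  · rw [h]
  · rw [if_neg h, mul_zero, mul_zero]

/-- the representation of `C(X)` -/
def dgRep : C(X, ℂ) →⋆ₐ[ℂ] (HH →L[ℂ] HH) where
  toFun f := dgOp T x f
  map_one' := by
    refine HH_ext fun j => ?_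
    rw [dgOp_dl]; simp
  map_mul' f g := by
    refine HH_ext fun j => ?_
    rw [mul_apply_eq_comp, dgOp_dl, dgOp_dl, map_smul, dgOp_dl, ContinuousMap.mul_apply, smul_smul,
      mul_comm]
  map_zero' := by
    refine HH_ext fun j => ?_
    rw [dgOp_dl]; simp
  map_add' f g := by
    refine HH_ext fun j => ?_
    rw [_root_.add_apply, dgOp_dl, dgOp_dl, dgOp_dl, ContinuousMap.add_apply, add_smul]
  commutes' c := by
    refine HH_ext fun j => ?_
    rw [dgOp_dl]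
    rw [Algebra.algebraMap_eq_smul_one, Algebra.algebraMap_eq_smul_one]
    simp
  map_star' f := by
    refine HH_ext' fun i j => ?_
    rw [star_coef, dgOp_dl, dgOp_dl, inner_smul_right, inner_smul_right, dl_dl, dl_dl,
      ContinuousMap.star_apply, star_mul']
    by_cases h : i = j
    · rw [h]; simp
    · rw [if_neg h, if_neg (Ne.symm h)]; simp

lemma dgRep_dl (f : C(X, ℂ)) (i : ℤ) : dgRep T x f (dl i) = f ((T ^ i : X ≃ₜ X) x) • dl i :=
  dgOp_dl T x f i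

lemma dg_cov : Covariant T (dgRep T x) shU := by
  intro f
  refine HH_ext fun j => ?_
  rw [mul_apply_eq_comp, mul_apply_eq_comp, shU_coe, shOp_star, shOp_dl, dgRep_dl, map_smul,
    shOp_dl, dgRep_dl, pull_eq, cT_apply, ← zp_add, add_comm (-1) j, neg_add_cancel_right]

end

end Run7.h305.CX
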