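import Pool.Agent.Run7.h305.CX.Toep
import Pool.Agent.Run7.h305.CX.Diag

/-!
# Crossed products, part 3: existence, orbit representations, density
-/

set_option autoImplicit false
set_option linter.unusedSectionVars false

noncomputable section

namespace Run7.h305.CX

open Filter Topology Matrix Run7.h745
open scoped InnerProductSpace ENNReal BoundedContinuousFunction

section lam
variable {X : Type} [TopologicalSpace X] [CompactSpace X] {T : X ≃ₜ X}
  {B : Type} [CStarAlgebra B]

/-- the Laurent polynomial with coefficients `F` -/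
def Lam (π : C(X, ℂ) →⋆ₐ[ℂ] B) (v : unitary B) : (ℤ →₀ C(X, ℂ)) →ₗ[ℂ] B :=
  Finsupp.lsum ℂ fun k => (LinearMap.mulRight ℂ (up v k)).comp π.toAlgHom.toLinearMap

variable {π : C(X, ℂ) →⋆ₐ[ℂ] B} {v : unitary B}

lemma Lam_single (k : ℤ) (g : C(X, ℂ)) : Lam π v (Finsupp.single k g) = π g * up v k := by
  rw [Lam, Finsupp.lsum_single]; rfl

lemma Lam_laur (F : ℤ →₀ C(X, ℂ)) : ∃ L : ℕ, (∀ k : ℤ, (L : ℤ) < |k| → F k = 0) ∧
    Lam π v F = laur v π L F := by
  classical
  obtain ⟨L, hL⟩ : ∃ L : ℕ, ∀ k ∈ F.support, |k| ≤ (L : ℤ) := by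
    refine ⟨F.support.sup fun k => k.natAbs, fun k hk => ?_⟩
    have h1 : k.natAbs ≤ F.support.sup fun k => k.natAbs := Finset.le_sup (f := fun k : ℤ => k.natAbs) hk
    rw [Int.abs_eq_natAbs]
    exact_mod_cast h1
  refine ⟨L, fun k hk => ?_, ?_⟩
  · by_contra h
    have := hL k (Finsupp.mem_support_iff.mpr h)
    omega
  · rw [Lam, Finsupp.lsum_apply, Finsupp.sum, laur]
    refine Finset.sum_subset (fun k hk => ?_) fun k _ hk => ?_
    · have := hL k hk
      rw [Finset.mem_Icc]
      rw [abs_le] at this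
      exact this
    · rw [Finsupp.notMem_support_iff.mp hk, map_zero]

/-- products of monomials -/
lemma mono_mul (hc : Covariant T π v) (k j : ℤ) (a b : C(X, ℂ)) :
    (π a * up v k) * (π b * up v j) = π (a * cT T (-k) b) * up v (k + j) := by
  rw [mul_assoc, ← mul_assoc (up v k), cov_up hc, map_mul, up_add]
  simp only [mul_assoc]

lemma mono_star (hc : Covariant T π v) (k : ℤ) (a : C(X, ℂ)) :
    star (π a * up v k) = π (cT T k (star a)) * up v (-k) := by
  rw [star_mul, star_up, ← map_star, cov_up hc, neg_neg]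

/-- the *-algebra of Laurent polynomials -/
def LS (hc : Covariant T π v) : StarSubalgebra ℂ B where
  carrier := LinearMap.range (Lam π v)
  mul_mem' := by
    rintro _ _ ⟨F, rfl⟩ ⟨G, rfl⟩
    show _ ∈ LinearMap.range (Lam π v)
    induction F using Finsupp.induction_linear with
    | zero => rw [map_zero, zero_mul]; exact zero_mem _
    | add F F' hF hF' => rw [map_add, add_mul]; exact add_mem hF hF'
    | single k a =>
      induction G using Finsupp.induction_linear with
      | zero => rw [map_zero, mul_zero]; exact zero_mem _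
      | add G G' hG hG' => rw [map_add, mul_add]; exact add_mem hG hG'
      | single j b =>
        rw [Lam_single, Lam_single, mono_mul hc, ← Lam_single]
        exact LinearMap.mem_range_self _ _
  add_mem' := by
    intro a b ha hb
    exact add_mem (S := Submodule ℂ B) ha hb
  algebraMap_mem' := by
    intro c
    refine ⟨Finsupp.single 0 (algebraMap ℂ C(X, ℂ) c), ?_⟩
    rw [Lam_single, up_zero, mul_one]
    exact AlgHomClass.commutes π c
  star_mem' := by
    rintro _ ⟨F, rfl⟩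
    show _ ∈ LinearMap.range (Lam π v)
    induction F using Finsupp.induction_linear with
    | zero => rw [map_zero, star_zero]; exact zero_mem _
    | add F F' hF hF' => rw [map_add, star_add]; exact add_mem hF hF'
    | single k a =>
      rw [Lam_single, mono_star hc, ← Lam_single]
      exact LinearMap.mem_range_self _ _

lemma mem_LS (hc : Covariant T π v) (F : ℤ →₀ C(X, ℂ)) : Lam π v F ∈ LS hc :=
  LinearMap.mem_range_self _ _

/-- closure -/
def Cl (hc : Covariant T π v) : StarSubalgebra ℂ B := (LS hc).topologicalClosure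

instance Cl.isClosed (hc : Covariant T π v) : IsClosed (Cl hc : Set B) :=
  StarSubalgebra.isClosed_topologicalClosure _

instance Cl.cstar (hc : Covariant T π v) : CStarAlgebra (Cl hc) :=
  StarSubalgebra.cstarAlgebra (Cl hc)

lemma π_mem (hc : Covariant T π v) (f : C(X, ℂ)) : π f ∈ Cl hc := by
  apply StarSubalgebra.le_topologicalClosure
  refine ⟨Finsupp.single 0 f, ?_⟩
  rw [Lam_single, up_zero, mul_one]

lemma up_mem (hc : Covariant T π v) (k : ℤ) : up v k ∈ Cl hc := by
  apply StarSubalgebra.le_topologicalClosure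
  refine ⟨Finsupp.single k 1, ?_⟩
  rw [Lam_single, map_one, one_mul]

def clι (hc : Covariant T π v) : C(X, ℂ) →⋆ₐ[ℂ] Cl hc :=
  StarAlgHom.codRestrict π (Cl hc) (π_mem hc)

lemma clι_coe (hc : Covariant T π v) (f : C(X, ℂ)) : ((clι hc f : Cl hc) : B) = π f := rfl

def clu (hc : Covariant T π v) : unitary (Cl hc) :=
  ⟨⟨(v : B), by have := up_mem hc 1; rwa [up_one] at this⟩, by
    rw [Unitary.mem_iff]
    constructor
    · apply Subtype.ext
      show star (v : B) * v = 1
      exact Unitary.coe_star_mul_self v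
    · apply Subtype.ext
      show (v : B) * star (v : B) = 1
      exact Unitary.coe_mul_star_self v⟩

lemma clu_coe (hc : Covariant T π v) : ((clu hc : Cl hc) : B) = v := rfl

lemma cl_up (hc : Covariant T π v) (k : ℤ) : ((up (clu hc) k : Cl hc) : B) = up v k := by
  induction k using Int.induction_on with
  | zero => rw [up_zero, up_zero]; rfl
  | succ n ih =>
    rw [up_add, up_add, up_one, up_one]
    show ((up (clu hc) n : Cl hc) : B) * ((clu hc : Cl hc) : B) = _
    rw [ih, clu_coe]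
  | pred n ih =>
    rw [sub_eq_add_neg, up_add, up_add, up_neg _ 1, up_neg _ 1, up_one, up_one]
    show ((up (clu hc) (-n) : Cl hc) : B) * star ((clu hc : Cl hc) : B) = _
    rw [ih, clu_coe]

lemma cl_cov (hc : Covariant T π v) : Covariant T (clι hc) (clu hc) := by
  intro f
  apply Subtype.ext
  exact hc f

lemma cl_Lam (hc : Covariant T π v) (F : ℤ →₀ C(X, ℂ)) :
    ((Lam (clι hc) (clu hc) F : Cl hc) : B) = Lam π v F := by
  induction F using Finsupp.induction_linear with
  | zero => rw [map_zero, map_zero]; rfl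
  | add F F' hF hF' =>
    rw [map_add, map_add, ← hF, ← hF']; rfl
  | single k a =>
    rw [Lam_single, Lam_single]
    show ((clι hc a : Cl hc) : B) * ((up (clu hc) k : Cl hc) : B) = _
    rw [cl_up, clι_coe]

lemma cl_norm (hc : Covariant T π v) (F : ℤ →₀ C(X, ℂ)) :
    ‖Lam (clι hc) (clu hc) F‖ = ‖Lam π v F‖ := by
  rw [← cl_Lam hc]; rfl

lemma cl_dense (hc : Covariant T π v) : DenseRange (Lam (clι hc) (clu hc)) := by
  intro a
  rw [Metric.mem_closure_iff]
  intro ε hε
  have ha : (a : B) ∈ closure (LS hc : Set B) := by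
    rw [← StarSubalgebra.topologicalClosure_coe]; exact a.2
  obtain ⟨b, ⟨F, hF⟩, hb⟩ := Metric.mem_closure_iff.mp ha ε hε
  refine ⟨_, ⟨F, rfl⟩, ?_⟩
  rw [Subtype.dist_eq, cl_Lam, hF]
  exact hb

end lam

/-! ### Homomorphisms from a dense set of Laurent polynomials -/

section hom
variable {X : Type} [TopologicalSpace X] [CompactSpace X] {T : X ≃ₜ X}
  {A B : Type} [CStarAlgebra A] [CStarAlgebra B]
  {ι : C(X, ℂ) →⋆ₐ[ℂ] A} {u : unitary A} {π : C(X, ℂ) →⋆ₐ[ℂ] B} {v : unitary B}

lemma hom_up (φ : A →⋆ₐ[ℂ] B) (h : φ (u : A) = v) (k : ℤ) : φ (up u k) = up v k := by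
  induction k using Int.induction_on with
  | zero => rw [up_zero, up_zero, map_one]
  | succ n ih => rw [up_add, up_add, map_mul, ih, up_one, up_one, h]
  | pred n ih =>
    rw [sub_eq_add_neg, up_add, up_add, map_mul, ih, up_neg _ 1, up_neg _ 1, up_one, up_one,
      map_star, h]

lemma hom_Lam (φ : A →⋆ₐ[ℂ] B) (h1 : ∀ f, φ (ι f) = π f) (h : φ (u : A) = v)
    (F : ℤ →₀ C(X, ℂ)) : φ (Lam ι u F) = Lam π v F := by
  induction F using Finsupp.induction_linear with
  | zero => rw [map_zero, map_zero, map_zero]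
  | add F F' hF hF' => rw [map_add, map_add, map_add, hF, hF']
  | single k a => rw [Lam_single, Lam_single, map_mul, hom_up φ h, h1]

lemma hom_cont (φ : A →⋆ₐ[ℂ] B) : Continuous φ :=
  AddMonoidHomClass.continuous_of_bound φ 1 fun x => by
    rw [one_mul]; exact NonUnitalStarAlgHom.norm_apply_le φ x

lemma hom_unique (hd : DenseRange (Lam ι u)) (φ ψ : A →⋆ₐ[ℂ] B) (h1 : ∀ f, φ (ι f) = ψ (ι f))
    (h2 : φ (u : A) = ψ (u : A)) : φ = ψ := by
  have h3 : (φ : A → B) = ψ := by
    refine hd.equalizer (hom_cont φ) (hom_cont ψ) ?_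
    funext F
    show φ (Lam ι u F) = ψ (Lam ι u F)
    induction F using Finsupp.induction_linear with
    | zero => rw [map_zero, map_zero, map_zero]
    | add F F' hF hF' => rw [map_add, map_add, map_add, hF, hF']
    | single k a =>
      rw [Lam_single, map_mul, map_mul, h1]
      congr 1
      induction k using Int.induction_on with
      | zero => rw [up_zero, map_one, map_one]
      | succ n ih => rw [up_add, map_mul, map_mul, ih, up_one, h2]
      | pred n ih =>
        rw [sub_eq_add_neg, up_add, map_mul, map_mul, ih, up_neg _ 1, up_one, map_star, map_star, h2]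
  exact DFunLike.coe_injective h3

/-- extension of a homomorphism from the Laurent polynomials -/
theorem hom_ext (hι : Covariant T ι u) (hπ : Covariant T π v) (hd : DenseRange (Lam ι u))
    (hn : ∀ F, ‖Lam π v F‖ ≤ ‖Lam ι u F‖) :
    ∃ φ : A →⋆ₐ[ℂ] B, (∀ f, φ (ι f) = π f) ∧ φ (u : A) = v := by
  obtain ⟨Φ, hΦ⟩ : ∃ Φ : A →L[ℂ] B, ∀ F, Φ (Lam ι u F) = Lam π v F :=
    ⟨(Lam π v).extendOfNorm (Lam ι u), fun F =>
      LinearMap.extendOfNorm_eq hd ⟨1, fun F => by rw [one_mul]; exact hn F⟩ F⟩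
  have hmono : ∀ k a, Φ (ι a * up u k) = π a * up v k := by
    intro k a
    rw [← Lam_single, hΦ, Lam_single]
  have hι1 : ∀ f, Φ (ι f) = π f := by
    intro f
    have := hmono 0 f
    rwa [up_zero, up_zero, mul_one, mul_one] at this
  have hmul : ∀ a b, Φ (a * b) = Φ a * Φ b := by
    intro a b
    refine hd.induction_on₂ (p := fun a b => Φ (a * b) = Φ a * Φ b) ?_ ?_ a b
    · exact isClosed_eq (by fun_prop) (by fun_prop)
    · intro F G
      induction F using Finsupp.induction_linear with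
      | zero => rw [map_zero, zero_mul, map_zero, zero_mul]
      | add F F' hF hF' => rw [map_add, add_mul, map_add, map_add, add_mul, hF, hF']
      | single k a =>
        induction G using Finsupp.induction_linear with
        | zero => rw [map_zero, mul_zero, map_zero, mul_zero]
        | add G G' hG hG' => rw [map_add, mul_add, map_add, map_add, mul_add, hG, hG']
        | single j b =>
          rw [Lam_single, Lam_single, mono_mul hι, hmono, hmono, hmono, mono_mul hπ]
  have hstar : ∀ a, Φ (star a) = star (Φ a) := by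
    intro a
    refine hd.induction_on (p := fun a => Φ (star a) = star (Φ a)) a ?_ ?_
    · exact isClosed_eq (by fun_prop) (by fun_prop)
    · intro F
      induction F using Finsupp.induction_linear with
      | zero => rw [map_zero, star_zero, map_zero, star_zero]
      | add F F' hF hF' => rw [map_add, star_add, map_add, map_add, star_add, hF, hF']
      | single k a =>
        rw [Lam_single, mono_star hι, hmono, hmono, mono_star hπ]
  refine ⟨{ toFun := Φ
            map_one' := by rw [← map_one ι, hι1, map_one]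
            map_mul' := hmul
            map_zero' := map_zero Φ
            map_add' := map_add Φ
            commutes' := fun c => by
              show Φ (algebraMap ℂ A c) = _
              rw [Algebra.algebraMap_eq_smul_one, map_smul, Algebra.algebraMap_eq_smul_one,
                ← map_one ι, hι1, map_one]
            map_star' := hstar }, hι1, ?_⟩
  show Φ (u : A) = v
  have := hmono 1 1
  rwa [map_one, map_one, one_mul, one_mul, up_one, up_one] at this

end hom

/-! ### The orbit representations -/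

section rep
variable {X : Type} [TopologicalSpace X] [CompactSpace X] (T : X ≃ₜ X)

lemma dg_isRep (x : X) :
    IsOrbitRep T (dgRep T x) shU x (StarAlgHom.id ℂ (HH →L[ℂ] HH)) where
  fn f i := dgRep_dl T x f i
  sh i := shOp_dl 1 i

/-- coefficients of Laurent polynomials in an orbit representation -/
lemma rep_coef {T : X ≃ₜ X} {A : Type} [CStarAlgebra A] {ι : C(X, ℂ) →⋆ₐ[ℂ] A} {u : unitary A}
    {x : X} {ρ : A →⋆ₐ[ℂ] (HH →L[ℂ] HH)} (h : IsOrbitRep T ι u x ρ) (F : ℤ →₀ C(X, ℂ)) (i j : ℤ) :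
    ⟪dl i, ρ (Lam ι u F) (dl j)⟫_ℂ = F (i - j) ((T ^ i : X ≃ₜ X) x) := by
  classical
  induction F using Finsupp.induction_linear with
  | zero => rw [map_zero, map_zero]; simp
  | add F F' hF hF' =>
    rw [map_add, map_add, _root_.add_apply, inner_add_right, hF, hF']; rfl
  | single k a =>
    rw [Lam_single, h.fn_up, inner_smul_right, dl_dl, Finsupp.single_apply]
    by_cases hk : i = j + k
    · rw [if_pos hk, if_pos (by omega), ← hk, mul_one]
    · rw [if_neg hk, if_neg (by omega), mul_zero]; rfl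

/-- the basic inequality -/
theorem key_le {T : X ≃ₜ X} {A : Type} [CStarAlgebra A] {ι : C(X, ℂ) →⋆ₐ[ℂ] A} {u : unitary A}
    {ρ : X → (A →⋆ₐ[ℂ] (HH →L[ℂ] HH))} (h : ∀ x, IsOrbitRep T ι u x (ρ x))
    {B : Type} [CStarAlgebra B] {π : C(X, ℂ) →⋆ₐ[ℂ] B} {v : unitary B} (hπ : Covariant T π v)
    (F : ℤ →₀ C(X, ℂ)) (C : ℝ) (hC : 0 ≤ C) (hle : ∀ x, ‖ρ x (Lam ι u F)‖ ≤ C) :
    ‖Lam π v F‖ ≤ C := by
  obtain ⟨L, hL, hF⟩ := Lam_laur (π := π) (v := v) F
  rw [hF]
  refine toeplitz hπ L F hL C fun n => ?_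
  exact toep_norm_le F C hC (fun x => ρ x (Lam ι u F)) (fun x i j => rep_coef (h x) F i j) hle n

/-- `X` with the discrete topology -/
def DX (X : Type) : Type := X
instance (X : Type) : TopologicalSpace (DX X) := ⊥
instance (X : Type) : DiscreteTopology (DX X) := ⟨rfl⟩

/-- the algebra of bounded families of operators -/
def RR (X : Type) : Type := DX X →ᵇ (HH →L[ℂ] HH)

instance (X : Type) : CStarAlgebra (RR X) :=
  inferInstanceAs (CStarAlgebra (DX X →ᵇ (HH →L[ℂ] HH)))

/-- bounded family -/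
def mkR (X : Type) (g : X → (HH →L[ℂ] HH)) (C : ℝ) (h : ∀ x, ‖g x‖ ≤ C) : RR X :=
  (BoundedContinuousFunction.ofNormedAddCommGroupDiscrete (α := DX X) g C h :
    DX X →ᵇ (HH →L[ℂ] HH))

/-- evaluation -/
def evR (X : Type) (x : X) : RR X →⋆ₐ[ℂ] (HH →L[ℂ] HH) where
  toFun g := (show DX X →ᵇ (HH →L[ℂ] HH) from g) (x : DX X)
  map_one' := rfl
  map_mul' _ _ := rfl
  map_zero' := rfl
  map_add' _ _ := rfl
  commutes' _ := rfl
  map_star' _ := rfl

lemma RR.ext {X : Type} {g g' : RR X} (h : ∀ x : X, evR X x g = evR X x g') : g = g' :=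
  BoundedContinuousFunction.ext (α := DX X) h

lemma evR_mkR (X : Type) (g : X → (HH →L[ℂ] HH)) (C : ℝ) (h : ∀ x, ‖g x‖ ≤ C) (x : X) :
    evR X x (mkR X g C h) = g x := rfl

/-- the big representation -/
def bigι : C(X, ℂ) →⋆ₐ[ℂ] RR X where
  toFun f := mkR X (fun x => dgRep T x f) ‖f‖ (fun x => NonUnitalStarAlgHom.norm_apply_le _ _)
  map_one' := RR.ext fun x => by
    rw [evR_mkR, map_one, map_one]
  map_mul' f g := RR.ext fun x => by
    rw [map_mul, evR_mkR, evR_mkR, evR_mkR, map_mul]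
  map_zero' := RR.ext fun x => by
    rw [evR_mkR, map_zero, map_zero]
  map_add' f g := RR.ext fun x => by
    rw [map_add, evR_mkR, evR_mkR, evR_mkR, map_add]
  commutes' c := RR.ext fun x => by
    rw [evR_mkR, AlgHomClass.commutes, AlgHomClass.commutes]
  map_star' f := RR.ext fun x => by
    rw [map_star, evR_mkR, evR_mkR, map_star]

lemma evR_bigι (f : C(X, ℂ)) (x : X) : evR X x (bigι T f) = dgRep T x f := rfl

/-- constant family -/
def cR (X : Type) (S : HH →L[ℂ] HH) : RR X := mkR X (fun _ => S) ‖S‖ fun _ => le_rfl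

/-- the big unitary -/
def bigu (X : Type) : unitary (RR X) :=
  ⟨cR X shU, by
    rw [Unitary.mem_iff]
    constructor
    · refine RR.ext fun x => ?_
      rw [map_mul, map_star, map_one]
      exact Unitary.coe_star_mul_self shU
    · refine RR.ext fun x => ?_
      rw [map_mul, map_star, map_one]
      exact Unitary.coe_mul_star_self shU⟩

lemma evR_bigu (X : Type) (x : X) : evR X x (bigu X : RR X) = shU := rfl

lemma big_cov : Covariant T (bigι T) (bigu X) := by
  intro f
  refine RR.ext fun x => ?_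
  rw [map_mul, map_mul, map_star, evR_bigu, evR_bigι, evR_bigι]
  exact dg_cov T x f

lemma big_rep (x : X) : IsOrbitRep T (bigι T) (bigu X) x (evR X x) where
  fn f i := dgRep_dl T x f i
  sh i := shOp_dl 1 i

theorem cl_crossed {T : X ≃ₜ X} {R : Type} [CStarAlgebra R] {ι : C(X, ℂ) →⋆ₐ[ℂ] R} {u : unitary R}
    (hc : Covariant T ι u) {ρ : X → (R →⋆ₐ[ℂ] (HH →L[ℂ] HH))}
    (h : ∀ x, IsOrbitRep T ι u x (ρ x)) : IsCrossedProduct T (clι hc) (clu hc) where
  cov := cl_cov hc
  univ B _ π v hπ := by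
    obtain ⟨φ, h1, h2⟩ := hom_ext (cl_cov hc) hπ (cl_dense hc) (fun F => by
      rw [cl_norm]
      refine key_le h hπ F _ (norm_nonneg _) fun x => NonUnitalStarAlgHom.norm_apply_le _ _)
    refine ⟨φ, ⟨h1, h2⟩, fun ψ hψ => hom_unique (cl_dense hc) ψ φ (fun f => ?_) ?_⟩
    · rw [hψ.1, h1]
    · rw [hψ.2, h2]

end rep

theorem cp1 : S_CP1 := by
  intro X _ _ _ T
  exact ⟨Cl (big_cov T), inferInstance, clι (big_cov T), clu (big_cov T),
    cl_crossed (big_cov T) (fun x => big_rep T x)⟩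

theorem cp3_dense {X : Type} [TopologicalSpace X] [CompactSpace X] {T : X ≃ₜ X}
    {A : Type} [CStarAlgebra A] {ι : C(X, ℂ) →⋆ₐ[ℂ] A} {u : unitary A}
    (hA : IsCrossedProduct T ι u) : DenseRange (Lam ι u) := by
  obtain ⟨φ, ⟨h1, h2⟩, -⟩ := hA.univ (Cl hA.cov) (clι hA.cov) (clu hA.cov) (cl_cov hA.cov)
  obtain ⟨ψ, -, hψ⟩ := hA.univ A ι u hA.cov
  have e1 := hψ ((Cl hA.cov).subtype.comp φ) ⟨fun f => by
    show ((φ (ι f) : Cl hA.cov) : A) = _
    rw [h1]; rfl, by
    show ((φ (u : A) : Cl hA.cov) : A) = _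
    rw [h2]; rfl⟩
  have e2 := hψ (StarAlgHom.id ℂ A) ⟨fun f => rfl, rfl⟩
  intro a
  have ha : a ∈ Cl hA.cov := by
    have : a = ((φ a : Cl hA.cov) : A) := by
      have h3 := congrArg (fun f : A →⋆ₐ[ℂ] A => f a) (e2.trans e1.symm)
      exact h3
    rw [this]
    exact (φ a).2
  have h4 : a ∈ closure (LS hA.cov : Set A) := by
    rw [← StarSubalgebra.topologicalClosure_coe]; exact ha
  exact h4

theorem cp3 : S_CP3 := by
  intro X _ _ _ T A _ ι u hA a ε hε
  obtain ⟨_, ⟨F, rfl⟩, hF⟩ := Metric.mem_closure_iff.mp (cp3_dense hA a) ε hε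
  obtain ⟨L, -, hL⟩ := Lam_laur (π := ι) (v := u) F
  refine ⟨L, F, ?_⟩
  rw [dist_eq_norm, hL] at hF
  exact hF

theorem cp2 : S_CP2 := by
  intro X _ _ _ T A _ ι u hA
  have h1 : ∀ x, ∃ π : A →⋆ₐ[ℂ] (HH →L[ℂ] HH), IsOrbitRep T ι u x π := by
    intro x
    obtain ⟨φ, ⟨h1, h2⟩, -⟩ := hA.univ (HH →L[ℂ] HH) (dgRep T x) shU (dg_cov T x)
    refine ⟨φ, ⟨fun f i => ?_, fun i => ?_⟩⟩
    · rw [h1]; exact dgRep_dl T x f i
    · rw [h2]; exact shOp_dl 1 i
  choose π hπ using h1
  have hd := cp3_dense hA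
  refine ⟨π, hπ, ?_, ?_⟩
  · intro a i j
    rw [continuous_iff_continuousAt]
    intro x₀
    rw [Metric.continuousAt_iff']
    intro ε hε
    obtain ⟨_, ⟨F, rfl⟩, hF⟩ := Metric.mem_closure_iff.mp (hd a) (ε / 3) (by positivity)
    rw [dist_eq_norm] at hF
    have h2 : ∀ x, ‖⟪dl i, π x a (dl j)⟫_ℂ - F (i - j) ((T ^ i : X ≃ₜ X) x)‖ < ε / 3 := by
      intro x
      rw [← rep_coef (hπ x) F i j, ← inner_sub_right, ← _root_.sub_apply, ← map_sub]
      refine (coef_le _ _ _).trans_lt ?_
      exact (NonUnitalStarAlgHom.norm_apply_le (π x) _).trans_lt hF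
    have h3 : Continuous fun x => F (i - j) ((T ^ i : X ≃ₜ X) x) :=
      (F (i - j)).continuous.comp (T ^ i : X ≃ₜ X).continuous
    have h4 := (Metric.continuousAt_iff'.mp (h3.continuousAt (x := x₀))) (ε / 3) (by positivity)
    filter_upwards [h4] with x hx
    rw [dist_eq_norm] at hx ⊢
    have h5 := h2 x
    have h6 := h2 x₀
    calc ‖⟪dl i, π x a (dl j)⟫_ℂ - ⟪dl i, π x₀ a (dl j)⟫_ℂ‖
        = ‖(⟪dl i, π x a (dl j)⟫_ℂ - F (i - j) ((T ^ i : X ≃ₜ X) x)) +
          (F (i - j) ((T ^ i : X ≃ₜ X) x) - F (i - j) ((T ^ i : X ≃ₜ X) x₀)) -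
          (⟪dl i, π x₀ a (dl j)⟫_ℂ - F (i - j) ((T ^ i : X ≃ₜ X) x₀))‖ := by congr 1; ring
      _ ≤ ‖(⟪dl i, π x a (dl j)⟫_ℂ - F (i - j) ((T ^ i : X ≃ₜ X) x)) +
          (F (i - j) ((T ^ i : X ≃ₜ X) x) - F (i - j) ((T ^ i : X ≃ₜ X) x₀))‖ +
          ‖⟪dl i, π x₀ a (dl j)⟫_ℂ - F (i - j) ((T ^ i : X ≃ₜ X) x₀)‖ := norm_sub_le _ _
      _ ≤ ‖⟪dl i, π x a (dl j)⟫_ℂ - F (i - j) ((T ^ i : X ≃ₜ X) x)‖ +
          ‖F (i - j) ((T ^ i : X ≃ₜ X) x) - F (i - j) ((T ^ i : X ≃ₜ X) x₀)‖ +
          ‖⟪dl i, π x₀ a (dl j)⟫_ℂ - F (i - j) ((T ^ i : X ≃ₜ X) x₀)‖ := by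
            gcongr; exact norm_add_le _ _
      _ < ε := by linarith
  · intro a ha
    by_contra hne
    have hpos : 0 < ‖a‖ := norm_pos_iff.mpr hne
    obtain ⟨_, ⟨F, rfl⟩, hF⟩ := Metric.mem_closure_iff.mp (hd a) (‖a‖ / 3) (by positivity)
    rw [dist_eq_norm] at hF
    have h2 : ‖Lam ι u F‖ ≤ ‖a‖ / 3 := by
      refine key_le hπ hA.cov F _ (by positivity) fun x => ?_
      have h3 : π x (Lam ι u F) = - π x (a - Lam ι u F) := by
        rw [map_sub, ha x, zero_sub, neg_neg]
      rw [h3, norm_neg]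
      exact (NonUnitalStarAlgHom.norm_apply_le (π x) _).trans hF.le
    have h4 : ‖a‖ ≤ ‖a - Lam ι u F‖ + ‖Lam ι u F‖ := by
      calc ‖a‖ = ‖(a - Lam ι u F) + Lam ι u F‖ := by congr 1; abel
        _ ≤ _ := norm_add_le _ _
    linarith

end Run7.h305.CX
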