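import Pool.Agent.Run7.h305.CX.CP

/-!
# Piece CP4: matrices over a crossed product are the crossed product of a tower
-/

set_option autoImplicit false
set_option linter.unusedSectionVars false

noncomputable section

namespace Run7.h305.CX

open Filter Topology Matrix Run7.h745
open scoped InnerProductSpace ENNReal

/-! ### Homomorphisms from matrix algebras -/

section mat
variable {A B : Type} [CStarAlgebra A] [CStarAlgebra B] {N : ℕ}

/-- generalised matrix units define a homomorphism -/
def matHom (W : Fin N → Fin N → A →ₗ[ℂ] B)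
    (h1 : ∀ i j k l a b, W i j a * W k l b = if j = k then W i l (a * b) else 0)
    (h2 : ∀ i j a, star (W i j a) = W j i (star a)) (h3 : ∑ i, W i i 1 = 1) :
    Mat N A →⋆ₐ[ℂ] B where
  toFun M := ∑ i, ∑ j, W i j ((Mat.of.symm M) i j)
  map_zero' := by simp
  map_one' := by
    rw [← h3]
    refine Finset.sum_congr rfl fun i _ => ?_
    rw [Finset.sum_eq_single i]
    · rw [map_one, Matrix.one_apply_eq]
    · intro j _ hj
      rw [map_one, Matrix.one_apply_ne (Ne.symm hj), map_zero]
    · intro h; exact absurd (Finset.mem_univ i) h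
  map_add' M M' := by
    simp only [map_add, Matrix.add_apply, Finset.sum_add_distrib]
  commutes' c := by
    rw [Algebra.algebraMap_eq_smul_one, Algebra.algebraMap_eq_smul_one, ← h3, Finset.smul_sum]
    refine Finset.sum_congr rfl fun i _ => ?_
    rw [Finset.sum_eq_single i]
    · rw [map_smul, map_one, Matrix.smul_apply, Matrix.one_apply_eq, map_smul]
    · intro j _ hj
      rw [map_smul, map_one, Matrix.smul_apply, Matrix.one_apply_ne (Ne.symm hj), smul_zero, map_zero]
    · intro h; exact absurd (Finset.mem_univ i) h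
  map_mul' M M' := by
    calc ∑ i, ∑ l, W i l ((Mat.of.symm (M * M')) i l)
        = ∑ i, ∑ l, ∑ j, W i l ((Mat.of.symm M) i j * (Mat.of.symm M') j l) := by
          refine Finset.sum_congr rfl fun i _ => Finset.sum_congr rfl fun l _ => ?_
          rw [map_mul, Matrix.mul_apply, map_sum]
      _ = ∑ i, ∑ j, ∑ l, W i l ((Mat.of.symm M) i j * (Mat.of.symm M') j l) :=
          Finset.sum_congr rfl fun i _ => Finset.sum_comm
      _ = ∑ i, ∑ j, ∑ k, ∑ l, W i j ((Mat.of.symm M) i j) * W k l ((Mat.of.symm M') k l) := by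
          refine Finset.sum_congr rfl fun i _ => Finset.sum_congr rfl fun j _ => ?_
          symm
          rw [Finset.sum_eq_single j]
          · refine Finset.sum_congr rfl fun l _ => ?_
            rw [h1, if_pos rfl]
          · intro k _ hk
            refine Finset.sum_eq_zero fun l _ => ?_
            rw [h1, if_neg (Ne.symm hk)]
          · intro h; exact absurd (Finset.mem_univ j) h
      _ = _ := by
          rw [Finset.sum_mul]
          refine Finset.sum_congr rfl fun i _ => ?_
          rw [Finset.sum_mul]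
          refine Finset.sum_congr rfl fun j _ => ?_
          rw [Finset.mul_sum]
          refine Finset.sum_congr rfl fun k _ => ?_
          rw [Finset.mul_sum]
  map_star' M := by
    simp only [star_sum, h2, map_star, Matrix.star_apply]
    rw [Finset.sum_comm]

lemma matHom_apply (W : Fin N → Fin N → A →ₗ[ℂ] B)
    (h1 : ∀ i j k l a b, W i j a * W k l b = if j = k then W i l (a * b) else 0)
    (h2 : ∀ i j a, star (W i j a) = W j i (star a)) (h3 : ∑ i, W i i 1 = 1)
    (M : Matrix (Fin N) (Fin N) A) : matHom W h1 h2 h3 (Mat.of M) = ∑ i, ∑ j, W i j (M i j) := rfl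

end mat

/-! ### Functions on the tower -/

section tow
variable {X : Type} [TopologicalSpace X] [CompactSpace X] {T : X ≃ₜ X} {K : ℕ}

/-- the function `g` on level `p` -/
def JJ (p : Fin (K + 1)) (g : C(X, ℂ)) : C(X × Fin (K + 1), ℂ) :=
  ⟨fun y => if y.2 = p then g y.1 else 0, by
    rw [continuous_prod_of_discrete_right]
    intro q
    by_cases h : q = p
    · simp only [h, if_true]; fun_prop
    · simp only [h, if_false]; fun_prop⟩

lemma JJ_apply (p q : Fin (K + 1)) (g : C(X, ℂ)) (x : X) :
    JJ p g (x, q) = if q = p then g x else 0 := rfl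

lemma JJ_mul (p q : Fin (K + 1)) (g h : C(X, ℂ)) :
    JJ p g * JJ q h = if p = q then JJ p (g * h) else 0 := by
  ext ⟨x, r⟩
  rw [ContinuousMap.mul_apply, JJ_apply, JJ_apply]
  by_cases hpq : p = q
  · subst hpq
    rw [if_pos rfl, JJ_apply]
    by_cases h : r = p
    · rw [if_pos h, if_pos h, if_pos h]; rfl
    · rw [if_neg h, if_neg h, if_neg h, mul_zero]
  · rw [if_neg hpq]
    by_cases h : r = p
    · rw [if_neg (fun h' => hpq (h.symm.trans h')), mul_zero]; rfl
    · rw [if_neg h, zero_mul]; rfl

lemma JJ_star (p : Fin (K + 1)) (g : C(X, ℂ)) : star (JJ p g) = JJ p (star g) := by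
  ext ⟨x, r⟩
  rw [ContinuousMap.star_apply, JJ_apply, JJ_apply]
  split_ifs
  · rfl
  · exact star_zero _

/-- slices -/
def sl (f : C(X × Fin (K + 1), ℂ)) (p : Fin (K + 1)) : C(X, ℂ) :=
  f.comp ⟨fun x => (x, p), by fun_prop⟩

lemma sl_apply (f : C(X × Fin (K + 1), ℂ)) (p : Fin (K + 1)) (x : X) : sl f p x = f (x, p) := rfl

lemma sum_JJ (f : C(X × Fin (K + 1), ℂ)) : ∑ p, JJ p (sl f p) = f := by
  ext ⟨x, r⟩
  rw [ContinuousMap.sum_apply, Finset.sum_eq_single r]
  · rw [JJ_apply, if_pos rfl, sl_apply]
  · intro p _ hp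
    rw [JJ_apply, if_neg (Ne.symm hp)]
  · intro h; exact absurd (Finset.mem_univ r) h

lemma sl_JJ (p q : Fin (K + 1)) (g : C(X, ℂ)) : sl (JJ p g) q = if q = p then g else 0 := by
  ext x
  rw [sl_apply, JJ_apply]
  split_ifs <;> rfl

/-- the action of the homeomorphism on the levels -/
def dT (T : X ≃ₜ X) (p : Fin (K + 1)) (g : C(X, ℂ)) : C(X, ℂ) :=
  if p = Fin.last K then pull T g else g

lemma tower_apply {T' : X × Fin (K + 1) ≃ₜ X × Fin (K + 1)} (hT' : IsTower T K T')
    (x : X) (p : Fin (K + 1)) : T' (x, p) = (if p = Fin.last K then T x else x, p + 1) := by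
  rw [hT']
  by_cases h : p = Fin.last K
  · rw [if_pos h, h, Fin.last_add_one]
    simp [towerFun]
  · rw [if_neg h]
    have h1 : (p : ℕ) < K := by
      have h2 := p.2
      have h3 : (p : ℕ) ≠ K := fun h' => h (Fin.ext h')
      omega
    have h2 : p + 1 = ⟨(p : ℕ) + 1, by omega⟩ := by
      apply Fin.ext
      rw [Fin.val_add_one_of_lt]
      exact Fin.lt_def.mpr (by simpa using h1)
    rw [h2]
    simp [towerFun, h1]

lemma tower_symm {T' : X × Fin (K + 1) ≃ₜ X × Fin (K + 1)} (hT' : IsTower T K T')
    (x : X) (p : Fin (K + 1)) :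
    T'.symm (x, p + 1) = (if p = Fin.last K then T.symm x else x, p) := by
  apply T'.injective
  rw [Homeomorph.apply_symm_apply, tower_apply hT']
  by_cases h : p = Fin.last K
  · rw [if_pos h, if_pos h, Homeomorph.apply_symm_apply]
  · rw [if_neg h, if_neg h]

lemma pull_JJ {T' : X × Fin (K + 1) ≃ₜ X × Fin (K + 1)} (hT' : IsTower T K T')
    (p : Fin (K + 1)) (g : C(X, ℂ)) : pull T' (JJ p g) = JJ (p + 1) (dT T p g) := by
  ext ⟨x, q⟩
  obtain ⟨r, rfl⟩ : ∃ r, q = r + 1 := ⟨q - 1, (sub_add_cancel q 1).symm⟩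
  show JJ p g (T'.symm (x, r + 1)) = _
  rw [tower_symm hT', JJ_apply, JJ_apply]
  by_cases h : r = p
  · subst h
    rw [if_pos rfl, if_pos rfl, dT]
    split_ifs <;> rfl
  · rw [if_neg h, if_neg (fun h' => h (add_right_cancel h'))]

end tow

/-! ### The covariant pair in matrices -/

section cp
variable {X : Type} [TopologicalSpace X] [CompactSpace X] {T : X ≃ₜ X} {K : ℕ}
  {A : Type} [CStarAlgebra A] {ι : C(X, ℂ) →⋆ₐ[ℂ] A} {u : unitary A}

/-- diagonal representation -/
def dι (K : ℕ) (ι : C(X, ℂ) →⋆ₐ[ℂ] A) : C(X × Fin (K + 1), ℂ) →⋆ₐ[ℂ] Mat (K + 1) A where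
  toFun f := Mat.of (Matrix.diagonal fun p => ι (sl f p))
  map_one' := by
    have : (Matrix.diagonal fun p : Fin (K + 1) => ι (sl 1 p)) = 1 := by
      rw [← Matrix.diagonal_one]
      congr 1
      funext p
      exact map_one ι
    rw [this, map_one]
  map_mul' f g := by
    rw [← map_mul, Matrix.diagonal_mul_diagonal]
    congr 2
    funext p
    exact map_mul ι (sl f p) (sl g p)
  map_zero' := by
    have : (Matrix.diagonal fun p : Fin (K + 1) => ι (sl 0 p)) = 0 := by
      rw [← Matrix.diagonal_zero]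
      congr 1
      funext p
      exact map_zero ι
    rw [this, map_zero]
  map_add' f g := by
    rw [← map_add, Matrix.diagonal_add]
    congr 2
    funext p
    exact map_add ι (sl f p) (sl g p)
  commutes' c := by
    rw [Algebra.algebraMap_eq_smul_one, Algebra.algebraMap_eq_smul_one]
    have : (Matrix.diagonal fun p : Fin (K + 1) => ι (sl (c • 1) p)) = c • 1 := by
      rw [← Matrix.diagonal_one, ← Matrix.diagonal_smul]
      congr 1
      funext p
      show ι (c • 1) = c • 1
      rw [map_smul, map_one]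
    rw [this, map_smul, map_one]
  map_star' f := by
    rw [← map_star, Matrix.star_eq_conjTranspose, Matrix.diagonal_conjTranspose]
    congr 2
    funext p
    exact map_star ι (sl f p)

lemma dι_apply (f : C(X × Fin (K + 1), ℂ)) :
    dι K ι f = Mat.of (Matrix.diagonal fun p => ι (sl f p)) := rfl

lemma dι_JJ (p : Fin (K + 1)) (g : C(X, ℂ)) :
    dι K ι (JJ p g) = Mat.of (Matrix.single p p (ι g)) := by
  rw [dι_apply]
  congr 1
  ext a b
  rw [Matrix.single_apply, Matrix.diagonal_apply, sl_JJ]
  by_cases h : a = p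
  · subst h
    by_cases h' : a = b
    · rw [if_pos h', if_pos rfl, if_pos ⟨rfl, h'⟩]
    · rw [if_neg h', if_neg (fun h'' : a = a ∧ a = b => h' h''.2)]
  · rw [if_neg h, map_zero, if_neg (fun h'' : p = a ∧ p = b => h h''.1.symm), ite_self]

/-- entries of the unitary -/
def dd (K : ℕ) (u : unitary A) (q : Fin (K + 1)) : A := if q = Fin.last K then (u : A) else 1

lemma dd_star_mul (q : Fin (K + 1)) : star (dd K u q) * dd K u q = 1 := by
  unfold dd
  split_ifs
  · exact Unitary.coe_star_mul_self u
  · simp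

lemma dd_mul_star (q : Fin (K + 1)) : dd K u q * star (dd K u q) = 1 := by
  unfold dd
  split_ifs
  · exact Unitary.coe_mul_star_self u
  · simp

/-- the matrix of the unitary -/
def UU (K : ℕ) (u : unitary A) : Matrix (Fin (K + 1)) (Fin (K + 1)) A :=
  Matrix.of fun p q => if p = q + 1 then dd K u q else 0

lemma UU_star_mul : star (UU K u) * UU K u = 1 := by
  ext q r
  rw [Matrix.mul_apply]
  rw [Finset.sum_eq_single (q + 1)]
  · rw [Matrix.star_apply, UU, Matrix.of_apply, Matrix.of_apply, if_pos rfl]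
    by_cases h : q = r
    · rw [h, if_pos rfl, dd_star_mul, Matrix.one_apply_eq]
    · rw [if_neg (fun h' => h (add_right_cancel h')), mul_zero, Matrix.one_apply_ne h]
  · intro p _ hp
    rw [Matrix.star_apply, UU, Matrix.of_apply, if_neg hp, star_zero, zero_mul]
  · intro h; exact absurd (Finset.mem_univ _) h

lemma UU_conj (g : Fin (K + 1) → A) : UU K u * Matrix.diagonal g * star (UU K u) =
    Matrix.diagonal fun p => dd K u (p - 1) * g (p - 1) * star (dd K u (p - 1)) := by
  ext p r
  rw [Matrix.mul_apply, Finset.sum_eq_single (p - 1)]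
  · rw [Matrix.mul_diagonal, Matrix.star_apply, UU, Matrix.of_apply, Matrix.of_apply,
      if_pos (sub_add_cancel p 1).symm, Matrix.diagonal_apply]
    by_cases h : p = r
    · rw [if_pos h, ← h, if_pos (sub_add_cancel p 1).symm]
    · rw [if_neg h, if_neg (fun h' => h (by rw [h', sub_add_cancel])), star_zero, mul_zero]
  · intro q _ hq
    rw [Matrix.mul_diagonal, UU, Matrix.of_apply, if_neg (fun h => hq (by rw [h, add_sub_cancel_right])),
      zero_mul, zero_mul]
  · intro h; exact absurd (Finset.mem_univ _) h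

lemma UU_mul_star : UU K u * star (UU K u) = 1 := by
  have h := UU_conj (K := K) (u := u) (fun _ => (1 : A))
  have h1 : Matrix.diagonal (fun _ : Fin (K + 1) => (1 : A)) = 1 := Matrix.diagonal_one
  rw [h1, mul_one] at h
  rw [h, ← Matrix.diagonal_one]
  congr 1
  funext p
  rw [mul_one, dd_mul_star]

def du (K : ℕ) (u : unitary A) : unitary (Mat (K + 1) A) :=
  ⟨Mat.of (UU K u), by
    rw [Unitary.mem_iff, ← map_star, ← map_mul, ← map_mul, UU_star_mul, UU_mul_star, map_one]
    exact ⟨rfl, rfl⟩⟩

lemma du_coe : (du K u : Mat (K + 1) A) = Mat.of (UU K u) := rfl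

lemma d_cov (hc : Covariant T ι u) {T' : X × Fin (K + 1) ≃ₜ X × Fin (K + 1)}
    (hT' : IsTower T K T') : Covariant T' (dι K ι) (du K u) := by
  intro f
  rw [dι_apply, dι_apply, du_coe, ← map_star, ← map_mul, ← map_mul, UU_conj]
  congr 2
  funext p
  have h1 : sl (pull T' f) p = dT T (p - 1) (sl f (p - 1)) := by
    ext x
    show f (T'.symm (x, p)) = _
    have h2 := tower_symm hT' x (p - 1)
    rw [sub_add_cancel] at h2
    rw [h2]
    unfold dT
    split_ifs <;> rfl
  rw [h1]
  unfold dd dT
  split_ifs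
  · exact hc _
  · rw [one_mul, star_one, mul_one]

end cp

end Run7.h305.CX
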