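import Pool.Agent.Run7.h745.K0lem

/-!
# Piece L, part 1: from `K_0` to an equivalence with a diagonal projection
-/

set_option autoImplicit false
set_option linter.unusedSectionVars false

noncomputable section

namespace Run7.h305.CX

open Filter Topology Matrix Run7.h745 Pool.Agent.TH249
open scoped ENNReal NNReal ComplexOrder

section
variable {A : Type} [CStarAlgebra A]

/-- cancellation in `K_0` -/
lemma ofV_eq {x y : V A} (h : K0.ofV A x = K0.ofV A y) : ∃ c, x + c = y + c := by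
  obtain ⟨P, rfl⟩ := V.exists_rep x
  obtain ⟨Q, rfl⟩ := V.exists_rep y
  obtain ⟨R, hR⟩ := K0.cls_eq.mp (show K0.cls P = K0.cls Q from h)
  refine ⟨V.mk R, ?_⟩
  rw [V.mk_add, V.mk_add, V.mk_eq]
  exact hR

/-- the class of the unit -/
def vone (A : Type) [CStarAlgebra A] : V A := v1 (1 : A) (IsStarProjection.one A)

lemma vI_one {I : Type} [Fintype I] [DecidableEq I] (h : IsPrj (1 : Matrix I I A)) :
    vI (1 : Matrix I I A) h = Fintype.card I • vone A := by
  have h1 := vI_diag (fun _ : I => (1 : A)) (fun _ => IsStarProjection.one A)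
  have h2 : (Matrix.diagonal fun _ : I => (1 : A)) = 1 := Matrix.diagonal_one
  rw [vI_congr _ h h2] at h1
  rw [h1, Finset.sum_const, Finset.card_univ]
  rfl

/-- complements -/
lemma exists_compl (c : V A) : ∃ (c' : V A) (p : ℕ), c + c' = p • vone A := by
  obtain ⟨P, rfl⟩ := V.exists_rep c
  have hP := P.isPrj
  have hQ : IsPrj (1 - P.mat) := by
    refine ⟨?_, ?_⟩
    · rw [conjTranspose_sub, conjTranspose_one, hP.1]
    · rw [Matrix.sub_mul, Matrix.mul_sub, Matrix.mul_sub, hP.2, Matrix.mul_one, Matrix.one_mul,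
        Matrix.mul_one]
      abel
  have h1 : IsPrj (1 : Matrix (Fin P.n) (Fin P.n) A) :=
    ⟨conjTranspose_one, Matrix.one_mul 1⟩
  refine ⟨vI (1 - P.mat) hQ, P.n, ?_⟩
  rw [vI_mk, ← vI_blocks hP hQ]
  have h2 : vI (1 : Matrix (Fin P.n) (Fin P.n) A) h1 = P.n • vone A := by
    rw [vI_one, Fintype.card_fin]
  rw [← h2, vI_eq]
  have hPQ : P.mat * (1 - P.mat) = 0 := by
    rw [Matrix.mul_sub, hP.2, Matrix.mul_one, sub_self]
  have hQP : (1 - P.mat) * P.mat = 0 := by
    rw [Matrix.sub_mul, hP.2, Matrix.one_mul, sub_self]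
  refine ⟨Matrix.fromCols P.mat (1 - P.mat), ?_, ?_⟩
  · rw [Matrix.conjTranspose_fromCols_eq_fromRows_conjTranspose, Matrix.fromRows_mul_fromCols,
      hP.1, hQ.1, hP.2, hQ.2, hPQ, hQP]
  · rw [Matrix.conjTranspose_fromCols_eq_fromRows_conjTranspose, Matrix.fromCols_mul_fromRows,
      hP.1, hQ.1, hP.2, hQ.2]
    abel

variable {X : Type} [TopologicalSpace X] [CompactSpace X] {T : X ≃ₜ X} (D : TowerData X T)
  {ι : C(X, ℂ) →⋆ₐ[ℂ] A} {u : unitary A}

/-- the unit is the sum of the levels -/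
lemma vone_eq (hc : Covariant T ι u) (n : ℕ) : vone A = D.h n • (vS ι (D.VT n false)
    (D.isClopen_VT n false) + vS ι (D.VT n true) (D.isClopen_VT n true)) := by
  classical
  have hcl : ∀ i : ℕ, IsClopen ((T ^ (-(i : ℤ)) : X ≃ₜ X) ⁻¹' D.V n) := fun i =>
    isClopen_pre T _ (D.isClopen_V n)
  obtain ⟨hs, h1⟩ := v1_sum (Finset.range (D.h n))
    (fun i => ι (ind ((T ^ (-(i : ℤ)) : X ≃ₜ X) ⁻¹' D.V n)))
    (fun i => isStarProjection_ind ι (hcl i)) (by
      intro i hi j hj hij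
      rw [← map_mul, ind_disj (hcl i) (hcl j), map_zero]
      rw [Set.disjoint_left]
      intro x hx hx'
      obtain ⟨k, -, hk⟩ := D.part n x
      exact hij ((hk i ⟨Finset.mem_range.mp hi, hx⟩).trans
        (hk j ⟨Finset.mem_range.mp hj, hx'⟩).symm))
  have h2 : ∑ i ∈ Finset.range (D.h n), ι (ind ((T ^ (-(i : ℤ)) : X ≃ₜ X) ⁻¹' D.V n)) = 1 := by
    rw [← map_sum, ← map_one ι]
    congr 1
    ext x
    rw [ContinuousMap.sum_apply]
    obtain ⟨k, ⟨hk1, hk2⟩, hk⟩ := D.part n x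
    rw [Finset.sum_eq_single k]
    · rw [ind_mem (hcl k) hk2]; rfl
    · intro i hi hik
      exact ind_notMem (hcl i) (fun h => hik (hk i ⟨Finset.mem_range.mp hi, h⟩))
    · intro h; exact absurd (Finset.mem_range.mpr hk1) h
  have h3 : ∀ i : ℕ, v1 (ι (ind ((T ^ (-(i : ℤ)) : X ≃ₜ X) ⁻¹' D.V n)))
      (isStarProjection_ind ι (hcl i)) = vS ι (D.V n) (D.isClopen_V n) := fun i =>
    vS_shift hc (D.isClopen_V n) (-(i : ℤ))
  simp only [h3] at h1
  rw [Finset.sum_const, Finset.card_range] at h1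
  have h4 : vS ι (D.V n) (D.isClopen_V n) = vS ι (D.VT n false) (D.isClopen_VT n false) +
      vS ι (D.VT n true) (D.isClopen_VT n true) := by
    rw [← vS_union (D.isClopen_VT n false) (D.isClopen_VT n true) (D.VT_disj n)]
    exact vS_congr (D.isClopen_V n) (D.VT_union n).symm
  rw [← h4, ← h1]
  exact v1_congr _ h2.symm

/-- a projection whose class is an integral combination of the generators becomes a sum of
generators after adding units -/
lemma exists_sum (hc : Covariant T ι u) (n : ℕ) (x : V A) (r : Bool → ℤ) (g : Bool → Prj A)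
    (hg : IsG D ι n g)
    (hx : K0.ofV A x = r false • K0.cls (g false) + r true • K0.cls (g true)) :
    ∃ (Q : ℕ) (R : Bool → ℕ), x + Q • vone A = R false • vS ι (D.VT n false)
      (D.isClopen_VT n false) + R true • vS ι (D.VT n true) (D.isClopen_VT n true) := by
  obtain ⟨q, hq⟩ : ∃ q : ℕ, ∀ s, 0 ≤ r s + q * D.h n := by
    obtain ⟨q, hq0⟩ : ∃ q : ℕ, ∀ s, -(q : ℤ) ≤ r s :=
      ⟨(r false).natAbs + (r true).natAbs, fun s => by cases s <;> omega⟩
    refine ⟨q, fun s => ?_⟩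
    have hh : (1 : ℤ) ≤ D.h n := by exact_mod_cast D.h_pos n
    have h2 := hq0 s
    have h3 : (0 : ℤ) ≤ q := by positivity
    nlinarith
  obtain ⟨gf, hgf⟩ : ∃ gf : Bool → V A, ∀ s, gf s = vS ι (D.VT n s) (D.isClopen_VT n s) :=
    ⟨_, fun _ => rfl⟩
  have h0 : K0.ofV A (x + q • vone A) = K0.ofV A ((r false + q * D.h n).toNat • gf false
      + (r true + q * D.h n).toNat • gf true) := by
    have hgs : ∀ s, K0.cls (g s) = K0.ofV A (gf s) := fun s => by
      rw [hgf, ← hg.cls D s]; rfl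
    rw [map_add, map_add, hx, vone_eq D hc n, hgs, hgs, ← hgf, ← hgf]
    simp only [map_nsmul, map_add]
    have h1 : ∀ s, (r s + q * D.h n).toNat • K0.ofV A (gf s)
        = r s • K0.ofV A (gf s) + q • D.h n • K0.ofV A (gf s) := by
      intro s
      rw [← natCast_zsmul, Int.toNat_of_nonneg (hq s), add_zsmul]
      congr 1
      rw [← Nat.cast_mul, natCast_zsmul, mul_nsmul']
    rw [h1, h1]
    simp only [smul_add]
    abel
  obtain ⟨c, hc'⟩ := ofV_eq h0
  obtain ⟨c', p, hp⟩ := exists_compl c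
  refine ⟨q + p, fun s => (r s + q * D.h n).toNat + p * D.h n, ?_⟩
  have h2 : x + (q + p) • vone A = (x + q • vone A + c) + c' := by
    rw [add_smul, ← hp]; abel
  rw [h2, hc', add_assoc _ c c', hp, vone_eq D hc n, ← hgf, ← hgf]
  simp only [add_smul, smul_add, mul_smul]
  abel

/-- the diagonal projection -/
lemma exists_eqv (hc : Covariant T ι u) (n : ℕ) {l : ℕ} (e : Matrix (Fin l) (Fin l) A)
    (he : IsPrj e) (r : Bool → ℤ) (g : Bool → Prj A) (hg : IsG D ι n g)
    (hx : K0.cls ⟨l, e, he⟩ = r false • K0.cls (g false) + r true • K0.cls (g true)) :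
    ∃ (Q l' : ℕ) (σ : Fin l' → Bool) (w : Matrix (Fin l') (Fin l ⊕ Fin Q) A),
      wᴴ * w = Matrix.fromBlocks e 0 0 1 ∧
      w * wᴴ = Matrix.diagonal fun j => ι (ind (D.VT n (σ j))) := by
  obtain ⟨Q, R, h⟩ := exists_sum D hc n (V.mk ⟨l, e, he⟩) r g hg hx
  have h1 : IsPrj (1 : Matrix (Fin Q) (Fin Q) A) := ⟨conjTranspose_one, Matrix.one_mul 1⟩
  have h2 := vI_blocks he h1
  rw [vI_one, Fintype.card_fin] at h2
  have h3 : V.mk ⟨l, e, he⟩ = vI e he := vI_mk ⟨l, e, he⟩
  rw [h3, ← h2] at h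
  obtain ⟨σ, hσ⟩ : ∃ σ : Fin (R false + R true) → Bool,
    σ = fun j => Sum.elim (fun _ => false) (fun _ => true) (finSumFinEquiv.symm j) := ⟨_, rfl⟩
  have h4 := vI_diag (fun j => ι (ind (D.VT n (σ j))))
    (fun j => isStarProjection_ind ι (D.isClopen_VT n (σ j)))
  have h5 : ∑ j, v1 (ι (ind (D.VT n (σ j)))) (isStarProjection_ind ι (D.isClopen_VT n (σ j)))
      = R false • vS ι (D.VT n false) (D.isClopen_VT n false) +
        R true • vS ι (D.VT n true) (D.isClopen_VT n true) := by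
    obtain ⟨gf, hgf⟩ : ∃ gf : Bool → V A, ∀ s, vS ι (D.VT n s) (D.isClopen_VT n s) = gf s :=
      ⟨_, fun _ => rfl⟩
    show ∑ j, vS ι (D.VT n (σ j)) (D.isClopen_VT n (σ j)) = _
    simp only [hgf]
    rw [← Equiv.sum_comp finSumFinEquiv, Fintype.sum_sum_type]
    simp only [hσ, Equiv.symm_apply_apply, Sum.elim_inl, Sum.elim_inr]
    rw [Finset.sum_const, Finset.sum_const, Finset.card_univ, Finset.card_univ, Fintype.card_fin,
      Fintype.card_fin]
  rw [← h5, ← h4, vI_eq] at h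
  obtain ⟨w, hw1, hw2⟩ := h
  exact ⟨Q, _, σ, w, hw1, hw2⟩

end

end Run7.h305.CX
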