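import Pool.Agent.Run7.h745.Basic3

/-!
# Piece QTR, part 1: quasitraces, roots
-/

set_option autoImplicit false
set_option linter.unusedSectionVars false

noncomputable section

namespace Run7.h305.CX

open Filter Topology Matrix Run7.h745
open scoped ENNReal NNReal ComplexOrder

section qt
variable {R : Type} [Ring R] [StarRing R] [Algebra ℂ R] {τ : R → ℂ}

lemma qt_zero (h : IsQuasitrace τ) : τ 0 = 0 := by
  have h1 := h.linear 1 0 0 inferInstance inferInstance (Commute.refl 0) (by
    rw [star_zero])
  rw [smul_zero, add_zero, one_mul] at h1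
  have h2 : τ 0 + τ 0 = τ 0 + 0 := by rw [add_zero]; exact h1.symm
  exact add_left_cancel h2

lemma qt_add (h : IsQuasitrace τ) {x y : R} (hx : IsSelfAdjoint x) (hy : IsSelfAdjoint y)
    (hc : Commute x y) : τ (x + y) = τ x + τ y := by
  have h1 := h.linear 1 x y hx.isStarNormal hy.isStarNormal hc (by rwa [hy.star_eq])
  rwa [one_smul, one_mul] at h1

lemma qt_sum (h : IsQuasitrace τ) {I : Type} (s : Finset I) (x : I → R)
    (hx : ∀ i, IsSelfAdjoint (x i)) (hc : ∀ i j, Commute (x i) (x j)) :
    τ (∑ i ∈ s, x i) = ∑ i ∈ s, τ (x i) := by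
  classical
  induction s using Finset.induction_on with
  | empty => rw [Finset.sum_empty, Finset.sum_empty, qt_zero h]
  | insert i s hi ih =>
    rw [Finset.sum_insert hi, Finset.sum_insert hi, qt_add h (hx i) ?_ ?_, ih]
    · exact isSelfAdjoint_sum _ fun j _ => hx j
    · exact Commute.sum_right _ _ _ fun j _ => hc i j

end qt

section root
variable {B : Type} [CStarAlgebra B]

lemma cfc_root_ge (b x y : B) (hx : b = star x * x) (hy : 1 - b = star y * y) (k : ℕ) :
    ∃ w : B, cfc (fun t : ℝ => t ^ ((1 : ℝ) / (k + 1))) b = b + star w * w ∧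
      Commute b (star w * w) := by
  let _ : PartialOrder B := CStarAlgebra.spectralOrder B
  have _ : StarOrderedRing B := CStarAlgebra.spectralOrderedRing B
  have hb0 : 0 ≤ b := by rw [hx]; exact star_mul_self_nonneg x
  have hb1 : 0 ≤ 1 - b := by rw [hy]; exact star_mul_self_nonneg y
  have hbs : IsSelfAdjoint b := IsSelfAdjoint.of_nonneg hb0
  have hs0 : ∀ t ∈ spectrum ℝ b, 0 ≤ t := fun t ht => spectrum_nonneg_of_nonneg hb0 ht
  have hs1 : ∀ t ∈ spectrum ℝ b, t ≤ 1 := by
    have h1 : b ≤ algebraMap ℝ B 1 := by rw [map_one]; exact sub_nonneg.mp hb1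
    exact (le_algebraMap_iff_spectrum_le (a := b) (r := 1) hbs).mp h1
  have hcont : ContinuousOn (fun t : ℝ => t ^ ((1 : ℝ) / (k + 1))) (spectrum ℝ b) := by
    refine Continuous.continuousOn ?_
    exact Real.continuous_rpow_const (by positivity)
  have hge : ∀ t ∈ spectrum ℝ b, t ≤ t ^ ((1 : ℝ) / (k + 1)) := by
    intro t ht
    have h0 := hs0 t ht
    have h1 := hs1 t ht
    rcases h0.eq_or_lt with h | h
    · rw [← h, Real.zero_rpow (by positivity)]
    · conv_lhs => rw [← Real.rpow_one t]
      refine Real.rpow_le_rpow_of_exponent_ge h h1 ?_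
      rw [div_le_one (by positivity)]
      have : (0 : ℝ) ≤ k := by positivity
      linarith
  obtain ⟨g, hg⟩ : ∃ g : ℝ → ℝ, g = fun t => Real.sqrt (t ^ ((1 : ℝ) / (k + 1)) - t) := ⟨_, rfl⟩
  have hgc : ContinuousOn g (spectrum ℝ b) := by
    rw [hg]
    exact (hcont.sub continuousOn_id).sqrt
  have hgg : ∀ t ∈ spectrum ℝ b, g t * g t = t ^ ((1 : ℝ) / (k + 1)) - t := by
    intro t ht
    rw [hg]
    exact Real.mul_self_sqrt (sub_nonneg.mpr (hge t ht))
  refine ⟨cfc g b, ?_, ?_⟩
  · have h1 : star (cfc g b) = cfc g b := (cfc_predicate g b : IsSelfAdjoint _).star_eq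
    rw [h1, ← cfc_mul g g b hgc hgc]
    have h2 : cfc (fun t => g t * g t) b = cfc (fun t : ℝ => t ^ ((1 : ℝ) / (k + 1)) - t) b :=
      cfc_congr hgg
    have h4 : cfc (fun t : ℝ => t ^ ((1 : ℝ) / (k + 1)) - t) b
        = cfc (fun t : ℝ => t ^ ((1 : ℝ) / (k + 1))) b - cfc (fun t : ℝ => t) b :=
      cfc_sub (fun t : ℝ => t ^ ((1 : ℝ) / (k + 1))) (fun t : ℝ => t) b hcont
        continuous_id.continuousOn
    have h3 : cfc (fun t : ℝ => t) b = b := cfc_id' ℝ b
    rw [h2, h4, h3]; abel
  · have h1 : star (cfc g b) = cfc g b := (cfc_predicate g b : IsSelfAdjoint _).star_eq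
    rw [h1]
    have h3 : Commute b (cfc g b) := (cfc_commute_cfc id g b |>.symm |> fun h => by
      rw [cfc_id ℝ b] at h; exact h.symm)
    exact h3.mul_right h3

lemma cfc_root_proj (a : B) (ha : IsStarProjection a) (k : ℕ) :
    cfc (fun t : ℝ => t ^ ((1 : ℝ) / (k + 1))) a = a := by
  have hs : IsSelfAdjoint a := ha.isSelfAdjoint
  have h1 : ∀ t ∈ spectrum ℝ a, t ^ ((1 : ℝ) / (k + 1)) = t := by
    intro t ht
    have h2 : t = 0 ∨ t = 1 := by
      have := ha.isIdempotentElem.spectrum_subset ℝ ht
      simpa using this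
    rcases h2 with h | h
    · rw [h, Real.zero_rpow (by positivity)]
    · rw [h, Real.one_rpow]
  rw [cfc_congr h1]
  exact cfc_id' ℝ a

end root

section QTs
variable {A : Type} [CStarAlgebra A]

lemma qt_rank_ge (τ : QT A) {N : ℕ} (b x y : Matrix (Fin N) (Fin N) A) (hx : b = xᴴ * x)
    (hy : 1 - b = yᴴ * y) (c : ℝ) (hc : c ≤ (τ.val N b).re) : ENNReal.ofReal c ≤ τ.rank b := by
  refine le_liminf_of_le (by isBoundedDefault) (Eventually.of_forall fun k => ?_)
  refine ENNReal.ofReal_le_ofReal (hc.trans ?_)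
  obtain ⟨w, hw1, hw2⟩ := cfc_root_ge (B := Mat N A) (Mat.of b) (Mat.of x) (Mat.of y)
    (by rw [hx, map_mul, ← map_star]; rfl) (by
      have := congrArg Mat.of hy
      rw [map_sub, map_one, map_mul] at this
      rw [this, ← map_star]; rfl) k
  have h1 : root b k = b + (Mat.of.symm w)ᴴ * (Mat.of.symm w) := by
    unfold root
    rw [hw1]
    rfl
  have h2 : Commute b ((Mat.of.symm w)ᴴ * (Mat.of.symm w)) := hw2
  rw [h1, qt_add (τ.isQuasitrace N) ?_ ?_ h2, Complex.add_re]
  · have := ((τ.isQuasitrace N).nonneg (Mat.of.symm w)).1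
    have h3 : star (Mat.of.symm w) * (Mat.of.symm w) = (Mat.of.symm w)ᴴ * (Mat.of.symm w) := rfl
    rw [h3] at this
    linarith
  · rw [hx]; exact IsSelfAdjoint.star_mul_self x
  · exact IsSelfAdjoint.star_mul_self (Mat.of.symm w)

lemma qt_corner_one (τ : QT A) (k : ℕ) :
    τ.val (k + 1) (Matrix.diagonal (fun i => if i = 0 then 1 else 0)) = 1 := by
  induction k with
  | zero =>
    have : (Matrix.diagonal (fun i : Fin (0 + 1) => if i = 0 then (1 : A) else 0)) = 1 := by
      rw [← Matrix.diagonal_one]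
      congr 1
      funext i
      rw [if_pos (by omega)]
    rw [this]
    exact τ.map_one
  | succ k ih =>
    refine Eq.trans ?_ ((τ.corner (k + 1) _).trans ih)
    congr 1
    ext i j
    rw [corner, Matrix.of_apply]
    by_cases hij : i = j
    · subst hij
      rw [diagonal_apply_eq]
      by_cases hi : (i : ℕ) < k + 1
      · rw [dif_pos ⟨hi, hi⟩, diagonal_apply_eq]
        by_cases h0 : i = 0
        · subst h0
          rw [if_pos rfl, if_pos (by ext; simp)]
        · rw [if_neg h0, if_neg]
          intro h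
          apply h0
          have := congrArg Fin.val h
          ext
          simpa using this
      · rw [dif_neg (fun h => hi h.1), if_neg]
        rintro rfl
        exact hi (by simp)
    · rw [diagonal_apply_ne _ hij]
      split_ifs with h
      · rw [diagonal_apply_ne]
        intro h'
        exact hij (Fin.ext (by simpa using congrArg Fin.val h'))
      · rfl

lemma diag_proj (k : ℕ) : (Matrix.diagonal (fun i : Fin (k + 1) => if i = 0 then (1 : A) else 0))
    = (Matrix.diagonal (fun i : Fin (k + 1) => if i = 0 then (1 : A) else 0))ᴴ *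
      (Matrix.diagonal (fun i : Fin (k + 1) => if i = 0 then (1 : A) else 0)) := by
  rw [diagonal_conjTranspose, diagonal_mul_diagonal]
  congr 1
  funext i
  rw [Pi.star_apply]
  split_ifs <;> simp

lemma qt_rank_one (τ : QT A) (k : ℕ) :
    τ.rank (Matrix.diagonal (fun i : Fin (k + 1) => if i = 0 then (1 : A) else 0)) ≤ 1 := by
  unfold QT.rank
  have h : ∀ j : ℕ, root (Matrix.diagonal (fun i : Fin (k + 1) => if i = 0 then (1 : A) else 0)) j
      = Matrix.diagonal (fun i : Fin (k + 1) => if i = 0 then (1 : A) else 0) := by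
    intro j
    unfold root
    have hp : IsStarProjection (Mat.of (Matrix.diagonal
        (fun i : Fin (k + 1) => if i = 0 then (1 : A) else 0))) := by
      refine ⟨?_, ?_⟩
      · show Mat.of _ * Mat.of _ = Mat.of _
        rw [← map_mul, diagonal_mul_diagonal]
        congr 2
        funext i
        split_ifs <;> simp
      · show star (Mat.of _) = Mat.of _
        rw [← map_star]
        congr 1
        show (Matrix.diagonal _)ᴴ = _
        rw [diagonal_conjTranspose]
        congr 1
        funext i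
        rw [Pi.star_apply]
        split_ifs <;> simp
    rw [cfc_root_proj _ hp j]
    rfl
  simp only [h, qt_corner_one, Complex.one_re, ENNReal.ofReal_one]
  rw [liminf_const]

end QTs

end Run7.h305.CX
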