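import Pool.Agent.Run7.h745.Psi

/-!
# Crossed products, part 2: Toeplitz matrices
-/

set_option autoImplicit false
set_option linter.unusedSectionVars false

noncomputable section

namespace Run7.h305.CX

open Filter Topology Matrix Run7.h745
open scoped InnerProductSpace ENNReal

section
variable {X : Type} [TopologicalSpace X] [CompactSpace X] {T : X ≃ₜ X}
  {B : Type} [CStarAlgebra B] {π : C(X, ℂ) →⋆ₐ[ℂ] B} {v : unitary B}

/-- apply a homomorphism to the entries -/
def entHom (π : C(X, ℂ) →⋆ₐ[ℂ] B) (n : ℕ) : C(X, Mat n ℂ) →⋆ₙₐ[ℂ] Mat n B where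
  toFun G := Mat.of (Matrix.of fun i j => π (ent G i j))
  map_zero' := by
    have : (Matrix.of fun i j : Fin n => π (ent (0 : C(X, Mat n ℂ)) i j)) = 0 := by
      ext i j
      rw [Matrix.of_apply, ent_zero, map_zero]; rfl
    rw [this, map_zero]
  map_add' G G' := by
    rw [← map_add]
    congr 1
    ext i j
    rw [Matrix.of_apply, ent_add, map_add]; rfl
  map_smul' c G := by
    rw [← map_smul]
    congr 1
    ext i j
    rw [Matrix.of_apply]
    have : ent (c • G) i j = c • ent G i j := rfl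
    rw [this, map_smul]; rfl
  map_mul' G G' := by
    rw [← map_mul]
    congr 1
    ext i j
    rw [Matrix.of_apply, ent_mul, map_sum, Matrix.mul_apply]
    refine Finset.sum_congr rfl fun k _ => ?_
    rw [map_mul]; rfl
  map_star' G := by
    rw [← map_star]
    congr 1
    ext i j
    rw [Matrix.of_apply, ent_star, map_star, Matrix.star_apply]; rfl

lemma entHom_apply (n : ℕ) (G : C(X, Mat n ℂ)) :
    entHom π n G = Mat.of (Matrix.of fun i j => π (ent G i j)) := rfl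

lemma entry_norm {n : ℕ} (M : Matrix (Fin n) (Fin n) B) (i j : Fin n) :
    ‖M i j‖ ≤ ‖(Mat.of M : Mat n B)‖ := by
  let : PartialOrder B := CStarAlgebra.spectralOrder B
  let : StarOrderedRing B := CStarAlgebra.spectralOrderedRing B
  exact CStarMatrix.norm_entry_le_norm (M := CStarMatrix.ofMatrix M)

variable (T) in
/-- the Toeplitz matrices -/
def toep (f : ℤ → C(X, ℂ)) (n : ℕ) : C(X, Mat n ℂ) :=
  ⟨fun x => Mat.of (Matrix.of fun i j : Fin n =>
      f (((i : ℕ) : ℤ) - ((j : ℕ) : ℤ)) ((T ^ ((i : ℕ) : ℤ) : X ≃ₜ X) x)), by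
    refine Mat.continuous_of.comp (continuous_matrix fun i j => ?_)
    exact (f _).continuous.comp (T ^ ((i : ℕ) : ℤ) : X ≃ₜ X).continuous⟩

lemma ent_toep (f : ℤ → C(X, ℂ)) (n : ℕ) (i j : Fin n) :
    ent (toep T f n) i j = cT T ((i : ℕ) : ℤ) (f (((i : ℕ) : ℤ) - ((j : ℕ) : ℤ))) := rfl

/-- the column -/
def colW (v : unitary B) (n : ℕ) : Matrix (Fin (n+1)) (Fin (n+1)) B :=
  Matrix.of fun i j => if j = 0 then up v (-((i : ℕ) : ℤ)) else 0

lemma colW_norm (v : unitary B) (n : ℕ) : ‖(Mat.of (colW v n) : Mat (n+1) B)‖ * ‖(Mat.of (colW v n) : Mat (n+1) B)‖ ≤ n + 1 := by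
  have h1 : star (Mat.of (colW v n) : Mat (n+1) B) * Mat.of (colW v n) =
      ((n + 1 : ℝ) : ℂ) • Mat.of (Matrix.single 0 0 (1 : B)) := by
    rw [← map_star, ← map_mul, ← map_smul]
    congr 1
    ext a b
    rw [Matrix.mul_apply, Matrix.smul_apply, Matrix.single_apply]
    have h2 : ∀ i : Fin (n+1), (star (colW v n)) a i * colW v n i b =
        if 0 = a ∧ 0 = b then 1 else 0 := by
      intro i
      rw [Matrix.star_apply, colW, Matrix.of_apply, Matrix.of_apply]
      by_cases ha : a = 0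
      · by_cases hb : b = 0
        · rw [if_pos ha, if_pos hb, star_up, neg_neg, up_mul_up_neg, if_pos ⟨ha.symm, hb.symm⟩]
        · rw [if_neg hb, mul_zero, if_neg fun h => hb h.2.symm]
      · rw [if_neg ha, star_zero, zero_mul, if_neg fun h => ha h.1.symm]
    simp only [h2]
    rw [Finset.sum_const, Finset.card_univ, Fintype.card_fin]
    split_ifs
    · rw [nsmul_one]
      push_cast
      rw [add_smul, one_smul, Nat.cast_smul_eq_nsmul ℂ, nsmul_one]
    · simp
  have h3 : ‖(Mat.of (Matrix.single 0 0 (1 : B)) : Mat (n+1) B)‖ ≤ 1 := by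
    apply IsStarProjection.norm_le
    constructor
    · show _ * _ = _
      rw [← map_mul, Matrix.single_mul_single_same, mul_one]
    · show star _ = _
      rw [← map_star, Matrix.star_eq_conjTranspose, Matrix.conjTranspose_single, star_one]
  rw [← CStarRing.norm_star_mul_self, h1]
  calc ‖((n + 1 : ℝ) : ℂ) • (Mat.of (Matrix.single 0 0 (1 : B)) : Mat (n+1) B)‖
      ≤ ‖((n + 1 : ℝ) : ℂ)‖ * ‖(Mat.of (Matrix.single 0 0 (1 : B)) : Mat (n+1) B)‖ := norm_smul_le _ _
    _ ≤ (n + 1) * 1 := by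
        rw [Complex.norm_real, Real.norm_of_nonneg (by positivity)]
        gcongr
    _ = n + 1 := mul_one _

lemma toep_sum (hc : Covariant T π v) (f : ℤ → C(X, ℂ)) (n : ℕ) (C : ℝ)
    (h : ‖toep T f (n+1)‖ ≤ C) :
    ‖∑ i ∈ Finset.range (n+1), ∑ j ∈ Finset.range (n+1), π (f ((i : ℤ) - j)) * up v ((i : ℤ) - j)‖
      ≤ (n + 1) * C := by
  have h1 : (star (Mat.of (colW v n) : Mat (n+1) B) * entHom π (n+1) (toep T f (n+1)) *
      Mat.of (colW v n)) = Mat.of (star (colW v n) * (Matrix.of fun i j => π (ent (toep T f (n+1)) i j)) *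
        colW v n) := by
    rw [map_mul, map_mul, map_star]; rfl
  have h2 : (star (colW v n) * (Matrix.of fun i j => π (ent (toep T f (n+1)) i j)) * colW v n) 0 0 =
      ∑ i ∈ Finset.range (n+1), ∑ j ∈ Finset.range (n+1), π (f ((i : ℤ) - j)) * up v ((i : ℤ) - j) := by
    rw [Matrix.mul_apply, Finset.sum_comm, Finset.sum_range]
    refine Finset.sum_congr rfl fun j _ => ?_
    rw [Matrix.mul_apply, Finset.sum_mul, Finset.sum_range]
    refine Finset.sum_congr rfl fun i _ => ?_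
    rw [Matrix.star_apply, Matrix.of_apply, ent_toep]
    simp only [colW, Matrix.of_apply, if_true]
    rw [star_up, neg_neg]
    have h3 := cov_up hc ((i : ℕ) : ℤ) (cT T ((i : ℕ) : ℤ) (f (((i : ℕ) : ℤ) - ((j : ℕ) : ℤ))))
    rw [cT_cT, add_neg_cancel, cT_zero] at h3
    rw [h3, mul_assoc, ← up_add, ← sub_eq_add_neg]
  have h3 := entry_norm (star (colW v n) * (Matrix.of fun i j => π (ent (toep T f (n+1)) i j)) *
    colW v n) 0 0
  rw [h2, ← h1] at h3
  refine h3.trans ?_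
  have h4 : ‖entHom π (n+1) (toep T f (n+1))‖ ≤ C :=
    (NonUnitalStarAlgHom.norm_apply_le _ _).trans h
  have h5 := colW_norm v n
  calc ‖star (Mat.of (colW v n) : Mat (n+1) B) * entHom π (n+1) (toep T f (n+1)) * Mat.of (colW v n)‖
      ≤ ‖star (Mat.of (colW v n) : Mat (n+1) B) * entHom π (n+1) (toep T f (n+1))‖ *
          ‖(Mat.of (colW v n) : Mat (n+1) B)‖ := norm_mul_le _ _
    _ ≤ (‖(Mat.of (colW v n) : Mat (n+1) B)‖ * C) * ‖(Mat.of (colW v n) : Mat (n+1) B)‖ := by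
        refine mul_le_mul_of_nonneg_right ((norm_mul_le _ _).trans ?_) (norm_nonneg _)
        rw [norm_star]
        exact mul_le_mul_of_nonneg_left h4 (norm_nonneg _)
    _ = (‖(Mat.of (colW v n) : Mat (n+1) B)‖ * ‖(Mat.of (colW v n) : Mat (n+1) B)‖) * C := by ring
    _ ≤ (n + 1) * C := by
        refine mul_le_mul_of_nonneg_right h5 ((norm_nonneg _).trans h)

/-- The norm of a Laurent polynomial is at most the supremum of the norms of the Toeplitz matrices. -/
theorem toeplitz (hc : Covariant T π v) (L : ℕ) (f : ℤ → C(X, ℂ))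
    (hf : ∀ k : ℤ, (L : ℤ) < |k| → f k = 0) (C : ℝ) (h : ∀ n, ‖toep T f n‖ ≤ C) :
    ‖laur v π L f‖ ≤ C := by
  classical
  obtain ⟨F, hF⟩ : ∃ F : ℤ → B, F = fun k => π (f k) * up v k := ⟨_, rfl⟩
  have hF0 : ∀ k : ℤ, (L : ℤ) < |k| → F k = 0 := by
    intro k hk
    rw [hF]; simp only
    rw [hf k hk, map_zero, zero_mul]
  have hS : laur v π L f = ∑ k ∈ Finset.Icc (-(L : ℤ)) L, F k := by rw [hF]; rfl
  obtain ⟨S, hSe⟩ : ∃ S, S = ∑ k ∈ Finset.Icc (-(L : ℤ)) L, F k := ⟨_, rfl⟩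
  rw [hS, ← hSe]
  obtain ⟨Dd, hD⟩ : ∃ Dd, Dd = ∑ k ∈ Finset.Icc (-(L : ℤ)) L, ‖F k‖ := ⟨_, rfl⟩
  have hSD : ‖S‖ ≤ Dd := by rw [hSe, hD]; exact norm_sum_le _ _
  -- rows
  have hrow : ∀ n i : ℕ, ∑ j ∈ Finset.range n, F ((i : ℤ) - j) =
      ∑ k ∈ (Finset.Icc (-(L : ℤ)) L).filter (fun k => 0 ≤ (i : ℤ) - k ∧ (i : ℤ) - k < n), F k := by
    intro n i
    symm
    rw [← Finset.sum_filter_ne_zero]
    rw [← Finset.sum_filter_ne_zero (s := Finset.range n)]
    refine Finset.sum_nbij' (fun k => ((i : ℤ) - k).toNat) (fun j => (i : ℤ) - j) ?_ ?_ ?_ ?_ ?_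
    · intro k hk
      simp only [Finset.mem_filter, Finset.mem_Icc, Finset.mem_range] at hk ⊢
      have e : (((((i : ℤ) - k).toNat : ℕ)) : ℤ) = (i : ℤ) - k := Int.toNat_of_nonneg hk.1.2.1
      rw [e]
      refine ⟨by omega, ?_⟩
      have : (i : ℤ) - ((i : ℤ) - k) = k := by ring
      rw [this]; exact hk.2
    · intro j hj
      simp only [Finset.mem_filter, Finset.mem_Icc, Finset.mem_range] at hj ⊢
      refine ⟨⟨?_, by omega, by omega⟩, hj.2⟩
      by_contra hcon
      apply hj.2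
      apply hF0
      rw [lt_abs]; omega
    · intro k hk
      simp only [Finset.mem_filter, Finset.mem_Icc] at hk
      have e : (((((i : ℤ) - k).toNat : ℕ)) : ℤ) = (i : ℤ) - k := Int.toNat_of_nonneg hk.1.2.1
      rw [e]; ring
    · intro j _
      omega
    · intro k hk
      simp only [Finset.mem_filter, Finset.mem_Icc] at hk
      have e : (((((i : ℤ) - k).toNat : ℕ)) : ℤ) = (i : ℤ) - k := Int.toNat_of_nonneg hk.1.2.1
      rw [e]
      congr 1; ring
  have hrow1 : ∀ n i : ℕ, L ≤ i → i + L < n → ∑ j ∈ Finset.range n, F ((i : ℤ) - j) = S := by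
    intro n i h1 h2
    rw [hrow, hSe]
    congr 1
    rw [Finset.filter_eq_self]
    intro k hk
    rw [Finset.mem_Icc] at hk
    omega
  have hrow2 : ∀ n i : ℕ, ‖∑ j ∈ Finset.range n, F ((i : ℤ) - j)‖ ≤ Dd := by
    intro n i
    rw [hrow, hD]
    refine (norm_sum_le _ _).trans (Finset.sum_le_sum_of_subset_of_nonneg (Finset.filter_subset _ _)
      fun _ _ _ => norm_nonneg _)
  have hkey : ∀ n : ℕ, ‖∑ i ∈ Finset.range (n+1), ∑ j ∈ Finset.range (n+1), F ((i : ℤ) - j) -
      (n + 1 : ℕ) • S‖ ≤ (2 * L + 1) * (2 * Dd) := by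
    intro n
    have h1 : ∑ i ∈ Finset.range (n+1), ∑ j ∈ Finset.range (n+1), F ((i : ℤ) - j) - (n + 1 : ℕ) • S =
        ∑ i ∈ Finset.range (n+1), (∑ j ∈ Finset.range (n+1), F ((i : ℤ) - j) - S) := by
      rw [Finset.sum_sub_distrib, Finset.sum_const, Finset.card_range]
    rw [h1]
    have h2 : ∀ i ∈ Finset.range (n+1), ‖∑ j ∈ Finset.range (n+1), F ((i : ℤ) - j) - S‖ ≤
        if i < L ∨ n + 1 ≤ i + L then 2 * Dd else 0 := by
      intro i _
      split_ifs with h3
      · refine (norm_sub_le _ _).trans ?_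
        have := hrow2 (n+1) i
        linarith
      · push Not at h3
        rw [hrow1 (n+1) i h3.1 h3.2, sub_self, norm_zero]
    refine (norm_sum_le _ _).trans ((Finset.sum_le_sum h2).trans ?_)
    rw [← Finset.sum_filter, Finset.sum_const, nsmul_eq_mul]
    have hD0 : 0 ≤ Dd := (norm_nonneg _).trans hSD
    refine mul_le_mul_of_nonneg_right ?_ (by positivity)
    have h4 : ((Finset.range (n+1)).filter fun i => i < L ∨ n + 1 ≤ i + L) ⊆
        Finset.range L ∪ Finset.Ico (n + 1 - L) (n + 1) := by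
      intro i hi
      simp only [Finset.mem_filter, Finset.mem_range, Finset.mem_union, Finset.mem_Ico] at hi ⊢
      omega
    have h5 := (Finset.card_le_card h4).trans (Finset.card_union_le _ _)
    rw [Finset.card_range, Nat.card_Ico] at h5
    have h6 : ((Finset.range (n+1)).filter fun i => i < L ∨ n + 1 ≤ i + L).card ≤ 2 * L + 1 := by
      omega
    exact_mod_cast h6
  have hC : 0 ≤ C := (norm_nonneg _).trans (h 0)
  have hfin : ∀ n : ℕ, ((n + 1 : ℕ) : ℝ) * (‖S‖ - C) ≤ (2 * L + 1) * (2 * Dd) := by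
    intro n
    have h1 := toep_sum hc f n C (h (n+1))
    have h2 := hkey n
    rw [hF] at h2
    have h3 : ‖(n + 1 : ℕ) • S‖ = ((n + 1 : ℕ) : ℝ) * ‖S‖ := by
      rw [← Nat.cast_smul_eq_nsmul ℝ, norm_smul, Real.norm_of_nonneg (by positivity)]
    have h4 : ‖(n + 1 : ℕ) • S‖ ≤ ‖∑ i ∈ Finset.range (n+1), ∑ j ∈ Finset.range (n+1),
        π (f ((i : ℤ) - j)) * up v ((i : ℤ) - j)‖ + ‖∑ i ∈ Finset.range (n+1), ∑ j ∈ Finset.range (n+1),
        π (f ((i : ℤ) - j)) * up v ((i : ℤ) - j) - (n + 1 : ℕ) • S‖ := by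
      have := norm_sub_norm_le ((n + 1 : ℕ) • S) (∑ i ∈ Finset.range (n+1), ∑ j ∈ Finset.range (n+1),
        π (f ((i : ℤ) - j)) * up v ((i : ℤ) - j))
      rw [norm_sub_rev] at this
      linarith
    rw [h3] at h4
    push_cast at h4 ⊢
    nlinarith
  by_contra hcon
  push Not at hcon
  obtain ⟨n, hn⟩ := exists_nat_gt ((2 * L + 1) * (2 * Dd) / (‖S‖ - C))
  have h1 := hfin n
  rw [div_lt_iff₀ (by linarith)] at hn
  push_cast at h1
  have : 0 < ‖S‖ - C := by linarith
  linarith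

/-- the Toeplitz matrices are compressions -/
theorem toep_norm_le (f : ℤ → C(X, ℂ)) (C : ℝ)
    (hC : 0 ≤ C) (S : X → (HH →L[ℂ] HH))
    (hS : ∀ x i j, ⟪dl i, S x (dl j)⟫_ℂ = f (i - j) ((T ^ i : X ≃ₜ X) x)) (h : ∀ x, ‖S x‖ ≤ C)
    (n : ℕ) : ‖toep T f n‖ ≤ C := by
  refine (ContinuousMap.norm_le _ hC).mpr fun x => ?_
  have h1 := mu_norm (mE n) (mE_mul _) (mE_star _) (fun i => ((i : ℕ) : ℤ)) (by
    intro i j h
    apply Fin.ext
    simp only at h
    exact_mod_cast h) (S x)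
  refine le_trans (le_of_eq ?_) (h1.trans (h x))
  congr 1
  rw [mE_sum n (toep T f n x)]
  refine Finset.sum_congr rfl fun i _ => Finset.sum_congr rfl fun j _ => ?_
  rw [hS]; rfl

end

end Run7.h305.CX
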